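import Mathlib

set_option autoImplicit false

namespace Pool.Agent.P.MP_cf6cc5_co

open Finset

/-- Union bound over a finite key type. -/
theorem exists_hit_fintype {K ι : Type*} [Fintype K] [DecidableEq K] (r C : ℕ) (F : Finset ι)
    (A : ι → Finset K) (φ : ι → Fin (r + 1)) (hA : ∀ i ∈ F, C ≤ (A i).card)
    (h : F.card * r ^ C < (r + 1) ^ C) :
    ∃ ζ : K → Fin (r + 1), ∀ i ∈ F, ∃ κ ∈ A i, ζ κ = φ i := by
  classical
  by_contra hcon
  push Not at hcon
  let bad : ι → Finset (K → Fin (r + 1)) := fun i =>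
    Fintype.piFinset (fun κ => if κ ∈ A i then univ.erase (φ i) else univ)
  have hcover : (univ : Finset (K → Fin (r + 1))) ⊆ F.biUnion bad := by
    intro ζ _
    obtain ⟨i, hi, hζ⟩ := hcon ζ
    refine mem_biUnion.2 ⟨i, hi, ?_⟩
    simp only [bad, Fintype.mem_piFinset]
    intro κ
    split_ifs with hκ
    · exact mem_erase.2 ⟨hζ κ hκ, mem_univ _⟩
    · exact mem_univ _
  have hbad : ∀ i ∈ F, (bad i).card * (r + 1) ^ C ≤ r ^ C * (r + 1) ^ (Fintype.card K) := by
    intro i hi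
    have h1 : (bad i).card = r ^ (A i).card * (r + 1) ^ (Fintype.card K - (A i).card) := by
      simp only [bad, Fintype.card_piFinset]
      have : ∀ κ : K, (if κ ∈ A i then (univ.erase (φ i) : Finset (Fin (r + 1))) else univ).card
          = if κ ∈ A i then r else r + 1 := by
        intro κ
        split_ifs
        · simp
        · simp
      simp only [this]
      rw [prod_ite]
      simp only [prod_const]
      congr 2
      · congr 1
        ext κ; simp
      · rw [← card_univ, ← card_sdiff_of_subset (subset_univ (A i))]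
        congr 1
        ext κ; simp
    obtain ⟨e, he⟩ := Nat.exists_eq_add_of_le (hA i hi)
    have h2 : (A i).card ≤ Fintype.card K := card_le_univ _
    obtain ⟨g, hg⟩ := Nat.exists_eq_add_of_le h2
    rw [h1, hg, he]
    have h3 : C + e + g - (C + e) = g := by omega
    rw [h3]
    have h4 : r ^ e ≤ (r + 1) ^ e := Nat.pow_le_pow_left (Nat.le_succ r) e
    calc r ^ (C + e) * (r + 1) ^ g * (r + 1) ^ C
        = r ^ C * (r ^ e * ((r + 1) ^ g * (r + 1) ^ C)) := by ring
      _ ≤ r ^ C * ((r + 1) ^ e * ((r + 1) ^ g * (r + 1) ^ C)) := by gcongr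
      _ = r ^ C * (r + 1) ^ (C + e + g) := by ring
  have h5 : (r + 1) ^ (Fintype.card K) ≤ ∑ i ∈ F, (bad i).card := by
    have := card_le_card hcover
    rw [card_univ, Fintype.card_fun, Fintype.card_fin] at this
    exact this.trans card_biUnion_le
  have h6 : (∑ i ∈ F, (bad i).card) * (r + 1) ^ C ≤ F.card * (r ^ C * (r + 1) ^ (Fintype.card K)) := by
    rw [sum_mul]
    exact (sum_le_sum hbad).trans (by simp)
  have h7 : 0 < (r + 1) ^ (Fintype.card K) := by positivity
  have h8 : (r + 1) ^ (Fintype.card K) * (r + 1) ^ C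
      ≤ F.card * (r ^ C * (r + 1) ^ (Fintype.card K)) :=
    (Nat.mul_le_mul_right _ h5).trans h6
  have h9 : F.card * r ^ C * (r + 1) ^ (Fintype.card K) < (r + 1) ^ C * (r + 1) ^ (Fintype.card K) :=
    Nat.mul_lt_mul_of_pos_right h h7
  nlinarith

/-- Union bound over an arbitrary key type. -/
theorem exists_hit {K ι : Type*} [DecidableEq K] (r C : ℕ) (F : Finset ι)
    (A : ι → Finset K) (φ : ι → Fin (r + 1)) (hA : ∀ i ∈ F, C ≤ (A i).card)
    (h : F.card * r ^ C < (r + 1) ^ C) :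
    ∃ ζ : K → Fin (r + 1), ∀ i ∈ F, ∃ κ ∈ A i, ζ κ = φ i := by
  classical
  let Ω : Finset K := F.biUnion A
  obtain ⟨ζ, hζ⟩ := exists_hit_fintype (K := Ω) r C F (fun i => (A i).subtype (· ∈ Ω)) φ
    (by
      intro i hi
      rw [card_subtype, filter_true_of_mem]
      · exact hA i hi
      · intro κ hκ
        exact mem_biUnion.2 ⟨i, hi, hκ⟩) h
  refine ⟨fun κ => if hκ : κ ∈ Ω then ζ ⟨κ, hκ⟩ else 0, ?_⟩
  intro i hi
  obtain ⟨κ, hκ, hκ'⟩ := hζ i hi
  refine ⟨κ.1, mem_subtype.1 hκ, ?_⟩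
  simp only [dif_pos κ.2]
  exact hκ'

/-- A random labelling of keys hits every colour on every large key-injective set. -/
theorem exists_labelling {K : Type*} [DecidableEq K] (r b N : ℕ) (key : ℕ × ℕ → K)
    (h : (r + 1) * N ^ (b + 1) * r ^ ((b + 1).choose 2) < (r + 1) ^ ((b + 1).choose 2)) :
    ∃ ζ : K → Fin (r + 1), ∀ c : Fin (r + 1), ∀ Z : Finset ℕ, Z ⊆ range N →
      (∀ x ∈ Z, ∀ y ∈ Z, ∀ x' ∈ Z, ∀ y' ∈ Z, x < y → x' < y' → key (x, y) = key (x', y') →
        x = x' ∧ y = y') →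
      (∀ x ∈ Z, ∀ y ∈ Z, x < y → ζ (key (x, y)) ≠ c) → Z.card ≤ b := by
  classical
  let P : Finset ℕ → Finset (ℕ × ℕ) := fun Z => (Z ×ˢ Z).filter (fun p => p.1 < p.2)
  let F : Finset (Fin (r + 1) × Finset ℕ) :=
    (univ ×ˢ powersetCard (b + 1) (range N)).filter (fun i => Set.InjOn key (P i.2))
  have hF : F.card ≤ (r + 1) * N ^ (b + 1) := by
    calc F.card ≤ (univ ×ˢ powersetCard (b + 1) (range N) :
          Finset (Fin (r + 1) × Finset ℕ)).card := card_filter_le _ _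
      _ = (r + 1) * N.choose (b + 1) := by simp
      _ ≤ (r + 1) * N ^ (b + 1) := Nat.mul_le_mul_left _ (Nat.choose_le_pow _ _)
  obtain ⟨ζ, hζ⟩ := exists_hit r ((b + 1).choose 2) F (fun i => (P i.2).image key) (fun i => i.1)
    (by
      intro i hi
      simp only [F, mem_filter, mem_product, mem_univ, true_and, mem_powersetCard] at hi
      rw [card_image_of_injOn hi.2]
      simp only [P]
      rw [card_product_filter_lt, hi.1.2])
    (lt_of_le_of_lt (Nat.mul_le_mul_right _ hF) h)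
  refine ⟨ζ, ?_⟩
  intro c Z hZ hinj hne
  by_contra hlt
  obtain ⟨W, hWZ, hW⟩ := exists_subset_card_eq (show b + 1 ≤ Z.card by omega)
  have hmem : (c, W) ∈ F := by
    simp only [F, mem_filter, mem_product, mem_univ, true_and, mem_powersetCard]
    refine ⟨⟨hWZ.trans hZ, hW⟩, ?_⟩
    rintro ⟨x, y⟩ hp ⟨x', y'⟩ hp' hk
    simp only [P, coe_filter, mem_product, Set.mem_ofPred_eq] at hp hp'
    obtain ⟨h1, h2⟩ := hinj x (hWZ hp.1.1) y (hWZ hp.1.2) x' (hWZ hp'.1.1) y' (hWZ hp'.1.2)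
      hp.2 hp'.2 hk
    rw [h1, h2]
  obtain ⟨κ, hκ, hκ'⟩ := hζ _ hmem
  obtain ⟨⟨x, y⟩, hp, rfl⟩ := mem_image.1 hκ
  simp only [P, mem_filter, mem_product] at hp
  exact hne x (hWZ hp.1.1) y (hWZ hp.1.2) hp.2 hκ'

end Pool.Agent.P.MP_cf6cc5_co
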