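import Mathlib
import Pool.Agent.P.MP_cf6cc5_co.Hit

set_option autoImplicit false

namespace Pool.Agent.P.MP_cf6cc5_co

open Finset

/-- Height at which the leaves `x`, `y` of the `t`-ary tree merge. -/
noncomputable def sp (t x y : ℕ) : ℕ := sInf {h | x / t ^ h = y / t ^ h}

/-- The pair of ancestors `d` levels below the children of the common ancestor. -/
noncomputable def key (t d : ℕ) (p : ℕ × ℕ) : ℕ × ℕ × ℕ :=
  (sp t p.1 p.2 - 1 - d, p.1 / t ^ (sp t p.1 p.2 - 1 - d), p.2 / t ^ (sp t p.1 p.2 - 1 - d))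

theorem div_pow_eq_of_le {t x y h h' : ℕ} (e : x / t ^ h = y / t ^ h) (hh : h ≤ h') :
    x / t ^ h' = y / t ^ h' := by
  obtain ⟨d, rfl⟩ := Nat.exists_eq_add_of_le hh
  rw [pow_add, ← Nat.div_div_eq_div_mul, ← Nat.div_div_eq_div_mul, e]

theorem sp_le_iff {t : ℕ} (ht : 2 ≤ t) (x y h : ℕ) : sp t x y ≤ h ↔ x / t ^ h = y / t ^ h := by
  constructor
  · intro hh
    have hne : {h | x / t ^ h = y / t ^ h}.Nonempty := by
      refine ⟨x + y, ?_⟩
      have h1 : x + y < t ^ (x + y) := Nat.lt_pow_self (by omega)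
      simp only [Set.mem_ofPred_eq]
      rw [Nat.div_eq_of_lt (by omega), Nat.div_eq_of_lt (by omega)]
    exact div_pow_eq_of_le (Nat.sInf_mem hne) hh
  · intro e
    exact Nat.sInf_le e

theorem key_congr {t d x y x' y' h j : ℕ} (ht : 2 ≤ t) (hx : x / t ^ h = x' / t ^ h)
    (hy : y / t ^ h = y' / t ^ h) (hne : x / t ^ j ≠ y / t ^ j) (hj : h + d ≤ j) :
    key t d (x, y) = key t d (x', y') := by
  have h1 : j < sp t x y := by
    by_contra hc
    exact hne ((sp_le_iff ht x y j).1 (by omega))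
  have h2 : j < sp t x' y' := by
    by_contra hc
    have := (sp_le_iff ht x' y' j).1 (by omega)
    rw [← div_pow_eq_of_le hx (by omega : h ≤ j), ← div_pow_eq_of_le hy (by omega : h ≤ j)] at this
    exact hne this
  have h3 : sp t x y = sp t x' y' := by
    apply le_antisymm
    · rw [sp_le_iff ht, div_pow_eq_of_le hx (by omega), div_pow_eq_of_le hy (by omega),
        ← sp_le_iff ht]
    · rw [sp_le_iff ht, ← div_pow_eq_of_le hx (by omega), ← div_pow_eq_of_le hy (by omega),
        ← sp_le_iff ht]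
  simp only [key, ← h3]
  rw [div_pow_eq_of_le hx (by omega), div_pow_eq_of_le hy (by omega)]

theorem key_inj {t d j : ℕ} (ht : 2 ≤ t) {Z : Finset ℕ}
    (hinj : Set.InjOn (fun x => x / t ^ j) Z)
    (hconst : ∀ x ∈ Z, ∀ y ∈ Z, x / t ^ (j + d + 1) = y / t ^ (j + d + 1)) :
    ∀ x ∈ Z, ∀ y ∈ Z, ∀ x' ∈ Z, ∀ y' ∈ Z, x < y → x' < y' → key t d (x, y) = key t d (x', y') →
      x = x' ∧ y = y' := by
  intro x hx y hy x' hx' y' hy' _ _ hk
  have h1 : sp t x y ≤ j + d + 1 := (sp_le_iff ht x y _).2 (hconst x hx y hy)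
  simp only [key, Prod.mk.injEq] at hk
  obtain ⟨e1, e2, e3⟩ := hk
  rw [← e1] at e2 e3
  exact ⟨hinj hx hx' (div_pow_eq_of_le e2 (by omega)), hinj hy hy' (div_pow_eq_of_le e3 (by omega))⟩

/-- Number of ancestors of `Y` at height `j`. -/
def anc (t : ℕ) (Y : Finset ℕ) (j : ℕ) : ℕ := (Y.image (fun x => x / t ^ j)).card

theorem growth {t b j j' : ℕ} {Y : Finset ℕ}
    (H : ∀ Z ⊆ Y, Set.InjOn (fun x => x / t ^ j) Z →
      (∀ x ∈ Z, ∀ y ∈ Z, x / t ^ j' = y / t ^ j') → Z.card ≤ b) :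
    anc t Y j ≤ b * anc t Y j' := by
  obtain ⟨U, hUY, hUinj, hUim⟩ := exists_subset_injOn_image_eq_of_surjOn
    (f := fun x => x / t ^ j) (Y : Set ℕ) (Y.image (fun x => x / t ^ j)) (by
      rw [coe_image]; exact Set.surjOn_image _ _)
  have hUY' : U ⊆ Y := by exact_mod_cast hUY
  have h1 : anc t Y j = U.card := by
    rw [anc, ← hUim, card_image_of_injOn hUinj]
  rw [h1]
  refine card_le_mul_card_image_of_maps_to (f := fun x => x / t ^ j')
    (fun a ha => mem_image_of_mem _ (hUY' ha)) b ?_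
  intro w _
  apply H _ ((filter_subset _ _).trans hUY')
  · exact hUinj.mono (by exact_mod_cast filter_subset _ _)
  · intro x hx y hy
    rw [(mem_filter.1 hx).2, (mem_filter.1 hy).2]

theorem anc_succ_le {t : ℕ} (ht : 2 ≤ t) (Y : Finset ℕ) (j : ℕ) :
    anc t Y j ≤ t * anc t Y (j + 1) := by
  apply growth
  intro Z _ hinj hconst
  have : Z.card ≤ (range t).card := by
    apply card_le_card_of_injOn (fun x => x / t ^ j % t)
    · intro x _
      simp only [coe_range, Set.mem_Iio]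
      exact Nat.mod_lt _ (by omega)
    · intro x hx y hy e
      apply hinj hx hy
      have e2 := hconst x hx y hy
      rw [pow_succ, ← Nat.div_div_eq_div_mul, ← Nat.div_div_eq_div_mul] at e2
      simp only at e ⊢
      rw [← Nat.div_add_mod (x / t ^ j) t, ← Nat.div_add_mod (y / t ^ j) t, e, e2]
  simpa using this

theorem anc_le_one {t k p : ℕ} (ht : 2 ≤ t) {Y : Finset ℕ} (hY : Y ⊆ range (t ^ k))
    (hp : k ≤ p) : anc t Y p ≤ 1 := by
  rw [anc, card_le_one]
  intro a ha b hb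
  obtain ⟨x, hx, rfl⟩ := mem_image.1 ha
  obtain ⟨y, hy, rfl⟩ := mem_image.1 hb
  have h1 : t ^ k ≤ t ^ p := Nat.pow_le_pow_right (by omega) hp
  have h2 := mem_range.1 (hY hx)
  have h3 := mem_range.1 (hY hy)
  rw [Nat.div_eq_of_lt (by omega), Nat.div_eq_of_lt (by omega)]

theorem anc_le_pow {t k r E b h : ℕ} (ht : 2 ≤ t) (hE : 1 ≤ E) (hh : 1 ≤ h) (hk : k ≤ E ^ r)
    {Y : Finset ℕ} (hY : Y ⊆ range (t ^ k))
    (H : ∀ i < r, ∀ j, h + E ^ i ≤ j + 1 → anc t Y j ≤ b * anc t Y (j + E ^ i)) :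
    anc t Y h ≤ b ^ (E * r) := by
  have step : ∀ i < r, ∀ p, h + E ^ i ≤ p + 1 → ∀ e : ℕ,
      anc t Y p ≤ b ^ e * anc t Y (p + e * E ^ i) := by
    intro i hi p hp e
    induction e with
    | zero => simp
    | succ e ih =>
      have := H i hi (p + e * E ^ i) (by omega)
      calc anc t Y p ≤ b ^ e * anc t Y (p + e * E ^ i) := ih
        _ ≤ b ^ e * (b * anc t Y (p + e * E ^ i + E ^ i)) := Nat.mul_le_mul_left _ this
        _ = b ^ (e + 1) * anc t Y (p + (e + 1) * E ^ i) := by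
          rw [pow_succ, mul_assoc, add_mul, one_mul, add_assoc]
  have main : ∀ i ≤ r, ∃ p, h + E ^ i ≤ p + 1 ∧ anc t Y h ≤ b ^ (E * i) * anc t Y p := by
    intro i hi
    induction i with
    | zero => exact ⟨h, by simp, by simp⟩
    | succ i ih =>
      obtain ⟨p, hp1, hp2⟩ := ih (by omega)
      have hpos : 1 ≤ E ^ i := Nat.one_le_pow _ _ hE
      refine ⟨p + E * E ^ i, ?_, ?_⟩
      · rw [pow_succ, mul_comm (E ^ i) E]; omega
      · calc anc t Y h ≤ b ^ (E * i) * anc t Y p := hp2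
          _ ≤ b ^ (E * i) * (b ^ E * anc t Y (p + E * E ^ i)) :=
            Nat.mul_le_mul_left _ (step i (by omega) p hp1 E)
          _ = b ^ (E * (i + 1)) * anc t Y (p + E * E ^ i) := by
            rw [mul_add, mul_one, pow_add, mul_assoc]
  obtain ⟨p, hp1, hp2⟩ := main r le_rfl
  have := anc_le_one ht hY (show k ≤ p by omega)
  calc anc t Y h ≤ b ^ (E * r) * anc t Y p := hp2
    _ ≤ b ^ (E * r) * 1 := Nat.mul_le_mul_left _ this
    _ = _ := mul_one _

/-- The core construction: a colouring of pairs from `range (t ^ k)` with `r + 1` colours having no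
monochromatic ordered copy of the matching `(i, j) ~ (j, i)` on the lexicographic square. -/
theorem core (r t E b l k : ℕ) (ht : 2 ≤ t) (hE : 1 ≤ E) (hk : k ≤ E ^ r)
    (hcount : (r + 1) * (t ^ k) ^ (b + 1) * r ^ ((b + 1).choose 2) < (r + 1) ^ ((b + 1).choose 2))
    (hl : k * (t * b ^ (E * r)) < l + 2) :
    ∃ col : ℕ → ℕ → Fin (r + 1), ∀ g : Fin (l + 2) → Fin (l + 2) → ℕ, (∀ i j, g i j < t ^ k) →
      (∀ i, StrictMono (g i)) → (∀ i i' j j', i < i' → g i j < g i' j') →
      ∀ c : Fin (r + 1), ¬ ∀ i j, i < j → col (g i j) (g j i) = c := by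
  classical
  have hζ := fun i : ℕ => exists_labelling r b (t ^ k) (key t (E ^ i - 1)) hcount
  choose ζ hζ using hζ
  have hcol : ∀ x y : ℕ, ∃ c : Fin (r + 1), ∀ i < r, ζ i (key t (E ^ i - 1) (x, y)) ≠ c := by
    intro x y
    have h1 : ((range r).image (fun i => ζ i (key t (E ^ i - 1) (x, y)))).card
        < (univ : Finset (Fin (r + 1))).card := by
      calc _ ≤ (range r).card := card_image_le
        _ < _ := by simp
    obtain ⟨c, _, hc⟩ := exists_mem_notMem_of_card_lt_card h1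
    refine ⟨c, fun i hi e => hc ?_⟩
    exact mem_image.2 ⟨i, mem_range.2 hi, e⟩
  choose col hcol using hcol
  refine ⟨col, ?_⟩
  intro g hgN hg1 hg2 c hc
  let a : Fin (l + 2) → ℕ := fun i => g i 0
  let z : Fin (l + 2) → ℕ := fun i => g i (Fin.last _)
  have haz : ∀ i, a i < z i := fun i => hg1 i (Fin.last_pos)
  have hmaps : ∀ i ∈ (univ : Finset (Fin (l + 2))), sp t (a i) (z i) ∈ Icc 1 k := by
    intro i _
    rw [mem_Icc]
    constructor
    · by_contra hc
      have := (sp_le_iff ht (a i) (z i) 0).1 (by omega)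
      simp only [pow_zero, Nat.div_one] at this
      exact absurd this (haz i).ne
    · rw [sp_le_iff ht, Nat.div_eq_of_lt (hgN _ _), Nat.div_eq_of_lt (hgN _ _)]
  obtain ⟨h, hh, hI⟩ := exists_lt_card_fiber_of_mul_lt_card_of_maps_to hmaps
    (n := t * b ^ (E * r)) (by simpa using hl)
  rw [mem_Icc] at hh
  set I := (univ : Finset (Fin (l + 2))).filter (fun i => sp t (a i) (z i) = h) with hIdef
  have hblock : ∀ i ∈ I, ∀ j, a i / t ^ h = g i j / t ^ h := by
    intro i hi j
    have e := (sp_le_iff ht (a i) (z i) h).1 (mem_filter.1 hi).2.le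
    apply le_antisymm
    · exact Nat.div_le_div_right ((hg1 i).monotone (Fin.zero_le j))
    · rw [e]; exact Nat.div_le_div_right ((hg1 i).monotone (Fin.le_last j))
  have hamono : StrictMono a := fun i i' hii => hg2 i i' 0 0 hii
  have hsep : ∀ i ∈ I, ∀ i', i < i' → a i / t ^ (h - 1) < a i' / t ^ (h - 1) := by
    intro i hi i' hii
    have e : a i / t ^ (h - 1) ≠ z i / t ^ (h - 1) := by
      intro e
      have := (sp_le_iff ht (a i) (z i) (h - 1)).2 e
      rw [(mem_filter.1 hi).2] at this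
      omega
    have e1 : a i / t ^ (h - 1) ≤ z i / t ^ (h - 1) := Nat.div_le_div_right (haz i).le
    have e2 : z i / t ^ (h - 1) ≤ a i' / t ^ (h - 1) :=
      Nat.div_le_div_right (hg2 i i' _ _ hii).le
    omega
  let Y : Finset ℕ := I.image a
  have hYN : Y ⊆ range (t ^ k) := by
    intro x hx
    obtain ⟨i, _, rfl⟩ := mem_image.1 hx
    exact mem_range.2 (hgN _ _)
  have hYcard : I.card = anc t Y (h - 1) := by
    rw [anc, image_image, card_image_of_injOn]
    intro i hi i' hi' e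
    rcases lt_trichotomy i i' with hlt | heq | hgt
    · exact absurd e (hsep i hi i' hlt).ne
    · exact heq
    · exact absurd e (hsep i' hi' i hgt).ne'
  have h1 : anc t Y (h - 1) ≤ t * anc t Y h := by
    have := anc_succ_le ht Y (h - 1)
    rwa [Nat.sub_add_cancel hh.1] at this
  have h2 : anc t Y h ≤ b ^ (E * r) := by
    apply anc_le_pow ht hE hh.1 hk hYN
    intro i hi j hj
    have hpos : 1 ≤ E ^ i := Nat.one_le_pow _ _ hE
    apply growth
    intro Z hZ hinj hconst
    apply hζ i c Z (hZ.trans hYN)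
    · apply key_inj ht hinj
      have : j + (E ^ i - 1) + 1 = j + E ^ i := by omega
      rw [this]
      exact hconst
    · intro x hx y hy hxy
      obtain ⟨u, hu, rfl⟩ := mem_image.1 (hZ hx)
      obtain ⟨v, hv, rfl⟩ := mem_image.1 (hZ hy)
      have huv : u < v := hamono.lt_iff_lt.1 hxy
      have hne : a u / t ^ j ≠ a v / t ^ j := fun e => hxy.ne (hinj hx hy e)
      rw [key_congr ht (hblock u hu v) (hblock v hv u) hne (by omega), ← hc u v huv]
      exact hcol _ _ i hi
  have h3 : t * anc t Y h ≤ t * b ^ (E * r) := Nat.mul_le_mul_left _ h2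
  omega

end Pool.Agent.P.MP_cf6cc5_co
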