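import Mathlib
import Pool.Agent.P.MP_cf6cc5_co.Tree

set_option autoImplicit false

namespace Pool.Agent.P.MP_cf6cc5_co

open Finset

/-- A perfect matching on `Fin (m * m + 2 * p)` containing the pattern `(i, j) ~ (j, i)`. -/
theorem exists_matching (m p : ℕ) (hm : Even m) :
    ∃ M : SimpleGraph (Fin (m * m + 2 * p)), (∀ v, ∃! w, M.Adj v w) ∧
      ∃ emb : Fin m → Fin m → Fin (m * m + 2 * p), (∀ i, StrictMono (emb i)) ∧
        (∀ i i' j j', i < i' → emb i j < emb i' j') ∧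
        ∀ i j, i ≠ j → M.Adj (emb i j) (emb j i) := by
  let e : (Fin m × Fin m) ⊕ Fin (2 * p) ≃ Fin (m * m + 2 * p) :=
    (Equiv.sumCongr finProdFinEquiv (Equiv.refl _)).trans finSumFinEquiv
  let τ : (Fin m × Fin m) ⊕ Fin (2 * p) → (Fin m × Fin m) ⊕ Fin (2 * p) := fun s =>
    match s with
    | Sum.inl (i, j) => if i = j then Sum.inl (i.rev, j.rev) else Sum.inl (j, i)
    | Sum.inr u => Sum.inr u.rev
  have hτ : ∀ s, τ (τ s) = s := by
    rintro (⟨i, j⟩ | u)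
    · by_cases h : i = j
      · subst h; simp [τ]
      · simp [τ, h, Ne.symm h]
    · simp [τ]
  have hτ' : ∀ s, τ s ≠ s := by
    rintro (⟨i, j⟩ | u)
    · by_cases h : i = j
      · subst h
        simp only [τ, if_true, ne_eq, Sum.inl.injEq, Prod.mk.injEq, and_self]
        intro h
        have := congrArg Fin.val h
        rw [Fin.val_rev] at this
        obtain ⟨a, ha⟩ := hm
        have := i.2
        omega
      · simp only [τ, if_neg h, ne_eq, Sum.inl.injEq, Prod.mk.injEq]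
        intro h'
        exact h h'.2
    · simp only [τ, ne_eq, Sum.inr.injEq]
      intro h
      have := congrArg Fin.val h
      rw [Fin.val_rev] at this
      have := u.2
      omega
  let M : SimpleGraph (Fin (m * m + 2 * p)) :=
    { Adj := fun v w => τ (e.symm v) = e.symm w
      symm := ⟨fun v w h => by rw [← h, hτ]⟩
      loopless := ⟨fun v h => hτ' _ h⟩ }
  have hval : ∀ i j : Fin m, (e (Sum.inl (i, j)) : ℕ) = j + m * i := by
    intro i j
    simp [e]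
  refine ⟨M, ?_, fun i j => e (Sum.inl (i, j)), ?_, ?_, ?_⟩
  · intro v
    refine ⟨e (τ (e.symm v)), by simp [M], ?_⟩
    intro w hw
    simp only [M] at hw
    rw [hw]; simp
  · intro i j j' h
    rw [Fin.lt_def, hval, hval]
    have : (j : ℕ) < j' := h
    omega
  · intro i i' j j' h
    rw [Fin.lt_def, hval, hval]
    have h1 : (i : ℕ) + 1 ≤ i' := h
    have h2 := j.2
    have h3 : m * ((i : ℕ) + 1) ≤ m * i' := Nat.mul_le_mul_left _ h1
    rw [mul_add, mul_one] at h3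
    omega
  · intro i j h
    simp [M, τ, h]

theorem count_aux {r e C X : ℕ} (hr : 1 ≤ r) (hC : r * e ≤ C) (hX : X < 2 ^ e) :
    X * r ^ C < (r + 1) ^ C := by
  obtain ⟨g, rfl⟩ := Nat.exists_eq_add_of_le hC
  have h1 : 2 * r ^ r ≤ (r + 1) ^ r := by
    have h := one_add_mul_le_pow (a := (1 / r : ℚ)) (by
      have : (0 : ℚ) ≤ 1 / r := by positivity
      linarith) r
    have hr' : (0 : ℚ) < r := by exact_mod_cast hr
    have h2 : (1 + 1 / r : ℚ) = (r + 1) / r := by field_simp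
    have h3 : (1 + r * (1 / r) : ℚ) = 2 := by field_simp; norm_num
    rw [h2, h3, div_pow, le_div_iff₀ (by positivity)] at h
    exact_mod_cast h
  have h2 : r ^ g ≤ (r + 1) ^ g := Nat.pow_le_pow_left (Nat.le_succ r) g
  have h3 : (2 * r ^ r) ^ e ≤ ((r + 1) ^ r) ^ e := Nat.pow_le_pow_left h1 e
  have h4 : 0 < r ^ (r * e + g) := by positivity
  calc X * r ^ (r * e + g) < 2 ^ e * r ^ (r * e + g) := Nat.mul_lt_mul_of_pos_right hX h4
    _ = (2 * r ^ r) ^ e * r ^ g := by rw [mul_pow, ← pow_mul, pow_add, mul_assoc]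
    _ ≤ ((r + 1) ^ r) ^ e * (r + 1) ^ g := Nat.mul_le_mul h3 h2
    _ = (r + 1) ^ (r * e + g) := by rw [← pow_mul, ← pow_add]

theorem count_param {r E : ℕ} (hr : 1 ≤ r) (hE : 4 * r ≤ E) :
    (r + 1) * ((E ^ E) ^ (E ^ r)) ^ (E ^ (r + 3) + 1) * r ^ ((E ^ (r + 3) + 1).choose 2)
      < (r + 1) ^ ((E ^ (r + 3) + 1).choose 2) := by
  set b := E ^ (r + 3) with hb
  set u := E ^ (r + 2) with hu
  have hu1 : 1 ≤ u := Nat.one_le_pow _ _ (by omega)
  have hbu : b = u * E := by rw [hb, hu, pow_succ]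
  have hb1 : 2 * r * (u + 1) ≤ b := by rw [hbu]; nlinarith
  apply count_aux (e := (b + 1) * (u + 1)) hr
  · rw [Nat.choose_two_right, Nat.add_sub_cancel, Nat.le_div_iff_mul_le (by norm_num)]
    calc r * ((b + 1) * (u + 1)) * 2 = (b + 1) * (2 * r * (u + 1)) := by ring
      _ ≤ (b + 1) * b := Nat.mul_le_mul_left _ hb1
  · have h1 : (E ^ E) ^ (E ^ r) ≤ 2 ^ u := by
      have : E ≤ 2 ^ E := Nat.lt_two_pow_self.le
      calc (E ^ E) ^ (E ^ r) ≤ ((2 ^ E) ^ E) ^ (E ^ r) := by gcongr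
        _ = 2 ^ u := by
          rw [← pow_mul, ← pow_mul, hu]; congr 1; ring
    have h2 : r + 1 < 2 ^ (b + 1) := by
      have : b + 1 < 2 ^ (b + 1) := Nat.lt_two_pow_self
      nlinarith
    have h3 : ((E ^ E) ^ (E ^ r)) ^ (b + 1) ≤ (2 ^ u) ^ (b + 1) := Nat.pow_le_pow_left h1 _
    calc (r + 1) * ((E ^ E) ^ (E ^ r)) ^ (b + 1) ≤ (r + 1) * (2 ^ u) ^ (b + 1) :=
          Nat.mul_le_mul_left _ h3
      _ < 2 ^ (b + 1) * (2 ^ u) ^ (b + 1) := Nat.mul_lt_mul_of_pos_right h2 (by positivity)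
      _ = 2 ^ ((b + 1) * (u + 1)) := by
          rw [← pow_mul, ← pow_add]; congr 1; ring

/-- Parametric form of the lower bound. -/
theorem param (r E n : ℕ) (hr : 1 ≤ r) (hE : 4 * r ≤ E) (hn : Even n)
    (hnE : 4 * E ^ (2 * (r + 1) * (r + 2) * E) ≤ n) :
    ∃ M : SimpleGraph (Fin n), (∀ v, ∃! w, M.Adj v w) ∧
      ∀ N : ℕ, N ≤ E ^ (E ^ (r + 1)) →
        ∃ col : Fin N → Fin N → Fin (r + 1), ¬ ∃ f : Fin n → Fin N, StrictMono f ∧
          ∃ c : Fin (r + 1), ∀ a b : Fin n, a < b → M.Adj a b → col (f a) (f b) = c := by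
  set x := E ^ ((r + 1) * (r + 2) * E) with hx
  have hE1 : 1 ≤ E := by omega
  have hx1 : 1 ≤ x := Nat.one_le_pow _ _ hE1
  obtain ⟨l, hl⟩ : ∃ l, 2 * x = l + 2 := ⟨2 * x - 2, by omega⟩
  have hsq : 4 * E ^ (2 * (r + 1) * (r + 2) * E) = (l + 2) * (l + 2) := by
    rw [← hl, hx]
    have : 2 * (r + 1) * (r + 2) * E = (r + 1) * (r + 2) * E + (r + 1) * (r + 2) * E := by ring
    rw [this, pow_add]; ring
  have hev : Even (l + 2) := by rw [← hl]; exact even_two_mul _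
  obtain ⟨p, rfl⟩ : ∃ p, n = (l + 2) * (l + 2) + 2 * p := by
    rw [hsq] at hnE
    obtain ⟨d, rfl⟩ := Nat.exists_eq_add_of_le hnE
    have hd : Even d := (Nat.even_add.1 hn).1 (hev.mul_right _)
    obtain ⟨p, rfl⟩ := hd
    exact ⟨p, by ring⟩
  obtain ⟨M, hM, emb, he1, he2, he3⟩ := exists_matching (l + 2) p hev
  have ht : 2 ≤ E ^ E := by
    calc 2 ≤ E ^ 1 := by rw [pow_one]; omega
      _ ≤ E ^ E := Nat.pow_le_pow_right hE1 hE1
  obtain ⟨col, hcol⟩ := core r (E ^ E) E (E ^ (r + 3)) l (E ^ r) ht hE1 le_rfl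
    (count_param hr hE) (by
      rw [← hl, ← pow_mul, ← pow_add, ← pow_add]
      have : E ^ (r + (E + (r + 3) * (E * r))) ≤ x := by
        apply Nat.pow_le_pow_right hE1
        nlinarith
      omega)
  refine ⟨M, hM, fun N hN => ⟨fun a b => col a b, ?_⟩⟩
  rintro ⟨f, hf, c, hc⟩
  refine hcol (fun i j => f (emb i j)) ?_ ?_ ?_ c ?_
  · intro i j
    rw [← pow_mul, ← pow_succ']
    exact lt_of_lt_of_le (f _).2 hN
  · intro i j j' h
    exact hf (he1 i h)
  · intro i i' j j' h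
    exact hf (he2 i i' j j' h)
  · intro i j h
    exact hc _ _ (he2 i j j i h) (he3 i j h.ne)

end Pool.Agent.P.MP_cf6cc5_co
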