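import Mathlib
import Pool.Agent.P.MP_cf6cc5_co.Param

set_option autoImplicit false

namespace Pool.Agent.P.MP_cf6cc5_co

open Finset

theorem rpow_bound {A E r n : ℕ} (hA : 1 ≤ A) (hE : 4 ≤ E) (h1 : 4 * E ^ (A * E) ≤ n)
    (h2 : n < 4 * (E + 1) ^ (A * (E + 1))) :
    (n : ℝ) ^ ((1 / (5 * A : ℝ) ^ (r + 1)) * (Real.log n / Real.log (Real.log n)) ^ r)
      ≤ ((E ^ (E ^ (r + 1)) : ℕ) : ℝ) := by
  have hE' : (4 : ℝ) ≤ E := by exact_mod_cast hE
  have hA' : (1 : ℝ) ≤ A := by exact_mod_cast hA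
  have hEpos : (0 : ℝ) < E := by linarith
  set L := Real.log E with hL
  have hlog4 : Real.log 4 ≤ L := Real.log_le_log (by norm_num) hE'
  have hL1 : 1 ≤ L := by
    have : Real.exp 1 ≤ 4 := by
      have := Real.exp_one_lt_d9
      linarith
    have h3 : 1 ≤ Real.log 4 := by
      rw [Real.le_log_iff_exp_le (by norm_num)]; exact this
    linarith
  have hpow : 0 < E ^ (A * E) := by positivity
  have hn0 : 0 < n := by omega
  have hnpos : (0 : ℝ) < n := by exact_mod_cast hn0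
  set x := Real.log n with hx
  have hxlow : A * E * L ≤ x := by
    have h3 : ((E ^ (A * E) : ℕ) : ℝ) ≤ n := by exact_mod_cast (by omega : E ^ (A * E) ≤ n)
    have h4 := Real.log_le_log (by exact_mod_cast hpow) h3
    rw [Nat.cast_pow, Real.log_pow] at h4
    push_cast at h4
    exact h4
  have hAE : (E : ℝ) ≤ A * E := by nlinarith
  have hAEL : (A : ℝ) * E ≤ A * E * L := by nlinarith
  have hxE : (E : ℝ) ≤ x := by linarith
  have hxup : x ≤ 5 * A * E * L := by
    have h3 : (n : ℝ) ≤ 4 * ((E : ℝ) + 1) ^ (A * (E + 1)) := by exact_mod_cast h2.le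
    have h4 := Real.log_le_log hnpos h3
    rw [Real.log_mul (by norm_num) (by positivity), Real.log_pow] at h4
    push_cast at h4
    have h5 : Real.log ((E : ℝ) + 1) ≤ 2 * L := by
      have : (E : ℝ) + 1 ≤ E ^ 2 := by nlinarith
      have h6 := Real.log_le_log (by positivity) this
      rw [Real.log_pow] at h6
      exact_mod_cast h6
    have h7 : (A : ℝ) * (E + 1) * Real.log ((E : ℝ) + 1) ≤ A * (2 * E) * (2 * L) := by
      have : 0 ≤ Real.log ((E : ℝ) + 1) := Real.log_nonneg (by linarith)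
      gcongr
      linarith
    have h8 : L ≤ A * E * L := by nlinarith
    linarith
  have hlogx : L ≤ Real.log x := Real.log_le_log hEpos hxE
  have hxpos : 0 < x := by linarith
  have hratio : x / Real.log x ≤ 5 * A * E := by
    rw [div_le_iff₀ (by linarith)]
    have : 5 * A * E * L ≤ 5 * A * E * Real.log x := by gcongr
    linarith
  have hratio0 : 0 ≤ x / Real.log x := div_nonneg hxpos.le (by linarith)
  rw [Real.rpow_def_of_pos hnpos, ← hx]
  have hrhs : ((E ^ (E ^ (r + 1)) : ℕ) : ℝ) = Real.exp ((E : ℝ) ^ (r + 1) * L) := by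
    rw [hL, mul_comm, Real.exp_mul, Real.exp_log hEpos, ← Nat.cast_pow, Real.rpow_natCast]
    push_cast
    rfl
  rw [hrhs, Real.exp_le_exp]
  have hc : (0 : ℝ) < (5 * A : ℝ) ^ (r + 1) := by positivity
  calc x * (1 / (5 * A : ℝ) ^ (r + 1) * (x / Real.log x) ^ r)
      ≤ (5 * A * E * L) * (1 / (5 * A : ℝ) ^ (r + 1) * (5 * A * E) ^ r) := by gcongr
    _ = (E : ℝ) ^ (r + 1) * L := by
      rw [mul_pow (5 * (A : ℝ)) E r]
      field_simp
      ring

/-- The lower bound `r(M; r + 1) > n ^ (c * (log n / log log n) ^ r)` for all large even `n`. -/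
theorem asym (r : ℕ) (hr : 1 ≤ r) :
    ∃ c : ℝ, 0 < c ∧ ∃ n₀ : ℕ, ∀ n : ℕ, n₀ ≤ n → Even n →
      ∃ M : SimpleGraph (Fin n), (∀ v, ∃! w, M.Adj v w) ∧
        ∀ N : ℕ, (N : ℝ) ≤ (n : ℝ) ^ (c * (Real.log n / Real.log (Real.log n)) ^ r) →
          ∃ col : Fin N → Fin N → Fin (r + 1), ¬ ∃ f : Fin n → Fin N, StrictMono f ∧
            ∃ i : Fin (r + 1), ∀ a b : Fin n, a < b → M.Adj a b → col (f a) (f b) = i := by
  classical
  set A := 2 * (r + 1) * (r + 2) with hA
  have hA1 : 1 ≤ A := by rw [hA]; nlinarith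
  have hA' : (0 : ℝ) < A := by exact_mod_cast hA1
  refine ⟨1 / (5 * A : ℝ) ^ (r + 1), by positivity, 4 * (4 * r) ^ (A * (4 * r)), ?_⟩
  intro n hn hev
  have hex : ∃ e, n < 4 * (4 * r + e + 1) ^ (A * (4 * r + e + 1)) := by
    refine ⟨n, ?_⟩
    have h1 : (4 * r + n + 1) ^ 1 ≤ (4 * r + n + 1) ^ (A * (4 * r + n + 1)) :=
      Nat.pow_le_pow_right (by omega) (Nat.mul_pos hA1 (by omega))
    rw [pow_one] at h1
    omega
  set e := Nat.find hex with he
  have h2 : n < 4 * (4 * r + e + 1) ^ (A * (4 * r + e + 1)) := Nat.find_spec hex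
  have h1 : 4 * (4 * r + e) ^ (A * (4 * r + e)) ≤ n := by
    rcases Nat.eq_zero_or_pos e with h0 | h0
    · rw [h0]; exact hn
    · have := Nat.find_min hex (show e - 1 < Nat.find hex by omega)
      have h3 : 4 * r + (e - 1) + 1 = 4 * r + e := by omega
      rw [h3] at this
      omega
  obtain ⟨M, hM, hcol⟩ := param r (4 * r + e) n hr (by omega) hev h1
  refine ⟨M, hM, fun N hN => hcol N ?_⟩
  have := hN.trans (rpow_bound (r := r) hA1 (by omega) h1 h2)
  exact_mod_cast this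

/-- For every `c`, eventually `n ^ (c' * log n) ≤ n ^ (c * (log n / log log n) ^ r)` when `2 ≤ r`. -/
theorem eventually_le {c : ℝ} (hc : 0 < c) (c' : ℝ) :
    ∃ n₁ : ℕ, ∀ n : ℕ, n₁ ≤ n →
      (n : ℝ) ^ (c' * Real.log n) ≤ (n : ℝ) ^ (c * (Real.log n / Real.log (Real.log n)) ^ 2) := by
  have hpos : 0 < c / (|c'| + 1) := by positivity
  have h1 := (Real.isLittleO_pow_log_id_atTop (n := 2)).bound hpos
  have ht : Filter.Tendsto (fun n : ℕ => Real.log n) Filter.atTop Filter.atTop :=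
    Real.tendsto_log_atTop.comp tendsto_natCast_atTop_atTop
  have h2 := ht.eventually (h1.and (Filter.eventually_gt_atTop 1))
  obtain ⟨n₁, hn₁⟩ := Filter.eventually_atTop.1 (h2.and (Filter.eventually_ge_atTop 1))
  refine ⟨n₁, fun n hn => ?_⟩
  obtain ⟨⟨h3, h4⟩, h5⟩ := hn₁ n hn
  set x := Real.log n with hx
  have hlx : 0 < Real.log x := Real.log_pos h4
  apply Real.rpow_le_rpow_of_exponent_le (by exact_mod_cast h5)
  rw [Real.norm_of_nonneg (by positivity), id, Real.norm_of_nonneg (by linarith),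
    div_mul_eq_mul_div, le_div_iff₀ (by positivity)] at h3
  rw [div_pow, mul_div_assoc', le_div_iff₀ (by positivity)]
  have h6 : c' ≤ |c'| + 1 := by have := le_abs_self c'; linarith
  calc c' * x * Real.log x ^ 2 ≤ (|c'| + 1) * x * Real.log x ^ 2 := by gcongr
    _ = x * (Real.log x ^ 2 * (|c'| + 1)) := by ring
    _ ≤ x * (c * x) := by gcongr
    _ = c * x ^ 2 := by ring

end Pool.Agent.P.MP_cf6cc5_co
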