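import Mathlib

set_option autoImplicit false

namespace Pool.Agent.P.MP_cf6cc5_co

open Finset

/-- Union bound for boxes over a finite key type. -/
theorem exists_avoid_fintype {K ι : Type*} [Fintype K] [DecidableEq K] (P : ℕ) (hP : 0 < P)
    (F : Finset ι) (A : ι → Finset K) (S : ι → Finset (Fin P))
    (h : ∑ i ∈ F, (((S i).card : ℝ) / P) ^ (A i).card < 1) :
    ∃ ζ : K → Fin P, ∀ i ∈ F, ∃ κ ∈ A i, ζ κ ∉ S i := by
  classical
  by_contra hcon
  push Not at hcon
  let bad : ι → Finset (K → Fin P) := fun i =>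
    Fintype.piFinset (fun κ => if κ ∈ A i then S i else univ)
  have hcover : (univ : Finset (K → Fin P)) ⊆ F.biUnion bad := by
    intro ζ _
    obtain ⟨i, hi, hζ⟩ := hcon ζ
    refine mem_biUnion.2 ⟨i, hi, ?_⟩
    simp only [bad, Fintype.mem_piFinset]
    intro κ
    split_ifs with hκ
    · exact hζ κ hκ
    · exact mem_univ _
  have hP' : (0 : ℝ) < P := by exact_mod_cast hP
  have hbad : ∀ i, ((bad i).card : ℝ) =
      (((S i).card : ℝ) / P) ^ (A i).card * (P : ℝ) ^ Fintype.card K := by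
    intro i
    simp only [bad, Fintype.card_piFinset]
    push_cast
    have : ∀ κ : K, (((if κ ∈ A i then S i else univ : Finset (Fin P)).card : ℕ) : ℝ)
        = (if κ ∈ A i then ((S i).card : ℝ) / P else 1) * P := by
      intro κ
      split_ifs
      · field_simp
      · simp
    simp only [this]
    rw [prod_mul_distrib, prod_const, card_univ, prod_ite_mem, univ_inter, prod_const]
  have h5 : (P : ℝ) ^ Fintype.card K ≤ ∑ i ∈ F, ((bad i).card : ℝ) := by
    have := (card_le_card hcover).trans card_biUnion_le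
    rw [card_univ, Fintype.card_fun, Fintype.card_fin] at this
    exact_mod_cast this
  simp only [hbad] at h5
  rw [← sum_mul] at h5
  have h7 : (0 : ℝ) < (P : ℝ) ^ Fintype.card K := by positivity
  nlinarith

/-- Union bound for boxes over an arbitrary key type. -/
theorem exists_avoid {K ι : Type*} [DecidableEq K] (P : ℕ) (hP : 0 < P)
    (F : Finset ι) (A : ι → Finset K) (S : ι → Finset (Fin P))
    (h : ∑ i ∈ F, (((S i).card : ℝ) / P) ^ (A i).card < 1) :
    ∃ ζ : K → Fin P, ∀ i ∈ F, ∃ κ ∈ A i, ζ κ ∉ S i := by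
  classical
  let Ω : Finset K := F.biUnion A
  obtain ⟨ζ, hζ⟩ := exists_avoid_fintype (K := Ω) P hP F (fun i => (A i).subtype (· ∈ Ω)) S
    (by
      refine lt_of_eq_of_lt (sum_congr rfl fun i hi => ?_) h
      rw [card_subtype, filter_true_of_mem]
      intro κ hκ
      exact mem_biUnion.2 ⟨i, hi, hκ⟩)
  refine ⟨fun κ => if hκ : κ ∈ Ω then ζ ⟨κ, hκ⟩ else ⟨0, hP⟩, ?_⟩
  intro i hi
  obtain ⟨κ, hκ, hκ'⟩ := hζ i hi
  refine ⟨κ.1, mem_subtype.1 hκ, ?_⟩
  simp only [dif_pos κ.2]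
  exact hκ'

open Classical in
/-- Increasing pairs of `A` in the relation `G`. -/
noncomputable def prs (G : ℕ → ℕ → Prop) (A : Finset ℕ) : Finset (ℕ × ℕ) :=
  (A ×ˢ A).filter (fun p => p.1 < p.2 ∧ G p.1 p.2)

theorem mem_prs {G : ℕ → ℕ → Prop} {A : Finset ℕ} {p : ℕ × ℕ} :
    p ∈ prs G A ↔ p.1 ∈ A ∧ p.2 ∈ A ∧ p.1 < p.2 ∧ G p.1 p.2 := by
  simp [prs, and_assoc]

/-- Number of increasing pairs of `A` in the relation `G`. -/
noncomputable def ec (G : ℕ → ℕ → Prop) (A : Finset ℕ) : ℕ := (prs G A).card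

/-- One level of sparse random labels. -/
theorem level (q P B Z lam m : ℕ) (hB : 0 < B) (hq : 0 < q) (hP : q ≤ P) (U : ℕ → ℕ → Prop)
    (hSP : ∀ z ≤ Z, ((z : ℝ) ^ 2 * (q / P)) ^ (lam * z + 1) ≤ 1 / 8 * (1 / B) ^ z)
    (hIP : ∀ y e : ℕ, m ≤ y → y ^ 2 ≤ 8 * e → q * (1 - 1 / P : ℝ) ^ e ≤ 1 / 8 * (1 / B) ^ y) :
    ∃ χ : ℕ → ℕ → ℕ,
      (∀ A ⊆ range B, A.card ≤ Z → ec (fun a b => χ a b < q) A ≤ lam * A.card) ∧
      ∀ c < q, ∀ Y ⊆ range B, m ≤ Y.card → Y.card ^ 2 ≤ 8 * ec U Y →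
        ∃ a ∈ Y, ∃ b ∈ Y, a < b ∧ U a b ∧ χ a b = c := by
  classical
  have hP0 : 0 < P := by omega
  have hP' : (0 : ℝ) < P := by exact_mod_cast hP0
  let F1 := (range B).powerset.sigma fun A : Finset ℕ =>
    if A.card ≤ Z then powersetCard (lam * A.card + 1) (A ×ˢ A) else ∅
  let F2 := (range B).powerset.sigma fun Y : Finset ℕ =>
    if m ≤ Y.card ∧ Y.card ^ 2 ≤ 8 * ec U Y then range q else ∅
  let A : (Σ _ : Finset ℕ, Finset (ℕ × ℕ)) ⊕ (Σ _ : Finset ℕ, ℕ) → Finset (ℕ × ℕ) :=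
    Sum.elim (fun i => i.2) fun i => prs U i.1
  let S : (Σ _ : Finset ℕ, Finset (ℕ × ℕ)) ⊕ (Σ _ : Finset ℕ, ℕ) → Finset (Fin P) :=
    Sum.elim (fun _ => univ.filter fun v => v.1 < q) fun i => univ.filter fun v => v.1 ≠ i.2
  have hS1 : ((univ.filter fun v : Fin P => v.1 < q).card : ℝ) ≤ q := by
    have : (univ.filter fun v : Fin P => v.1 < q).card ≤ (range q).card :=
      card_le_card_of_injOn (fun v => v.1) (fun v hv => by simpa using hv)
        fun _ _ _ _ e => Fin.ext e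
    rw [card_range] at this
    exact_mod_cast this
  have hS2 : ∀ c < q, ((univ.filter fun v : Fin P => v.1 ≠ c).card : ℝ) / P = 1 - 1 / P := by
    intro c hc
    have : (univ.filter fun v : Fin P => v.1 ≠ c) = univ.erase ⟨c, by omega⟩ := by
      ext v; simp [Fin.ext_iff]
    rw [this, card_erase_of_mem (mem_univ _), card_univ, Fintype.card_fin, Nat.cast_pred hP0]
    field_simp
  obtain ⟨ζ, hζ⟩ := exists_avoid P hP0 (F1.disjSum F2) A S (by
    rw [sum_disjSum, sum_sigma, sum_sigma, ← sum_add_distrib]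
    have hb : ∑ Y ∈ (range B).powerset, (1 / 4 : ℝ) * (1 / B) ^ Y.card < 1 := by
      have h1 := sum_pow_mul_eq_add_pow (1 / B : ℝ) 1 (range B)
      simp only [one_pow, mul_one, card_range] at h1
      rw [← mul_sum, h1]
      have h2 : (1 / B + 1 : ℝ) ^ B ≤ Real.exp (1 / B) ^ B :=
        pow_le_pow_left₀ (by positivity) (Real.add_one_le_exp _) _
      have hB' : (B : ℝ) ≠ 0 := by positivity
      rw [← Real.exp_nat_mul, mul_one_div_cancel hB'] at h2
      have := Real.exp_one_lt_d9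
      linarith
    refine lt_of_le_of_lt (sum_le_sum fun Y _ => ?_) hb
    have e1 : ∑ s ∈ (if Y.card ≤ Z then powersetCard (lam * Y.card + 1) (Y ×ˢ Y) else ∅),
        (((S (Sum.inl ⟨Y, s⟩)).card : ℝ) / P) ^ (A (Sum.inl ⟨Y, s⟩)).card
        ≤ 1 / 8 * (1 / B) ^ Y.card := by
      split_ifs with hY
      · refine le_trans ?_ (hSP _ hY)
        refine (sum_le_card_nsmul _ _ (((q : ℝ) / P) ^ (lam * Y.card + 1)) ?_).trans ?_
        · intro s hs
          simp only [A, S, Sum.elim_inl]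
          rw [(mem_powersetCard.1 hs).2]
          gcongr
        · rw [card_powersetCard, card_product, nsmul_eq_mul, mul_pow]
          gcongr
          have := Nat.choose_le_pow (Y.card * Y.card) (lam * Y.card + 1)
          rw [sq]
          exact_mod_cast this
      · rw [sum_empty]; positivity
    have e2 : ∑ s ∈ (if m ≤ Y.card ∧ Y.card ^ 2 ≤ 8 * ec U Y then range q else ∅),
        (((S (Sum.inr ⟨Y, s⟩)).card : ℝ) / P) ^ (A (Sum.inr ⟨Y, s⟩)).card
        ≤ 1 / 8 * (1 / B) ^ Y.card := by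
      split_ifs with hY
      · refine le_trans (le_of_eq ?_) (hIP _ _ hY.1 hY.2)
        rw [sum_congr rfl (g := fun _ => (1 - 1 / P : ℝ) ^ ec U Y), sum_const, card_range,
          nsmul_eq_mul]
        intro c hc
        simp only [A, S, Sum.elim_inr]
        rw [hS2 c (mem_range.1 hc)]
        rfl
      · rw [sum_empty]; positivity
    linarith)
  refine ⟨fun a b => ζ (a, b), ?_, ?_⟩
  · intro Y hY hZ
    by_contra hlt
    rw [not_le, ec] at hlt
    obtain ⟨s, hs1, hs2⟩ := exists_subset_card_eq (Nat.succ_le_of_lt hlt)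
    obtain ⟨κ, hκ, hκ'⟩ := hζ (Sum.inl ⟨Y, s⟩) (by
      rw [inl_mem_disjSum, mem_sigma]
      refine ⟨mem_powerset.2 hY, ?_⟩
      simp only [if_pos hZ]
      exact mem_powersetCard.2 ⟨fun p hp => mem_product.2
        ⟨(mem_prs.1 (hs1 hp)).1, (mem_prs.1 (hs1 hp)).2.1⟩, hs2⟩)
    have := (mem_prs.1 (hs1 hκ)).2.2.2
    exact hκ' (by simpa [S] using this)
  · intro c hc Y hY h1 h2
    obtain ⟨κ, hκ, hκ'⟩ := hζ (Sum.inr ⟨Y, c⟩) (by
      rw [inr_mem_disjSum, mem_sigma]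
      refine ⟨mem_powerset.2 hY, ?_⟩
      simp only [if_pos (And.intro h1 h2)]
      exact mem_range.2 hc)
    simp only [A, Sum.elim_inr, mem_prs] at hκ
    exact ⟨κ.1, hκ.1, κ.2, hκ.2.1, hκ.2.2.1, hκ.2.2.2, by simpa [S] using hκ'⟩

end Pool.Agent.P.MP_cf6cc5_co
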