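import Mathlib
import Pool.Agent.P.MP_cf6cc5_co.TBox

set_option autoImplicit false

namespace Pool.Agent.P.MP_cf6cc5_co

open Finset

open Classical in
/-- Pairs of `T` whose images are increasing and related. -/
noncomputable def prm (π : ℕ → ℕ) (G : ℕ → ℕ → Prop) (T : Finset ℕ) : Finset (ℕ × ℕ) :=
  (T ×ˢ T).filter (fun p => π p.1 < π p.2 ∧ G (π p.1) (π p.2))

theorem mem_prm {π : ℕ → ℕ} {G : ℕ → ℕ → Prop} {T : Finset ℕ} {p : ℕ × ℕ} :
    p ∈ prm π G T ↔ p.1 ∈ T ∧ p.2 ∈ T ∧ π p.1 < π p.2 ∧ G (π p.1) (π p.2) := by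
  simp [prm, and_assoc]

/-- Weighted count of related pairs in a locally sparse relation. -/
theorem weighted (π : ℕ → ℕ) (G : ℕ → ℕ → Prop) (T : Finset ℕ) (lam β : ℕ)
    (hS : ∀ A ⊆ T.image π, ec G A ≤ lam * A.card)
    (hβ : ∀ u, (T.filter (fun x => π x = u)).card ≤ β) :
    (prm π G T).card ≤ β * (lam * T.card) := by
  classical
  set α : ℕ → ℕ := fun u => (T.filter (fun x => π x = u)).card with hα
  set A := T.image π with hA
  have h1 : (prm π G T).card ≤ ∑ e ∈ prs G A, α e.1 * α e.2 := by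
    have : prm π G T ⊆ (prs G A).biUnion fun e =>
        T.filter (fun x => π x = e.1) ×ˢ T.filter (fun x => π x = e.2) := by
      intro p hp
      obtain ⟨a, b, c, d⟩ := mem_prm.1 hp
      refine mem_biUnion.2 ⟨(π p.1, π p.2),
        mem_prs.2 ⟨mem_image_of_mem _ a, mem_image_of_mem _ b, c, d⟩, ?_⟩
      simp [a, b]
    refine (card_le_card this).trans (card_biUnion_le.trans (le_of_eq ?_))
    exact sum_congr rfl fun e _ => card_product _ _
  have h2 : ∀ e : ℕ × ℕ, α e.1 * α e.2 ≤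
      β * ∑ i ∈ range β, if i < α e.1 ∧ i < α e.2 then 1 else 0 := by
    intro e
    have h3 : ∑ i ∈ range β, (if i < α e.1 ∧ i < α e.2 then 1 else 0) = min (α e.1) (α e.2) := by
      rw [sum_boole, Nat.cast_id, ← card_range (min (α e.1) (α e.2))]
      congr 1
      ext i
      have := hβ e.1
      simp only [mem_filter, mem_range, lt_min_iff]
      constructor
      · exact fun h => h.2
      · exact fun h => ⟨lt_of_lt_of_le h.1 this, h⟩
    rw [h3]
    rcases le_total (α e.1) (α e.2) with h | h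
    · rw [min_eq_left h, mul_comm]; exact Nat.mul_le_mul_right _ (hβ _)
    · rw [min_eq_right h]; exact Nat.mul_le_mul_right _ (hβ _)
  have h4 : ∀ i, ∑ e ∈ prs G A, (if i < α e.1 ∧ i < α e.2 then 1 else 0) ≤
      lam * ∑ u ∈ A, if i < α u then 1 else 0 := by
    intro i
    rw [sum_boole, sum_boole, Nat.cast_id, Nat.cast_id]
    refine le_trans (card_le_card ?_) (hS _ (filter_subset _ _))
    intro e he
    obtain ⟨he1, he2⟩ := mem_filter.1 he
    obtain ⟨a, b, c, d⟩ := mem_prs.1 he1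
    exact mem_prs.2 ⟨mem_filter.2 ⟨a, he2.1⟩, mem_filter.2 ⟨b, he2.2⟩, c, d⟩
  have h5 : ∑ i ∈ range β, ∑ u ∈ A, (if i < α u then 1 else 0) ≤ T.card := by
    rw [sum_comm, card_eq_sum_card_image π T]
    refine sum_le_sum fun u _ => ?_
    rw [sum_boole, Nat.cast_id]
    refine le_trans (card_le_card (t := range (α u)) fun i hi => ?_) (card_range _).le
    exact mem_range.2 (mem_filter.1 hi).2
  calc _ ≤ ∑ e ∈ prs G A, β * ∑ i ∈ range β, if i < α e.1 ∧ i < α e.2 then 1 else 0 :=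
        h1.trans (sum_le_sum fun e _ => h2 e)
    _ = β * ∑ i ∈ range β, ∑ e ∈ prs G A, if i < α e.1 ∧ i < α e.2 then 1 else 0 := by
        rw [← mul_sum, sum_comm]
    _ ≤ β * ∑ i ∈ range β, lam * ∑ u ∈ A, if i < α u then 1 else 0 :=
        Nat.mul_le_mul_left _ (sum_le_sum fun i _ => h4 i)
    _ ≤ _ := by
        rw [← mul_sum]
        exact Nat.mul_le_mul_left _ (Nat.mul_le_mul_left _ h5)

/-- Rank of `x` in `Y`. -/
def rk (Y : Finset ℕ) (x : ℕ) : ℕ := (Y.filter (· < x)).card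

theorem rk_lt {Y : Finset ℕ} {x y : ℕ} (hx : x ∈ Y) (h : x < y) : rk Y x < rk Y y := by
  refine card_lt_card ⟨fun z hz => ?_, fun hh => ?_⟩
  · rw [mem_filter] at hz ⊢
    exact ⟨hz.1, hz.2.trans h⟩
  · have := hh (mem_filter.2 ⟨hx, h⟩)
    simp at this

theorem class_card (Y : Finset ℕ) (g s : ℕ) (π : ℕ → ℕ) (hπ : Monotone π) (u : ℕ) :
    ((Y.filter (fun x => rk Y x % g = s)).filter (fun x => π x = u)).card ≤
      (Y.filter (fun x => π x = u)).card / g + 1 := by
  set J := (Y.filter (fun x => rk Y x % g = s)).filter (fun x => π x = u) with hJ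
  rcases J.eq_empty_or_nonempty with h | h
  · rw [h]; simp
  have hmem : ∀ x ∈ J, x ∈ Y ∧ rk Y x % g = s ∧ π x = u := by
    intro x hx
    simp only [hJ, mem_filter] at hx
    exact ⟨hx.1.1, hx.1.2, hx.2⟩
  obtain ⟨h01, h02, h03⟩ := hmem _ (J.min'_mem h)
  set x0 := J.min' h with hx0
  have hle : ∀ x ∈ J, rk Y x0 ≤ rk Y x := by
    intro x hx
    rcases (J.min'_le x hx).lt_or_eq with h1 | h1
    · exact (rk_lt h01 h1).le
    · rw [← h1]
  have hdvd : ∀ x ∈ J, g ∣ rk Y x - rk Y x0 := fun x hx =>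
    (Nat.modEq_iff_dvd' (hle x hx)).1 (h02.trans (hmem x hx).2.1.symm)
  rw [← card_range (_ + 1)]
  refine card_le_card_of_injOn (fun x => (rk Y x - rk Y x0) / g) ?_ ?_
  · intro x hx
    have hx' : x ∈ J := hx
    simp only [coe_range, Set.mem_Iio]
    refine Nat.lt_succ_of_le (Nat.div_le_div_right ?_)
    have : Y.filter (· < x) ⊆ Y.filter (· < x0) ∪ Y.filter (fun x => π x = u) := by
      intro z hz
      rw [mem_filter] at hz
      rw [mem_union, mem_filter, mem_filter]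
      by_cases hz0 : z < x0
      · exact Or.inl ⟨hz.1, hz0⟩
      · refine Or.inr ⟨hz.1, le_antisymm ?_ ?_⟩
        · rw [← (hmem x hx').2.2]; exact hπ hz.2.le
        · rw [← h03]; exact hπ (not_lt.1 hz0)
    have := (card_le_card this).trans (card_union_le _ _)
    simp only [rk]
    omega
  · intro x hx y hy e
    have hx' : x ∈ J := hx
    have hy' : y ∈ J := hy
    have e1 := Nat.div_mul_cancel (hdvd x hx')
    have e2 := Nat.div_mul_cancel (hdvd y hy')
    simp only at e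
    rw [e, e2] at e1
    have := hle x hx'
    have := hle y hy'
    rcases lt_trichotomy x y with hlt | heq | hgt
    · have := rk_lt (hmem x hx').1 hlt
      omega
    · exact heq
    · have := rk_lt (hmem y hy').1 hgt
      omega

theorem count_div (π : ℕ → ℕ) (hπ : Monotone π) (G : ℕ → ℕ → Prop) (B Z lam b g : ℕ)
    (hS : ∀ A ⊆ range B, A.card ≤ Z → ec G A ≤ lam * A.card) (Y : Finset ℕ)
    (hY : ∀ x ∈ Y, π x < B) (hb : ∀ u, (Y.filter (fun x => π x = u)).card ≤ b) (hg : 0 < g)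
    (hZ : 2 * (Y.card / g + 1) ≤ Z) :
    (prm π G Y).card ≤ 4 * lam * (b + g) * (Y.card + g) := by
  classical
  let C : ℕ → Finset ℕ := fun s => Y.filter (fun x => rk Y x % g = s)
  have hC : ∀ s, (C s).card ≤ Y.card / g + 1 := by
    intro s
    have := class_card Y g s (fun _ => 0) monotone_const 0
    simpa using this
  have hsub : prm π G Y ⊆ (range g ×ˢ range g).biUnion fun e => prm π G (C e.1 ∪ C e.2) := by
    intro p hp
    obtain ⟨a, b, c, d⟩ := mem_prm.1 hp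
    refine mem_biUnion.2 ⟨(rk Y p.1 % g, rk Y p.2 % g),
      mem_product.2 ⟨mem_range.2 (Nat.mod_lt _ hg), mem_range.2 (Nat.mod_lt _ hg)⟩, ?_⟩
    exact mem_prm.2 ⟨mem_union_left _ (mem_filter.2 ⟨a, rfl⟩),
      mem_union_right _ (mem_filter.2 ⟨b, rfl⟩), c, d⟩
  have hone : ∀ e : ℕ × ℕ, (prm π G (C e.1 ∪ C e.2)).card ≤
      2 * (b / g + 1) * (lam * (2 * (Y.card / g + 1))) := by
    intro e
    have hT : (C e.1 ∪ C e.2).card ≤ 2 * (Y.card / g + 1) := by
      have := card_union_le (C e.1) (C e.2)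
      have := hC e.1
      have := hC e.2
      omega
    refine (weighted π G _ lam (2 * (b / g + 1)) ?_ ?_).trans (by gcongr)
    · intro A hA
      refine hS A (fun u hu => ?_) ((card_le_card hA).trans (card_image_le.trans (hT.trans hZ)))
      obtain ⟨x, hx, rfl⟩ := mem_image.1 (hA hu)
      refine mem_range.2 (hY x ?_)
      rcases mem_union.1 hx with hx | hx <;> exact (mem_filter.1 hx).1
    · intro u
      rw [filter_union]
      have h1 := card_union_le ((C e.1).filter (fun x => π x = u)) ((C e.2).filter (fun x => π x = u))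
      have h2 := class_card Y g e.1 π hπ u
      have h3 := class_card Y g e.2 π hπ u
      have h4 : (Y.filter (fun x => π x = u)).card / g ≤ b / g := Nat.div_le_div_right (hb u)
      simp only [C] at h1 ⊢
      omega
  have h1 := (card_le_card hsub).trans (card_biUnion_le_card_mul _ _ _ fun e _ => hone e)
  rw [card_product, card_range] at h1
  have h2 : g * (b / g + 1) ≤ b + g := by
    have := Nat.mul_div_le b g
    rw [mul_add]; omega
  have h3 : g * (Y.card / g + 1) ≤ Y.card + g := by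
    have := Nat.mul_div_le Y.card g
    rw [mul_add]; omega
  calc _ ≤ _ := h1
    _ = 4 * lam * (g * (b / g + 1)) * (g * (Y.card / g + 1)) := by ring
    _ ≤ _ := by gcongr

theorem geo_sum (ρ : ℕ) : ∑ i ∈ range ρ, ((i : ℝ) + 1) / 64 ^ (i + 1) ≤ 1 / 31 := by
  have h1 : ∀ ρ : ℕ, ∑ i ∈ range ρ, ((i : ℝ) + 1) / 64 ^ (i + 1) ≤ 1 / 31 - 1 / 31 / 32 ^ ρ := by
    intro ρ
    induction ρ with
    | zero => simp
    | succ ρ ih =>
      rw [sum_range_succ]
      have h2 : ((ρ : ℝ) + 1) ≤ 2 ^ (ρ + 1) := by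
        have : ρ + 1 < 2 ^ (ρ + 1) := Nat.lt_two_pow_self
        exact_mod_cast this.le
      have h3 : ((ρ : ℝ) + 1) / 64 ^ (ρ + 1) ≤ 1 / 32 ^ (ρ + 1) := by
        rw [div_le_div_iff₀ (by positivity) (by positivity), one_mul,
          show (64 : ℝ) = 2 * 32 by norm_num, mul_pow]
        gcongr
      have h4 : (1 : ℝ) / 31 / 32 ^ ρ = 1 / 32 ^ (ρ + 1) + 1 / 31 / 32 ^ (ρ + 1) := by
        rw [pow_succ]; field_simp; norm_num
      linarith
  have : (0 : ℝ) ≤ 1 / 31 / 32 ^ ρ := by positivity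
  linarith [h1 ρ]

/-- A balanced set has many uncovered pairs with different first letters. -/
theorem many_uncovered (t ρ W Z : ℕ) (G : ℕ → ℕ → ℕ → Prop) (Cv : ℕ → ℕ → Prop) (ht : 0 < t)
    (hρ : ρ ≤ W) (hW : 1 ≤ W) (hZ : 400 * W ^ 2 ≤ Z)
    (hCv : ∀ a b, Cv a b → ∃ i < ρ, G i (a / t ^ (ρ - i)) (b / t ^ (ρ - i)))
    (hS : ∀ i < ρ, ∀ A ⊆ range (t ^ (i + 1)), A.card ≤ Z → ec (G i) A ≤ (i + 1) * A.card)
    (Y : Finset ℕ) (hY : Y ⊆ range (t ^ (ρ + 1))) (hYZ : Z ≤ Y.card)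
    (hbal : ∀ j ≤ ρ, ∀ u, (Y.filter (fun x => x / t ^ j = u)).card * 64 ^ (ρ + 1 - j) ≤ Y.card) :
    Y.card ^ 2 ≤ 8 * ec (fun a b => a / t ^ ρ ≠ b / t ^ ρ ∧ ¬ Cv a b) Y := by
  classical
  set y := Y.card with hy
  set g := 4 * y / Z + 1 with hg
  have hW2 : 1 ≤ W ^ 2 := Nat.one_le_pow _ _ hW
  have hZ0 : 0 < Z := by omega
  have hg1 : 4 * y < Z * g := Nat.lt_mul_div_succ _ hZ0
  have hg2 : Z * g ≤ 5 * y := by
    have := Nat.mul_div_le (4 * y) Z
    rw [hg, mul_add]; omega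
  have hg3 : 2 * (y / g + 1) ≤ Z := by
    have h1 := Nat.mul_div_le y g
    have h2 : 4 * (y / g) < Z := by
      by_contra hc
      have : Z * g ≤ 4 * (y / g) * g := Nat.mul_le_mul_right _ (not_lt.1 hc)
      nlinarith
    omega
  have hg4 : 80 * (W ^ 2 * g) ≤ y := by nlinarith
  let U := prs (fun a b => a / t ^ ρ ≠ b / t ^ ρ ∧ ¬ Cv a b) Y
  let Sm := (Y ×ˢ Y).filter (fun p => p.1 / t ^ ρ = p.2 / t ^ ρ)
  let Cw : ℕ → Finset (ℕ × ℕ) := fun i => prm (fun x => x / t ^ (ρ - i)) (G i) Y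
  have hsub : (Y ×ˢ Y).filter (fun p => p.1 < p.2) ⊆ U ∪ Sm ∪ (range ρ).biUnion Cw := by
    intro p hp
    rw [mem_filter, mem_product] at hp
    rw [mem_union, mem_union]
    by_cases h1 : p.1 / t ^ ρ = p.2 / t ^ ρ
    · exact Or.inl (Or.inr (mem_filter.2 ⟨mem_product.2 hp.1, h1⟩))
    by_cases h2 : Cv p.1 p.2
    · obtain ⟨i, hi, hG⟩ := hCv _ _ h2
      refine Or.inr (mem_biUnion.2 ⟨i, mem_range.2 hi, mem_prm.2 ⟨hp.1.1, hp.1.2, ?_, hG⟩⟩)
      refine lt_of_le_of_ne (Nat.div_le_div_right hp.2.le) fun e => h1 ?_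
      have : t ^ ρ = t ^ (ρ - i) * t ^ i := by rw [← pow_add]; congr 1; omega
      rw [this, ← Nat.div_div_eq_div_mul, ← Nat.div_div_eq_div_mul]
      exact congrArg (· / t ^ i) e
    · exact Or.inl (Or.inl (mem_prs.2 ⟨hp.1.1, hp.1.2, hp.2, h1, h2⟩))
  have hSm : Sm.card * 64 ≤ y * y := by
    have h1 : Sm ⊆ Y.biUnion fun a => {a} ×ˢ Y.filter (fun x => x / t ^ ρ = a / t ^ ρ) := by
      intro p hp
      simp only [Sm, mem_filter, mem_product] at hp
      exact mem_biUnion.2 ⟨p.1, hp.1.1, mem_product.2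
        ⟨mem_singleton_self _, mem_filter.2 ⟨hp.1.2, hp.2.symm⟩⟩⟩
    have h2 := (card_le_card h1).trans (card_biUnion_le_card_mul _ _ (y / 64) fun a _ => by
      rw [card_product, card_singleton, one_mul, Nat.le_div_iff_mul_le (by norm_num)]
      simpa using hbal ρ le_rfl (a / t ^ ρ))
    have h3 := Nat.div_mul_le_self y 64
    calc Sm.card * 64 ≤ y * (y / 64) * 64 := Nat.mul_le_mul_right _ h2
      _ = y * (y / 64 * 64) := by ring
      _ ≤ _ := Nat.mul_le_mul_left _ h3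
  have hCw : ∀ i ∈ range ρ, ((Cw i).card : ℝ) ≤
      4 * ((y : ℝ) + g) * (y * (((i : ℝ) + 1) / 64 ^ (i + 1)) + W * g) := by
    intro i hi
    rw [mem_range] at hi
    have h1 := count_div (fun x => x / t ^ (ρ - i)) (fun _ _ h => Nat.div_le_div_right h) (G i)
      (t ^ (i + 1)) Z (i + 1) (y / 64 ^ (i + 1)) g (hS i hi) Y (fun x hx => by
        rw [Nat.div_lt_iff_lt_mul (by positivity), ← pow_add]
        have := mem_range.1 (hY hx)
        rwa [show i + 1 + (ρ - i) = ρ + 1 by omega]) (fun u => by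
        rw [Nat.le_div_iff_mul_le (by positivity)]
        have := hbal (ρ - i) (by omega) u
        rwa [show ρ + 1 - (ρ - i) = i + 1 by omega] at this) (Nat.succ_pos _) hg3
    have h2 : ((Cw i).card : ℝ) ≤ 4 * ((i : ℝ) + 1) * ((y / 64 ^ (i + 1) : ℕ) + g) * (y + g) := by
      exact_mod_cast h1
    have h3 : ((y / 64 ^ (i + 1) : ℕ) : ℝ) ≤ y / 64 ^ (i + 1) := by
      have := Nat.cast_div_le (α := ℝ) (m := y) (n := 64 ^ (i + 1))
      simpa using this
    have h4 : (i : ℝ) + 1 ≤ W := by exact_mod_cast (by omega : i + 1 ≤ W)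
    calc _ ≤ 4 * ((i : ℝ) + 1) * (y / 64 ^ (i + 1) + g) * (y + g) := h2.trans (by gcongr)
      _ = 4 * ((y : ℝ) + g) * (y * (((i : ℝ) + 1) / 64 ^ (i + 1)) + (i + 1) * g) := by ring
      _ ≤ _ := by gcongr
  have hsum : (((range ρ).biUnion Cw).card : ℝ) ≤ 4 * ((y : ℝ) + g) * (y / 31 + W * (W * g)) := by
    have h1 : (((range ρ).biUnion Cw).card : ℝ) ≤ ∑ i ∈ range ρ, ((Cw i).card : ℝ) := by
      exact_mod_cast card_biUnion_le
    refine h1.trans ((sum_le_sum hCw).trans ?_)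
    rw [← mul_sum, sum_add_distrib, ← mul_sum, sum_const, card_range, nsmul_eq_mul]
    have h2 : (ρ : ℝ) ≤ W := by exact_mod_cast hρ
    have h3 := geo_sum ρ
    rw [div_eq_mul_one_div (y : ℝ)]
    gcongr
  have hall := (card_le_card hsub).trans ((card_union_le _ _).trans
    (Nat.add_le_add_right (card_union_le _ _) _))
  rw [card_product_filter_lt, ← hy] at hall
  have e1 : ((y.choose 2 : ℕ) : ℝ) ≤ U.card + Sm.card + ((range ρ).biUnion Cw).card := by
    exact_mod_cast hall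
  rw [Nat.cast_choose_two] at e1
  have e2 : (Sm.card : ℝ) * 64 ≤ y * y := by exact_mod_cast hSm
  have e3 : 80 * ((W : ℝ) ^ 2 * g) ≤ y := by exact_mod_cast hg4
  have e4 : (400 : ℝ) ≤ y := by exact_mod_cast (by omega : 400 ≤ y)
  have e5 : 80 * (g : ℝ) ≤ y := by exact_mod_cast (by nlinarith : 80 * g ≤ y)
  have e6 : 4 * ((y : ℝ) + g) * (y / 31 + W * (W * g)) ≤ 4 * (y + y / 80) * (y / 31 + y / 80) := by
    gcongr
    · linarith
    · nlinarith
  have e7 : (y : ℝ) ^ 2 ≤ 8 * U.card := by nlinarith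
  exact_mod_cast e7

end Pool.Agent.P.MP_cf6cc5_co
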