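import Mathlib
import Pool.Agent.P.MP_cf6cc5_co.TWt

set_option autoImplicit false

namespace Pool.Agent.P.MP_cf6cc5_co

open Finset

/-- Pairs with equal image under a map with small fibres. -/
theorem same_pairs (Y : Finset ℕ) (γ : ℕ → ℕ) (β : ℕ)
    (h : ∀ u, (Y.filter (fun x => γ x = u)).card ≤ β) :
    ((Y ×ˢ Y).filter (fun p => γ p.1 = γ p.2)).card ≤ Y.card * β := by
  have h1 : (Y ×ˢ Y).filter (fun p => γ p.1 = γ p.2) ⊆
      Y.biUnion fun a => {a} ×ˢ Y.filter (fun x => γ x = γ a) := by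
    intro p hp
    simp only [mem_filter, mem_product] at hp
    exact mem_biUnion.2 ⟨p.1, hp.1.1, mem_product.2
      ⟨mem_singleton_self _, mem_filter.2 ⟨hp.1.2, hp.2.symm⟩⟩⟩
  exact (card_le_card h1).trans (card_biUnion_le_card_mul _ _ β fun a _ => by
    rw [card_product, card_singleton, one_mul]
    exact h _)

/-- One level of sparse random labels, hitting pairs from different intervals. -/
theorem level2 (q P B Z lam m : ℕ) (hB : 0 < B) (hq : 0 < q) (hP : q ≤ P) (U : ℕ → ℕ → Prop)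
    (hSP : ∀ z ≤ Z, ((z : ℝ) ^ 2 * (q / P)) ^ (lam * z + 1) ≤ 1 / 8 * (1 / B) ^ z)
    (hIP : ∀ y e : ℕ, m ≤ y → y ^ 2 ≤ 16 * e →
      q * (1 - 1 / P : ℝ) ^ e ≤ 1 / 8 * (1 / (2 * B)) ^ y) :
    ∃ χ : ℕ → ℕ → ℕ,
      (∀ A ⊆ range B, A.card ≤ Z → ec (fun a b => χ a b < q) A ≤ lam * A.card) ∧
      ∀ c < q, ∀ Y ⊆ range B, m ≤ Y.card → Y.card ^ 2 ≤ 8 * ec U Y →
        ∀ γ : ℕ → ℕ, MonotoneOn γ Y → (∀ u, (Y.filter (fun x => γ x = u)).card * 16 ≤ Y.card) →
        ∃ a ∈ Y, ∃ b ∈ Y, a < b ∧ U a b ∧ γ a ≠ γ b ∧ χ a b = c := by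
  classical
  have hP0 : 0 < P := by omega
  have hP' : (0 : ℝ) < P := by exact_mod_cast hP0
  have hB' : (0 : ℝ) < B := by exact_mod_cast hB
  let V : Finset ℕ → ℕ → ℕ → Prop := fun T a b => U a b ∧ ∃ z ∈ T, a < z ∧ z ≤ b
  let F1 := (range B).powerset.sigma fun A : Finset ℕ =>
    if A.card ≤ Z then powersetCard (lam * A.card + 1) (A ×ˢ A) else ∅
  let F2 := (range B).powerset.sigma fun Y : Finset ℕ =>
    (Y.powerset.filter fun T => m ≤ Y.card ∧ Y.card ^ 2 ≤ 16 * ec (V T) Y) ×ˢ range q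
  let A : (Σ _ : Finset ℕ, Finset (ℕ × ℕ)) ⊕ (Σ _ : Finset ℕ, Finset ℕ × ℕ) → Finset (ℕ × ℕ) :=
    Sum.elim (fun i => i.2) fun i => prs (V i.2.1) i.1
  let S : (Σ _ : Finset ℕ, Finset (ℕ × ℕ)) ⊕ (Σ _ : Finset ℕ, Finset ℕ × ℕ) → Finset (Fin P) :=
    Sum.elim (fun _ => univ.filter fun v => v.1 < q) fun i => univ.filter fun v => v.1 ≠ i.2.2
  have hS1 : ((univ.filter fun v : Fin P => v.1 < q).card : ℝ) ≤ q := by
    have : (univ.filter fun v : Fin P => v.1 < q).card ≤ (range q).card :=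
      card_le_card_of_injOn (fun v => v.1) (fun v hv => by simpa using hv)
        fun _ _ _ _ e => Fin.ext e
    rw [card_range] at this
    exact_mod_cast this
  have hS2 : ∀ c < q, ((univ.filter fun v : Fin P => v.1 ≠ c).card : ℝ) / P = 1 - 1 / P := by
    intro c hc
    have : (univ.filter fun v : Fin P => v.1 ≠ c) = univ.erase ⟨c, by omega⟩ := by
      ext v; simp [Fin.ext_iff]
    rw [this, card_erase_of_mem (mem_univ _), card_univ, Fintype.card_fin, Nat.cast_pred hP0]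
    field_simp
  obtain ⟨ζ, hζ⟩ := exists_avoid P hP0 (F1.disjSum F2) A S (by
    rw [sum_disjSum, sum_sigma, sum_sigma, ← sum_add_distrib]
    have hb : ∑ Y ∈ (range B).powerset, (1 / 4 : ℝ) * (1 / B) ^ Y.card < 1 := by
      have h1 := sum_pow_mul_eq_add_pow (1 / B : ℝ) 1 (range B)
      simp only [one_pow, mul_one, card_range] at h1
      rw [← mul_sum, h1]
      have h2 : (1 / B + 1 : ℝ) ^ B ≤ Real.exp (1 / B) ^ B :=
        pow_le_pow_left₀ (by positivity) (Real.add_one_le_exp _) _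
      rw [← Real.exp_nat_mul, mul_one_div_cancel hB'.ne'] at h2
      have := Real.exp_one_lt_d9
      linarith
    refine lt_of_le_of_lt (sum_le_sum fun Y _ => ?_) hb
    have e1 : ∑ s ∈ (if Y.card ≤ Z then powersetCard (lam * Y.card + 1) (Y ×ˢ Y) else ∅),
        (((S (Sum.inl ⟨Y, s⟩)).card : ℝ) / P) ^ (A (Sum.inl ⟨Y, s⟩)).card
        ≤ 1 / 8 * (1 / B) ^ Y.card := by
      split_ifs with hY
      · refine le_trans ?_ (hSP _ hY)
        refine (sum_le_card_nsmul _ _ (((q : ℝ) / P) ^ (lam * Y.card + 1)) ?_).trans ?_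
        · intro s hs
          simp only [A, S, Sum.elim_inl]
          rw [(mem_powersetCard.1 hs).2]
          gcongr
        · rw [card_powersetCard, card_product, nsmul_eq_mul, mul_pow]
          gcongr
          have := Nat.choose_le_pow (Y.card * Y.card) (lam * Y.card + 1)
          rw [sq]
          exact_mod_cast this
      · rw [sum_empty]; positivity
    have e2 : ∑ s ∈ (Y.powerset.filter fun T => m ≤ Y.card ∧ Y.card ^ 2 ≤ 16 * ec (V T) Y) ×ˢ
          range q, (((S (Sum.inr ⟨Y, s⟩)).card : ℝ) / P) ^ (A (Sum.inr ⟨Y, s⟩)).card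
        ≤ 1 / 8 * (1 / B) ^ Y.card := by
      rw [sum_product]
      refine (sum_le_card_nsmul _ _ (1 / 8 * (1 / (2 * B) : ℝ) ^ Y.card) ?_).trans ?_
      · intro T hT
        obtain ⟨-, h1, h2⟩ := mem_filter.1 hT
        refine le_trans (le_of_eq ?_) (hIP _ _ h1 h2)
        rw [sum_congr rfl (g := fun _ => (1 - 1 / P : ℝ) ^ ec (V T) Y), sum_const, card_range,
          nsmul_eq_mul]
        intro c hc
        simp only [A, S, Sum.elim_inr]
        rw [hS2 c (mem_range.1 hc)]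
        rfl
      · rw [nsmul_eq_mul]
        have h3 : ((Y.powerset.filter fun T =>
            m ≤ Y.card ∧ Y.card ^ 2 ≤ 16 * ec (V T) Y).card : ℝ) ≤ 2 ^ Y.card := by
          have := card_filter_le Y.powerset
            fun T => m ≤ Y.card ∧ Y.card ^ 2 ≤ 16 * ec (V T) Y
          rw [card_powerset] at this
          exact_mod_cast this
        calc _ ≤ (2 : ℝ) ^ Y.card * (1 / 8 * (1 / (2 * B) : ℝ) ^ Y.card) := by gcongr
          _ = 1 / 8 * (2 * (1 / (2 * B) : ℝ)) ^ Y.card := by rw [mul_pow]; ring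
          _ = _ := by
            congr 2
            field_simp
    linarith)
  refine ⟨fun a b => ζ (a, b), ?_, ?_⟩
  · intro Y hY hZ
    by_contra hlt
    rw [not_le, ec] at hlt
    obtain ⟨s, hs1, hs2⟩ := exists_subset_card_eq (Nat.succ_le_of_lt hlt)
    obtain ⟨κ, hκ, hκ'⟩ := hζ (Sum.inl ⟨Y, s⟩) (by
      rw [inl_mem_disjSum, mem_sigma]
      refine ⟨mem_powerset.2 hY, ?_⟩
      simp only [if_pos hZ]
      exact mem_powersetCard.2 ⟨fun p hp => mem_product.2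
        ⟨(mem_prs.1 (hs1 hp)).1, (mem_prs.1 (hs1 hp)).2.1⟩, hs2⟩)
    have := (mem_prs.1 (hs1 hκ)).2.2.2
    exact hκ' (by simpa [S] using this)
  · intro c hc Y hY h1 h2 γ hγ hfib
    let T := Y.filter fun z => ∀ w ∈ Y, w < z → γ w ≠ γ z
    have hsub : prs U Y ⊆ prs (V T) Y ∪ (Y ×ˢ Y).filter (fun p => γ p.1 = γ p.2) := by
      intro p hp
      obtain ⟨p1, p2, p3, p4⟩ := mem_prs.1 hp
      by_cases he : γ p.1 = γ p.2
      · exact mem_union_right _ (mem_filter.2 ⟨mem_product.2 ⟨p1, p2⟩, he⟩)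
      refine mem_union_left _ (mem_prs.2 ⟨p1, p2, p3, p4, ?_⟩)
      obtain ⟨z, hz, hmin⟩ := exists_min_image (Y.filter fun w => γ w = γ p.2) id
        ⟨p.2, mem_filter.2 ⟨p2, rfl⟩⟩
      obtain ⟨hz1, hz2⟩ := mem_filter.1 hz
      refine ⟨z, mem_filter.2 ⟨hz1, fun w hw hwz e => ?_⟩, ?_, hmin _ (mem_filter.2 ⟨p2, rfl⟩)⟩
      · have := hmin w (mem_filter.2 ⟨hw, e.trans hz2⟩)
        simp only [id] at this
        omega
      · by_contra hle
        have h3 := hγ hz1 p1 (not_lt.1 hle)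
        have h4 := hγ p1 p2 p3.le
        omega
    have h3 := (card_le_card hsub).trans (card_union_le _ _)
    have h4 := same_pairs Y γ (Y.card / 16) fun u => by
      rw [Nat.le_div_iff_mul_le (by norm_num)]
      exact hfib u
    have h5 := Nat.div_mul_le_self Y.card 16
    have h6 : Y.card ^ 2 ≤ 16 * ec (V T) Y := by
      have h7 : Y.card * (Y.card / 16) * 16 ≤ Y.card ^ 2 := by
        rw [mul_assoc, sq]
        exact Nat.mul_le_mul_left _ h5
      simp only [ec] at h2 ⊢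
      omega
    obtain ⟨κ, hκ, hκ'⟩ := hζ (Sum.inr ⟨Y, T, c⟩) (by
      rw [inr_mem_disjSum, mem_sigma]
      exact ⟨mem_powerset.2 hY, mem_product.2
        ⟨mem_filter.2 ⟨mem_powerset.2 (filter_subset _ _), h1, h6⟩, mem_range.2 hc⟩⟩)
    simp only [A, Sum.elim_inr, mem_prs] at hκ
    obtain ⟨k1, k2, k3, k4, z, hz, k5, k6⟩ := hκ
    refine ⟨κ.1, k1, κ.2, k2, k3, k4, fun e => ?_, by simpa [S] using hκ'⟩
    obtain ⟨hz1, hz2⟩ := mem_filter.1 hz
    have h8 := hγ k1 hz1 k5.le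
    have h9 := hγ hz1 k2 k6
    exact hz2 _ k1 k5 (by omega)

/-- A balanced set has many uncovered pairs that split early. -/
theorem many_unc2 (t ρ k D p B Z β : ℕ) (G : ℕ → ℕ → ℕ → Prop) (Cv : ℕ → ℕ → Prop)
    (hρ : ρ ≤ k) (hk : 1 ≤ k) (hZ : 400 * k ^ 2 ≤ Z) (hD : D ≤ p)
    (hCv : ∀ a b, Cv a b → ∃ i < ρ, a / t ^ (ρ - i) / t ^ D ≠ b / t ^ (ρ - i) / t ^ D ∧
      G i (a / t ^ (ρ - i)) (b / t ^ (ρ - i)))
    (hS : ∀ i < ρ, ∀ A ⊆ range B, A.card ≤ Z → ec (G i) A ≤ k * A.card)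
    (Y : Finset ℕ) (hY : Y ⊆ range B) (hYZ : Z ≤ Y.card)
    (hc : ∀ x ∈ Y, ∀ y ∈ Y, x / t ^ (p + D) = y / t ^ (p + D))
    (hβ : ∀ u, (Y.filter (fun x => x / t ^ p = u)).card ≤ β) (hb : 100 * k ^ 2 * β ≤ Y.card) :
    Y.card ^ 2 ≤ 8 * ec (fun a b => a / t ^ D ≠ b / t ^ D ∧ ¬ Cv a b) Y := by
  classical
  have hdiv : ∀ {x y h h' : ℕ}, x / t ^ h = y / t ^ h → h ≤ h' → x / t ^ h' = y / t ^ h' := by
    intro x y h h' e hh
    obtain ⟨d, rfl⟩ := Nat.exists_eq_add_of_le hh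
    rw [pow_add, ← Nat.div_div_eq_div_mul, ← Nat.div_div_eq_div_mul, e]
  set y := Y.card with hy
  set g := 4 * y / Z + 1 with hg
  have hW2 : 1 ≤ k ^ 2 := Nat.one_le_pow _ _ hk
  have hZ0 : 0 < Z := by omega
  have hg1 : 4 * y < Z * g := Nat.lt_mul_div_succ _ hZ0
  have hg2 : Z * g ≤ 5 * y := by
    have := Nat.mul_div_le (4 * y) Z
    rw [hg, mul_add]; omega
  have hg3 : 2 * (y / g + 1) ≤ Z := by
    have h1 := Nat.mul_div_le y g
    have h2 : 4 * (y / g) < Z := by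
      by_contra hc
      have : Z * g ≤ 4 * (y / g) * g := Nat.mul_le_mul_right _ (not_lt.1 hc)
      nlinarith
    omega
  have hg4 : 80 * (k ^ 2 * g) ≤ y := by nlinarith
  let U := prs (fun a b => a / t ^ D ≠ b / t ^ D ∧ ¬ Cv a b) Y
  let Sm := (Y ×ˢ Y).filter (fun e => e.1 / t ^ p = e.2 / t ^ p)
  let J := (range ρ).filter (fun i => ρ - i ≤ p)
  let Cw : ℕ → Finset (ℕ × ℕ) := fun i => prm (fun x => x / t ^ (ρ - i)) (G i) Y
  have hsub : (Y ×ˢ Y).filter (fun e => e.1 < e.2) ⊆ U ∪ Sm ∪ J.biUnion Cw := by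
    intro e he
    rw [mem_filter, mem_product] at he
    rw [mem_union, mem_union]
    by_cases h1 : e.1 / t ^ D = e.2 / t ^ D
    · exact Or.inl (Or.inr (mem_filter.2 ⟨mem_product.2 he.1, hdiv h1 hD⟩))
    by_cases h2 : Cv e.1 e.2
    · obtain ⟨i, hi, hne, hG⟩ := hCv _ _ h2
      refine Or.inr (mem_biUnion.2 ⟨i, mem_filter.2 ⟨mem_range.2 hi, ?_⟩,
        mem_prm.2 ⟨he.1.1, he.1.2, ?_, hG⟩⟩)
      · by_contra hlt
        rw [Nat.div_div_eq_div_mul, Nat.div_div_eq_div_mul, ← pow_add] at hne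
        exact hne (hdiv (hc _ he.1.1 _ he.1.2) (by omega))
      · exact lt_of_le_of_ne (Nat.div_le_div_right he.2.le) fun e' => hne (by rw [e'])
    · exact Or.inl (Or.inl (mem_prs.2 ⟨he.1.1, he.1.2, he.2, h1, h2⟩))
  have hSm : Sm.card ≤ y * β := same_pairs Y (fun x => x / t ^ p) β hβ
  have hCw : ∀ i ∈ J, (Cw i).card ≤ 4 * k * (β + g) * (y + g) := by
    intro i hi
    obtain ⟨hi1, hi2⟩ := mem_filter.1 hi
    refine count_div (fun x => x / t ^ (ρ - i)) (fun _ _ h => Nat.div_le_div_right h) (G i)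
      B Z k β g (hS i (mem_range.1 hi1)) Y
      (fun x hx => lt_of_le_of_lt (Nat.div_le_self _ _) (mem_range.1 (hY hx))) (fun u => ?_)
      (Nat.succ_pos _) hg3
    rcases (Y.filter (fun x => x / t ^ (ρ - i) = u)).eq_empty_or_nonempty with h | ⟨a, ha⟩
    · rw [h]; simp
    refine le_trans (card_le_card fun x hx => ?_) (hβ (a / t ^ p))
    exact mem_filter.2 ⟨(mem_filter.1 hx).1,
      hdiv ((mem_filter.1 hx).2.trans (mem_filter.1 ha).2.symm) hi2⟩
  have hJ : J.card ≤ k := (card_filter_le _ _).trans (by rw [card_range]; exact hρ)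
  have hsum : (J.biUnion Cw).card ≤ k * (4 * k * (β + g) * (y + g)) :=
    (card_biUnion_le_card_mul _ _ _ hCw).trans (Nat.mul_le_mul_right _ hJ)
  have hall := (card_le_card hsub).trans ((card_union_le _ _).trans
    (Nat.add_le_add_right (card_union_le _ _) _))
  rw [card_product_filter_lt, ← hy] at hall
  have e1 : ((y.choose 2 : ℕ) : ℝ) ≤ U.card + Sm.card + (J.biUnion Cw).card := by
    exact_mod_cast hall
  rw [Nat.cast_choose_two] at e1
  have e2 : (Sm.card : ℝ) ≤ y * β := by exact_mod_cast hSm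
  have e3 : 80 * ((k : ℝ) ^ 2 * g) ≤ y := by exact_mod_cast hg4
  have e3' : 100 * (k : ℝ) ^ 2 * β ≤ y := by exact_mod_cast hb
  have e4 : (400 : ℝ) ≤ y := by exact_mod_cast (by omega : 400 ≤ y)
  have e5 : 80 * (g : ℝ) ≤ y := by exact_mod_cast (by nlinarith : 80 * g ≤ y)
  have e5' : 100 * (β : ℝ) ≤ y := by exact_mod_cast (by nlinarith : 100 * β ≤ y)
  have e6 : ((J.biUnion Cw).card : ℝ) ≤ 4 * (y / 100 + y / 80) * (y + y / 80) := by
    have e7 : ((J.biUnion Cw).card : ℝ) ≤ k * (4 * k * (β + g) * (y + g)) := by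
      exact_mod_cast hsum
    calc _ ≤ _ := e7
      _ = 4 * ((k : ℝ) ^ 2 * β + k ^ 2 * g) * (y + g) := by ring
      _ ≤ _ := by
        gcongr
        · linarith
        · linarith
        · linarith
  have e8 : (y : ℝ) * β ≤ y * (y / 100) := by
    gcongr
    linarith
  have e7 : (y : ℝ) ^ 2 ≤ 8 * U.card := by nlinarith
  exact_mod_cast e7

end Pool.Agent.P.MP_cf6cc5_co
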