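import Mathlib
import Pool.Agent.P.MP_cf6cc5_co.Tree
import Pool.Agent.P.MP_cf6cc5_co.TWt

set_option autoImplicit false

namespace Pool.Agent.P.MP_cf6cc5_co

open Finset

/-- Pairs of words covered by a label on a shorter pair of initial segments. -/
def Cov (t q : ℕ) (nx : ℕ → (ℕ → ℕ → Prop) → ℕ → ℕ → ℕ) : ℕ → ℕ → ℕ → Prop
  | 0 => fun _ _ => False
  | ρ + 1 => fun a b => Cov t q nx ρ (a / t) (b / t) ∨ nx ρ (Cov t q nx ρ) (a / t) (b / t) < q

theorem cov_elim {t q : ℕ} {nx : ℕ → (ℕ → ℕ → Prop) → ℕ → ℕ → ℕ} (ρ : ℕ) : ∀ a b,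
    Cov t q nx ρ a b → ∃ i < ρ, nx i (Cov t q nx i) (a / t ^ (ρ - i)) (b / t ^ (ρ - i)) < q := by
  induction ρ with
  | zero => intro a b h; exact h.elim
  | succ ρ ih =>
    intro a b h
    rcases h with h | h
    · obtain ⟨i, hi, h'⟩ := ih _ _ h
      refine ⟨i, by omega, ?_⟩
      rw [show ρ + 1 - i = (ρ - i) + 1 by omega, pow_succ', ← Nat.div_div_eq_div_mul,
        ← Nat.div_div_eq_div_mul]
      exact h'
    · exact ⟨ρ, by omega, by simpa using h⟩

theorem cov_intro {t q : ℕ} {nx : ℕ → (ℕ → ℕ → Prop) → ℕ → ℕ → ℕ} (i e : ℕ) : ∀ a b,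
    nx i (Cov t q nx i) (a / t ^ (e + 1)) (b / t ^ (e + 1)) < q → Cov t q nx (i + e + 1) a b := by
  induction e with
  | zero => intro a b h; exact Or.inr (by simpa using h)
  | succ e ih =>
    intro a b h
    refine Or.inl (ih _ _ ?_)
    rwa [Nat.div_div_eq_div_mul, Nat.div_div_eq_div_mul, ← pow_succ']

theorem mod_div_pow (t x j e : ℕ) : x % t ^ (j + e) / t ^ j = x / t ^ j % t ^ e := by
  rw [pow_add, Nat.mod_mul_right_div_self]

/-- A node maximising the potential. -/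
theorem potential (t W m : ℕ) (hm : 1 ≤ m) (X : Finset ℕ)
    (hX : ∀ x ∈ X, ∀ y ∈ X, x / t ^ W = y / t ^ W) (hc : m * 64 ^ W < X.card) :
    ∃ ρ < W, ∃ X' ⊆ X, m ≤ X'.card ∧ (∀ x ∈ X', ∀ y ∈ X', x / t ^ (ρ + 1) = y / t ^ (ρ + 1)) ∧
      ∀ j ≤ ρ, ∀ u, (X'.filter (fun x => x / t ^ j = u)).card * 64 ^ (ρ + 1 - j) ≤ X'.card := by
  have hne : X.Nonempty := card_pos.1 (by omega)
  obtain ⟨x1, hx1⟩ := hne
  obtain ⟨⟨d, x0⟩, hp, hmax⟩ := exists_max_image (range (W + 1) ×ˢ X)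
    (fun p => (X.filter (fun x => x / t ^ p.1 = p.2 / t ^ p.1)).card * 64 ^ (W - p.1))
    ⟨(W, x1), by simp [hx1]⟩
  simp only [mem_product, mem_range] at hp hmax
  set X' := X.filter (fun x => x / t ^ d = x0 / t ^ d) with hX'
  have h1 := hmax (W, x1) ⟨by simp, hx1⟩
  simp only [Nat.sub_self, pow_zero, mul_one] at h1
  rw [filter_true_of_mem fun x hx => hX x hx x1 hx1] at h1
  have h2 : m < X'.card := by
    have h3 : 64 ^ (W - d) ≤ 64 ^ W := Nat.pow_le_pow_right (by norm_num) (by omega)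
    have h4 : m * 64 ^ W < X'.card * 64 ^ W :=
      lt_of_lt_of_le hc (h1.trans (Nat.mul_le_mul_left _ h3))
    exact lt_of_mul_lt_mul_right h4 (Nat.zero_le _)
  have hd : d ≠ 0 := by
    rintro rfl
    have : X'.card ≤ 1 := by
      rw [card_le_one]
      intro a ha b hb
      simp only [hX', mem_filter, pow_zero, Nat.div_one] at ha hb
      omega
    omega
  obtain ⟨ρ, rfl⟩ := Nat.exists_eq_succ_of_ne_zero hd
  refine ⟨ρ, by omega, X', filter_subset _ _, h2.le, fun x hx y hy => ?_, fun j hj u => ?_⟩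
  · rw [(mem_filter.1 hx).2, (mem_filter.1 hy).2]
  · rcases (X'.filter (fun x => x / t ^ j = u)).eq_empty_or_nonempty with h | ⟨z, hz⟩
    · rw [h]; simp
    have hz' := mem_filter.1 hz
    have h3 := hmax (j, z) ⟨by simp only; omega, (mem_filter.1 hz'.1).1⟩
    have h4 : (X'.filter (fun x => x / t ^ j = u)).card ≤
        (X.filter (fun x => x / t ^ j = z / t ^ j)).card := by
      rw [hz'.2]
      exact card_le_card (filter_subset_filter _ (filter_subset _ _))
    simp only at h3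
    rw [show W - j = (ρ + 1 - j) + (W - (ρ + 1)) by omega, pow_add, ← mul_assoc] at h3
    exact (Nat.mul_le_mul_right _ h4).trans (Nat.le_of_mul_le_mul_right h3 (by positivity))

/-- The sparse stage: one forbidden colour for each pair of leaves. -/
theorem stage0 (t q P Z m W : ℕ) (ht : 0 < t) (hq : 0 < q) (hP : q ≤ P) (hW : 1 ≤ W)
    (hZ : 400 * W ^ 2 ≤ Z) (hm : Z ≤ m)
    (hSP : ∀ r, 1 ≤ r → ∀ z ≤ Z,
      ((z : ℝ) ^ 2 * (q / P)) ^ (r * z + 1) ≤ 1 / 8 * (1 / ((t ^ r : ℕ) : ℝ)) ^ z)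
    (hIP : ∀ r ≤ W, ∀ y e : ℕ, m ≤ y → y ^ 2 ≤ 8 * e →
      q * (1 - 1 / P : ℝ) ^ e ≤ 1 / 8 * (1 / ((t ^ r : ℕ) : ℝ)) ^ y) :
    ∃ Fb : ℕ → ℕ → ℕ → Prop, (∀ x y c c', Fb x y c → Fb x y c' → c = c') ∧
      (∀ h x y c, Fb (x / t ^ h) (y / t ^ h) c → Fb x y c) ∧
      ∀ c < q, ∀ X : Finset ℕ, (∀ x ∈ X, ∀ y ∈ X, x / t ^ W = y / t ^ W) → m * 64 ^ W < X.card →
        ∃ x ∈ X, ∃ y ∈ X, x < y ∧ Fb x y c := by
  have hlev := fun (ρ : ℕ) (C : ℕ → ℕ → Prop) (hρ : ρ < W) =>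
    level q P (t ^ (ρ + 1)) Z (ρ + 1) m (by positivity) hq hP
      (fun a b => a / t ^ ρ ≠ b / t ^ ρ ∧ ¬ C a b) (hSP _ (by omega)) (hIP _ (by omega))
  choose! nx hnx1 hnx2 using hlev
  refine ⟨fun x y c => c < q ∧ ∃ j ρ, x / t ^ (j + ρ + 1) = y / t ^ (j + ρ + 1) ∧
    x / t ^ (j + ρ) ≠ y / t ^ (j + ρ) ∧
    ¬ Cov t q nx ρ (x / t ^ j % t ^ (ρ + 1)) (y / t ^ j % t ^ (ρ + 1)) ∧
    nx ρ (Cov t q nx ρ) (x / t ^ j % t ^ (ρ + 1)) (y / t ^ j % t ^ (ρ + 1)) = c, ?_, ?_, ?_⟩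
  · have key : ∀ x y j ρ j' ρ', j < j' → j + ρ = j' + ρ' →
        ¬ Cov t q nx ρ (x / t ^ j % t ^ (ρ + 1)) (y / t ^ j % t ^ (ρ + 1)) →
        ¬ nx ρ' (Cov t q nx ρ') (x / t ^ j' % t ^ (ρ' + 1)) (y / t ^ j' % t ^ (ρ' + 1)) < q := by
      intro x y j ρ j' ρ' hj he hn hlt
      obtain ⟨e, rfl⟩ := Nat.exists_eq_add_of_lt hj
      obtain rfl : ρ = ρ' + e + 1 := by omega
      refine hn (cov_intro ρ' e _ _ ?_)
      rw [show ρ' + e + 1 + 1 = (e + 1) + (ρ' + 1) by ring, mod_div_pow, mod_div_pow,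
        Nat.div_div_eq_div_mul, Nat.div_div_eq_div_mul, ← pow_add, ← add_assoc]
      exact hlt
    rintro x y c c' ⟨hc, j, ρ, h1, h2, h3, h4⟩ ⟨hc', j', ρ', h1', h2', h3', h4'⟩
    have he : j + ρ = j' + ρ' := by
      by_contra hne
      rcases lt_or_gt_of_ne hne with h | h
      · exact h2' (div_pow_eq_of_le h1 (by omega))
      · exact h2 (div_pow_eq_of_le h1' (by omega))
    rcases lt_trichotomy j j' with h | h | h
    · exact absurd (h4' ▸ hc') (key x y j ρ j' ρ' h he h3)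
    · subst h
      obtain rfl : ρ = ρ' := by omega
      rw [← h4, ← h4']
    · exact absurd (h4 ▸ hc) (key x y j' ρ' j ρ h he.symm h3')
  · rintro h x y c ⟨hc, j, ρ, h1⟩
    refine ⟨hc, h + j, ρ, ?_⟩
    simp only [Nat.div_div_eq_div_mul, ← pow_add, ← add_assoc] at h1
    exact h1
  · intro c hc X hX hcard
    have hZ1 : 1 ≤ Z := by
      have : 1 ≤ W ^ 2 := Nat.one_le_pow _ _ hW
      omega
    obtain ⟨ρ, hρ, X', hX', h1, h2, h3⟩ := potential t W m (by omega) X hX hcard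
    have hfib : ∀ j ≤ ρ + 1, ∀ x ∈ X', ∀ y ∈ X',
        x % t ^ (ρ + 1) / t ^ j = y % t ^ (ρ + 1) / t ^ j → x / t ^ j = y / t ^ j := by
      intro j hj x hx y hy e
      obtain ⟨d, hd⟩ := Nat.exists_eq_add_of_le hj
      have e2 := h2 x hx y hy
      rw [hd, mod_div_pow, mod_div_pow] at e
      rw [hd, pow_add, ← Nat.div_div_eq_div_mul, ← Nat.div_div_eq_div_mul] at e2
      rw [← Nat.div_add_mod (x / t ^ j) (t ^ d), ← Nat.div_add_mod (y / t ^ j) (t ^ d), e, e2]
    have hinj : Set.InjOn (fun x => x % t ^ (ρ + 1)) X' := by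
      intro x hx y hy e
      simpa using hfib 0 (by omega) x hx y hy (by simpa using e)
    set Y := X'.image (fun x => x % t ^ (ρ + 1)) with hY
    have hYc : Y.card = X'.card := card_image_of_injOn hinj
    have hYr : Y ⊆ range (t ^ (ρ + 1)) := by
      intro a ha
      obtain ⟨x, -, rfl⟩ := mem_image.1 ha
      exact mem_range.2 (Nat.mod_lt _ (by positivity))
    have hmany := many_uncovered t ρ W Z (fun i a b => nx i (Cov t q nx i) a b < q)
      (Cov t q nx ρ) ht hρ.le hW hZ (cov_elim ρ) (fun i hi => hnx1 i _ (by omega)) Y hYr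
      (by omega) (by
        intro j hj u
        rcases (Y.filter (fun x => x / t ^ j = u)).eq_empty_or_nonempty with h | ⟨a, ha⟩
        · rw [h]; simp
        obtain ⟨z, hz, rfl⟩ := mem_image.1 (mem_filter.1 ha).1
        rw [hYc]
        refine le_trans (Nat.mul_le_mul_right _ ?_) (h3 j hj (z / t ^ j))
        refine le_trans (card_le_card ?_) (card_image_le (f := fun x => x % t ^ (ρ + 1)))
        intro b hb
        obtain ⟨x, hx, rfl⟩ := mem_image.1 (mem_filter.1 hb).1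
        exact mem_image_of_mem _ (mem_filter.2 ⟨hx, hfib j (by omega) x hx z hz
          ((mem_filter.1 hb).2.trans (mem_filter.1 ha).2.symm)⟩))
    obtain ⟨a, ha, b, hb, hab, ⟨h4, h5⟩, h6⟩ := hnx2 ρ _ hρ c hc Y hYr (by omega) hmany
    obtain ⟨x, hx, rfl⟩ := mem_image.1 ha
    obtain ⟨y, hy, rfl⟩ := mem_image.1 hb
    refine ⟨x, hX' hx, y, hX' hy, ?_, hc, 0, ρ, by simpa using h2 x hx y hy, ?_,
      by simpa using h5, by simpa using h6⟩
    · rw [← Nat.div_add_mod x (t ^ (ρ + 1)), ← Nat.div_add_mod y (t ^ (ρ + 1)), h2 x hx y hy]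
      omega
    · intro e
      rw [zero_add] at e
      exact h4 (by rw [mod_div_pow, mod_div_pow, e])

theorem anc_le_pow' {t k r E b h W B : ℕ} (ht : 2 ≤ t) (hh : 1 ≤ h)
    (hk : k ≤ W * E ^ r) {Y : Finset ℕ} (hY : Y ⊆ range (t ^ k))
    (H0 : anc t Y h ≤ B * anc t Y (h + W))
    (H : ∀ i < r, ∀ j, h + W * E ^ i ≤ j + 1 → anc t Y j ≤ b * anc t Y (j + W * E ^ i)) :
    anc t Y h ≤ B * b ^ (E * r) := by
  have step : ∀ i < r, ∀ p, h + W * E ^ i ≤ p + 1 → ∀ e : ℕ,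
      anc t Y p ≤ b ^ e * anc t Y (p + e * (W * E ^ i)) := by
    intro i hi p hp e
    induction e with
    | zero => simp
    | succ e ih =>
      have := H i hi (p + e * (W * E ^ i)) (by omega)
      calc anc t Y p ≤ b ^ e * anc t Y (p + e * (W * E ^ i)) := ih
        _ ≤ b ^ e * (b * anc t Y (p + e * (W * E ^ i) + W * E ^ i)) := Nat.mul_le_mul_left _ this
        _ = b ^ (e + 1) * anc t Y (p + (e + 1) * (W * E ^ i)) := by
          rw [pow_succ, mul_assoc, add_mul, one_mul, add_assoc]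
  have main : ∀ i ≤ r, ∃ p, h + W * E ^ i ≤ p + 1 ∧ anc t Y h ≤ B * b ^ (E * i) * anc t Y p := by
    intro i hi
    induction i with
    | zero => exact ⟨h + W, by simp, by simpa using H0⟩
    | succ i ih =>
      obtain ⟨p, hp1, hp2⟩ := ih (by omega)
      refine ⟨p + E * (W * E ^ i), ?_, ?_⟩
      · have : W * E ^ (i + 1) = E * (W * E ^ i) := by ring
        omega
      · calc anc t Y h ≤ B * b ^ (E * i) * anc t Y p := hp2
          _ ≤ B * b ^ (E * i) * (b ^ E * anc t Y (p + E * (W * E ^ i))) :=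
            Nat.mul_le_mul_left _ (step i (by omega) p hp1 E)
          _ = B * b ^ (E * (i + 1)) * anc t Y (p + E * (W * E ^ i)) := by ring
  obtain ⟨p, hp1, hp2⟩ := main r le_rfl
  have := anc_le_one ht hY (show k ≤ p by omega)
  calc anc t Y h ≤ B * b ^ (E * r) * anc t Y p := hp2
    _ ≤ B * b ^ (E * r) * 1 := Nat.mul_le_mul_left _ this
    _ = _ := mul_one _

/-- The core construction with the sparse stage. -/
theorem core2 (r t E W B b l k : ℕ) (ht : 2 ≤ t) (hE : 1 ≤ E) (hW : 1 ≤ W) (hk : k ≤ W * E ^ r)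
    (Fb : ℕ → ℕ → ℕ → Prop) (hF1 : ∀ x y c c', Fb x y c → Fb x y c' → c = c')
    (hF2 : ∀ h x y c, Fb (x / t ^ h) (y / t ^ h) c → Fb x y c)
    (hF3 : ∀ c < r + 2, ∀ X : Finset ℕ, (∀ x ∈ X, ∀ y ∈ X, x / t ^ W = y / t ^ W) → B < X.card →
        ∃ x ∈ X, ∃ y ∈ X, x < y ∧ Fb x y c)
    (hcount : (r + 1 + 1) * (t ^ k) ^ (b + 1) * (r + 1) ^ ((b + 1).choose 2) <
      (r + 1 + 1) ^ ((b + 1).choose 2))
    (hl : k * (t * (B * b ^ (E * r))) < l + 2) :
    ∃ col : ℕ → ℕ → Fin (r + 2), ∀ g : Fin (l + 2) → Fin (l + 2) → ℕ, (∀ i j, g i j < t ^ k) →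
      (∀ i, StrictMono (g i)) → (∀ i i' j j', i < i' → g i j < g i' j') →
      ∀ c : Fin (r + 2), ¬ ∀ i j, i < j → col (g i j) (g j i) = c := by
  classical
  have hζ := fun i : ℕ => exists_labelling (r + 1) b (t ^ k) (key t (W * E ^ i - 1)) hcount
  choose ζ hζ using hζ
  have hcol : ∀ x y : ℕ, ∃ c : Fin (r + 2), ¬ Fb x y c ∧
      ∀ i < r, ζ i (key t (W * E ^ i - 1) (x, y)) ≠ c := by
    intro x y
    have h0 : (univ.filter fun c : Fin (r + 2) => Fb x y c).card ≤ 1 := by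
      rw [card_le_one]
      intro a ha b hb
      exact Fin.ext (hF1 x y _ _ (mem_filter.1 ha).2 (mem_filter.1 hb).2)
    have h1 : ((univ.filter fun c : Fin (r + 2) => Fb x y c) ∪
        (range r).image (fun i => ζ i (key t (W * E ^ i - 1) (x, y)))).card
        < (univ : Finset (Fin (r + 2))).card := by
      have h2 : ((range r).image (fun i => ζ i (key t (W * E ^ i - 1) (x, y)))).card ≤ r :=
        card_image_le.trans (card_range r).le
      refine lt_of_le_of_lt (card_union_le _ _) ?_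
      rw [card_univ, Fintype.card_fin]
      omega
    obtain ⟨c, _, hc⟩ := exists_mem_notMem_of_card_lt_card h1
    refine ⟨c, fun e => hc (mem_union_left _ (mem_filter.2 ⟨mem_univ _, e⟩)), fun i hi e => hc ?_⟩
    exact mem_union_right _ (mem_image.2 ⟨i, mem_range.2 hi, e⟩)
  choose col hcol0 hcol using hcol
  refine ⟨col, ?_⟩
  intro g hgN hg1 hg2 c hc
  let a : Fin (l + 2) → ℕ := fun i => g i 0
  let z : Fin (l + 2) → ℕ := fun i => g i (Fin.last _)
  have haz : ∀ i, a i < z i := fun i => hg1 i (Fin.last_pos)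
  have hmaps : ∀ i ∈ (univ : Finset (Fin (l + 2))), sp t (a i) (z i) ∈ Icc 1 k := by
    intro i _
    rw [mem_Icc]
    constructor
    · by_contra hc
      have := (sp_le_iff ht (a i) (z i) 0).1 (by omega)
      simp only [pow_zero, Nat.div_one] at this
      exact absurd this (haz i).ne
    · rw [sp_le_iff ht, Nat.div_eq_of_lt (hgN _ _), Nat.div_eq_of_lt (hgN _ _)]
  obtain ⟨h, hh, hI⟩ := exists_lt_card_fiber_of_mul_lt_card_of_maps_to hmaps
    (n := t * (B * b ^ (E * r))) (by simpa using hl)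
  rw [mem_Icc] at hh
  set I := (univ : Finset (Fin (l + 2))).filter (fun i => sp t (a i) (z i) = h) with hIdef
  have hblock : ∀ i ∈ I, ∀ j, a i / t ^ h = g i j / t ^ h := by
    intro i hi j
    have e := (sp_le_iff ht (a i) (z i) h).1 (mem_filter.1 hi).2.le
    apply le_antisymm
    · exact Nat.div_le_div_right ((hg1 i).monotone (Fin.zero_le j))
    · rw [e]; exact Nat.div_le_div_right ((hg1 i).monotone (Fin.le_last j))
  have hamono : StrictMono a := fun i i' hii => hg2 i i' 0 0 hii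
  have hsep : ∀ i ∈ I, ∀ i', i < i' → a i / t ^ (h - 1) < a i' / t ^ (h - 1) := by
    intro i hi i' hii
    have e : a i / t ^ (h - 1) ≠ z i / t ^ (h - 1) := by
      intro e
      have := (sp_le_iff ht (a i) (z i) (h - 1)).2 e
      rw [(mem_filter.1 hi).2] at this
      omega
    have e1 : a i / t ^ (h - 1) ≤ z i / t ^ (h - 1) := Nat.div_le_div_right (haz i).le
    have e2 : z i / t ^ (h - 1) ≤ a i' / t ^ (h - 1) :=
      Nat.div_le_div_right (hg2 i i' _ _ hii).le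
    omega
  let Y : Finset ℕ := I.image a
  have hYN : Y ⊆ range (t ^ k) := by
    intro x hx
    obtain ⟨i, _, rfl⟩ := mem_image.1 hx
    exact mem_range.2 (hgN _ _)
  have hYcard : I.card = anc t Y (h - 1) := by
    rw [anc, image_image, card_image_of_injOn]
    intro i hi i' hi' e
    rcases lt_trichotomy i i' with hlt | heq | hgt
    · exact absurd e (hsep i hi i' hlt).ne
    · exact heq
    · exact absurd e (hsep i' hi' i hgt).ne'
  have h1 : anc t Y (h - 1) ≤ t * anc t Y h := by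
    have := anc_succ_le ht Y (h - 1)
    rwa [Nat.sub_add_cancel hh.1] at this
  have h2 : anc t Y h ≤ B * b ^ (E * r) := by
    apply anc_le_pow' ht hh.1 hk hYN
    · apply growth
      intro Z hZ hinj hconst
      by_contra hlt
      obtain ⟨x, hx, y, hy, hxy, hF⟩ := hF3 c c.2 (Z.image fun x => x / t ^ h) (by
        intro x hx y hy
        obtain ⟨x, hx', rfl⟩ := mem_image.1 hx
        obtain ⟨y, hy', rfl⟩ := mem_image.1 hy
        rw [Nat.div_div_eq_div_mul, Nat.div_div_eq_div_mul, ← pow_add]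
        exact hconst x hx' y hy') (by rw [card_image_of_injOn hinj]; omega)
      obtain ⟨x, hx', rfl⟩ := mem_image.1 hx
      obtain ⟨y, hy', rfl⟩ := mem_image.1 hy
      obtain ⟨u, hu, rfl⟩ := mem_image.1 (hZ hx')
      obtain ⟨v, hv, rfl⟩ := mem_image.1 (hZ hy')
      have huv : u < v := hamono.lt_iff_lt.1 (Nat.lt_of_div_lt_div hxy)
      rw [hblock u hu v, hblock v hv u] at hF
      have := hcol0 (g u v) (g v u)
      rw [hc u v huv] at this
      exact this (hF2 h _ _ _ hF)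
    intro i hi j hj
    have hpos : 1 ≤ W * E ^ i := Nat.mul_pos hW (Nat.one_le_pow _ _ hE)
    apply growth
    intro Z hZ hinj hconst
    apply hζ i c Z (hZ.trans hYN)
    · apply key_inj ht hinj
      have : j + (W * E ^ i - 1) + 1 = j + W * E ^ i := by omega
      rw [this]
      exact hconst
    · intro x hx y hy hxy
      obtain ⟨u, hu, rfl⟩ := mem_image.1 (hZ hx)
      obtain ⟨v, hv, rfl⟩ := mem_image.1 (hZ hy)
      have huv : u < v := hamono.lt_iff_lt.1 hxy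
      have hne : a u / t ^ j ≠ a v / t ^ j := fun e => hxy.ne (hinj hx hy e)
      rw [key_congr ht (hblock u hu v) (hblock v hv u) hne (by omega), ← hc u v huv]
      exact hcol _ _ i hi
  have h3 : t * anc t Y h ≤ t * (B * b ^ (E * r)) := Nat.mul_le_mul_left _ h2
  omega

end Pool.Agent.P.MP_cf6cc5_co
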