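import Mathlib
import Pool.Agent.P.MP_cf6cc5_co.TCore
import Pool.Agent.P.MP_cf6cc5_co.CBox

set_option autoImplicit false

namespace Pool.Agent.P.MP_cf6cc5_co

open Finset

/-- The first sparse stage, for points grouped in intervals. -/
theorem stageA (t q P Z m W : ℕ) (ht : 0 < t) (hq : 0 < q) (hP : q ≤ P) (hW : 1 ≤ W)
    (hZ : 400 * W ^ 2 ≤ Z) (hm : Z ≤ m)
    (hSP : ∀ r, 1 ≤ r → ∀ z ≤ Z,
      ((z : ℝ) ^ 2 * (q / P)) ^ (r * z + 1) ≤ 1 / 8 * (1 / ((t ^ r : ℕ) : ℝ)) ^ z)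
    (hIP : ∀ r ≤ W, ∀ y e : ℕ, m ≤ y → y ^ 2 ≤ 16 * e →
      q * (1 - 1 / P : ℝ) ^ e ≤ 1 / 8 * (1 / (2 * ((t ^ r : ℕ) : ℝ))) ^ y) :
    ∃ Fb : ℕ → ℕ → ℕ → Prop, (∀ x y c c', Fb x y c → Fb x y c' → c = c') ∧
      (∀ h x y c, Fb (x / t ^ h) (y / t ^ h) c → Fb x y c) ∧
      ∀ c < q, ∀ X : Finset ℕ, (∀ x ∈ X, ∀ y ∈ X, x / t ^ W = y / t ^ W) → m * 64 ^ W < X.card →
        ∀ γ : ℕ → ℕ, MonotoneOn γ X → (∀ u, (X.filter (fun x => γ x = u)).card * 16 ≤ m) →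
        ∃ x ∈ X, ∃ y ∈ X, x < y ∧ γ x ≠ γ y ∧ Fb x y c := by
  have hlev := fun (ρ : ℕ) (C : ℕ → ℕ → Prop) (hρ : ρ < W) =>
    level2 q P (t ^ (ρ + 1)) Z (ρ + 1) m (by positivity) hq hP
      (fun a b => a / t ^ ρ ≠ b / t ^ ρ ∧ ¬ C a b) (hSP _ (by omega)) (hIP _ (by omega))
  choose! nx hnx1 hnx2 using hlev
  refine ⟨fun x y c => c < q ∧ ∃ j ρ, x / t ^ (j + ρ + 1) = y / t ^ (j + ρ + 1) ∧
    x / t ^ (j + ρ) ≠ y / t ^ (j + ρ) ∧
    ¬ Cov t q nx ρ (x / t ^ j % t ^ (ρ + 1)) (y / t ^ j % t ^ (ρ + 1)) ∧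
    nx ρ (Cov t q nx ρ) (x / t ^ j % t ^ (ρ + 1)) (y / t ^ j % t ^ (ρ + 1)) = c, ?_, ?_, ?_⟩
  · have key : ∀ x y j ρ j' ρ', j < j' → j + ρ = j' + ρ' →
        ¬ Cov t q nx ρ (x / t ^ j % t ^ (ρ + 1)) (y / t ^ j % t ^ (ρ + 1)) →
        ¬ nx ρ' (Cov t q nx ρ') (x / t ^ j' % t ^ (ρ' + 1)) (y / t ^ j' % t ^ (ρ' + 1)) < q := by
      intro x y j ρ j' ρ' hj he hn hlt
      obtain ⟨e, rfl⟩ := Nat.exists_eq_add_of_lt hj
      obtain rfl : ρ = ρ' + e + 1 := by omega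
      refine hn (cov_intro ρ' e _ _ ?_)
      rw [show ρ' + e + 1 + 1 = (e + 1) + (ρ' + 1) by ring, mod_div_pow, mod_div_pow,
        Nat.div_div_eq_div_mul, Nat.div_div_eq_div_mul, ← pow_add, ← add_assoc]
      exact hlt
    rintro x y c c' ⟨hc, j, ρ, h1, h2, h3, h4⟩ ⟨hc', j', ρ', h1', h2', h3', h4'⟩
    have he : j + ρ = j' + ρ' := by
      by_contra hne
      rcases lt_or_gt_of_ne hne with h | h
      · exact h2' (div_pow_eq_of_le h1 (by omega))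
      · exact h2 (div_pow_eq_of_le h1' (by omega))
    rcases lt_trichotomy j j' with h | h | h
    · exact absurd (h4' ▸ hc') (key x y j ρ j' ρ' h he h3)
    · subst h
      obtain rfl : ρ = ρ' := by omega
      rw [← h4, ← h4']
    · exact absurd (h4 ▸ hc) (key x y j' ρ' j ρ h he.symm h3')
  · rintro h x y c ⟨hc, j, ρ, h1⟩
    refine ⟨hc, h + j, ρ, ?_⟩
    simp only [Nat.div_div_eq_div_mul, ← pow_add, ← add_assoc] at h1
    exact h1
  · intro c hc X hX hcard γ hγ hγ2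
    have hZ1 : 1 ≤ Z := by
      have : 1 ≤ W ^ 2 := Nat.one_le_pow _ _ hW
      omega
    obtain ⟨ρ, hρ, X', hX', h1, h2, h3⟩ := potential t W m (by omega) X hX hcard
    have hfib : ∀ j ≤ ρ + 1, ∀ x ∈ X', ∀ y ∈ X',
        x % t ^ (ρ + 1) / t ^ j = y % t ^ (ρ + 1) / t ^ j → x / t ^ j = y / t ^ j := by
      intro j hj x hx y hy e
      obtain ⟨d, hd⟩ := Nat.exists_eq_add_of_le hj
      have e2 := h2 x hx y hy
      rw [hd, mod_div_pow, mod_div_pow] at e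
      rw [hd, pow_add, ← Nat.div_div_eq_div_mul, ← Nat.div_div_eq_div_mul] at e2
      rw [← Nat.div_add_mod (x / t ^ j) (t ^ d), ← Nat.div_add_mod (y / t ^ j) (t ^ d), e, e2]
    have hinj : Set.InjOn (fun x => x % t ^ (ρ + 1)) X' := by
      intro x hx y hy e
      simpa using hfib 0 (by omega) x hx y hy (by simpa using e)
    set Y := X'.image (fun x => x % t ^ (ρ + 1)) with hY
    have hYc : Y.card = X'.card := card_image_of_injOn hinj
    have hYr : Y ⊆ range (t ^ (ρ + 1)) := by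
      intro a ha
      obtain ⟨x, -, rfl⟩ := mem_image.1 ha
      exact mem_range.2 (Nat.mod_lt _ (by positivity))
    have hmany := many_uncovered t ρ W Z (fun i a b => nx i (Cov t q nx i) a b < q)
      (Cov t q nx ρ) ht hρ.le hW hZ (cov_elim ρ) (fun i hi => hnx1 i _ (by omega)) Y hYr
      (by omega) (by
        intro j hj u
        rcases (Y.filter (fun x => x / t ^ j = u)).eq_empty_or_nonempty with h | ⟨a, ha⟩
        · rw [h]; simp
        obtain ⟨z, hz, rfl⟩ := mem_image.1 (mem_filter.1 ha).1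
        rw [hYc]
        refine le_trans (Nat.mul_le_mul_right _ ?_) (h3 j hj (z / t ^ j))
        refine le_trans (card_le_card ?_) (card_image_le (f := fun x => x % t ^ (ρ + 1)))
        intro b hb
        obtain ⟨x, hx, rfl⟩ := mem_image.1 (mem_filter.1 hb).1
        exact mem_image_of_mem _ (mem_filter.2 ⟨hx, hfib j (by omega) x hx z hz
          ((mem_filter.1 hb).2.trans (mem_filter.1 ha).2.symm)⟩))
    obtain ⟨x0, hx0⟩ : X'.Nonempty := card_pos.1 (by omega)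
    have hrec : ∀ x ∈ X', t ^ (ρ + 1) * (x0 / t ^ (ρ + 1)) + x % t ^ (ρ + 1) = x := by
      intro x hx
      rw [h2 x0 hx0 x hx, Nat.div_add_mod]
    obtain ⟨a, ha, b, hb, hab, ⟨h4, h5⟩, h7, h6⟩ := hnx2 ρ _ hρ c hc Y hYr (by omega) hmany
      (fun a => γ (t ^ (ρ + 1) * (x0 / t ^ (ρ + 1)) + a)) (by
        intro a ha b hb hab
        obtain ⟨x, hx, rfl⟩ := mem_image.1 (mem_coe.1 ha)
        obtain ⟨y, hy, rfl⟩ := mem_image.1 (mem_coe.1 hb)
        have e1 := hrec x hx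
        have e2 := hrec y hy
        simp only [e1, e2]
        exact hγ (hX' hx) (hX' hy) (by omega)) (by
        intro u
        refine le_trans (Nat.mul_le_mul_right _ ?_) ((hγ2 u).trans (by omega))
        refine le_trans (card_le_card ?_) (card_image_le (f := fun x => x % t ^ (ρ + 1)))
        intro b hb
        obtain ⟨x, hx, rfl⟩ := mem_image.1 (mem_filter.1 hb).1
        have e1 := (mem_filter.1 hb).2
        simp only [hrec x hx] at e1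
        exact mem_image_of_mem _ (mem_filter.2 ⟨hX' hx, e1⟩))
    obtain ⟨x, hx, rfl⟩ := mem_image.1 ha
    obtain ⟨y, hy, rfl⟩ := mem_image.1 hb
    simp only [hrec x hx, hrec y hy] at h7
    refine ⟨x, hX' hx, y, hX' hy, ?_, h7, hc, 0, ρ, by simpa using h2 x hx y hy, ?_,
      by simpa using h5, by simpa using h6⟩
    · have e1 := hrec x hx
      have e2 := hrec y hy
      omega
    · intro e
      rw [zero_add] at e
      exact h4 (by rw [mod_div_pow, mod_div_pow, e])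

/-- A delayed sparse stage. -/
theorem stageB (t q P Z m k D : ℕ) (ht : 0 < t) (hq : 0 < q) (hP : q ≤ P) (hk : 1 ≤ k)
    (hZ : 400 * k ^ 2 ≤ Z) (hm : Z ≤ m)
    (hSP : ∀ z ≤ Z, ((z : ℝ) ^ 2 * (q / P)) ^ (k * z + 1) ≤ 1 / 8 * (1 / ((t ^ k : ℕ) : ℝ)) ^ z)
    (hIP : ∀ y e : ℕ, m ≤ y → y ^ 2 ≤ 16 * e →
      q * (1 - 1 / P : ℝ) ^ e ≤ 1 / 8 * (1 / (2 * ((t ^ k : ℕ) : ℝ))) ^ y) :
    ∃ Fb : ℕ → ℕ → ℕ → Prop, (∀ x y c c', Fb x y c → Fb x y c' → c = c') ∧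
      ∀ c < q, ∀ h ≤ k, ∀ p β : ℕ, D ≤ p → ∀ X ⊆ range (t ^ k),
        (∀ x ∈ X, ∀ y ∈ X, x / t ^ (p + D) = y / t ^ (p + D)) →
        (∀ u, (X.filter (fun x => x / t ^ p = u)).card ≤ β) → 100 * k ^ 2 * β ≤ X.card →
        m ≤ X.card → ∀ γ : ℕ → ℕ, MonotoneOn γ X →
        (∀ u, (X.filter (fun x => γ x = u)).card * 16 ≤ m) →
        ∃ x ∈ X, ∃ y ∈ X, x < y ∧ γ x ≠ γ y ∧
          ∀ x' y', x' / t ^ h = x → y' / t ^ h = y → Fb x' y' c := by
  have hlev := fun (C : ℕ → ℕ → Prop) =>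
    level2 q P (t ^ k) Z k m (by positivity) hq hP
      (fun a b => a / t ^ D ≠ b / t ^ D ∧ ¬ C a b) hSP hIP
  choose nx0 hnx1 hnx2 using hlev
  let nx : ℕ → (ℕ → ℕ → Prop) → ℕ → ℕ → ℕ := fun _ C a b =>
    if a / t ^ D ≠ b / t ^ D then nx0 C a b else q
  refine ⟨fun x y c => c < q ∧ ∃ ρ ≤ k, ¬ Cov t q nx ρ (x / t ^ (k - ρ)) (y / t ^ (k - ρ)) ∧
    nx ρ (Cov t q nx ρ) (x / t ^ (k - ρ)) (y / t ^ (k - ρ)) = c, ?_, ?_⟩
  · have key : ∀ x y ρ ρ', ρ' < ρ → ρ ≤ k →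
        ¬ Cov t q nx ρ (x / t ^ (k - ρ)) (y / t ^ (k - ρ)) →
        ¬ nx ρ' (Cov t q nx ρ') (x / t ^ (k - ρ')) (y / t ^ (k - ρ')) < q := by
      intro x y ρ ρ' hj hk' hn hlt
      obtain ⟨e, rfl⟩ := Nat.exists_eq_add_of_lt hj
      refine hn (cov_intro ρ' e _ _ ?_)
      rw [Nat.div_div_eq_div_mul, Nat.div_div_eq_div_mul, ← pow_add,
        show k - (ρ' + e + 1) + (e + 1) = k - ρ' by omega]
      exact hlt
    rintro x y c c' ⟨hc, ρ, h1, h3, h4⟩ ⟨hc', ρ', h1', h3', h4'⟩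
    rcases lt_trichotomy ρ ρ' with h | h | h
    · exact absurd (h4 ▸ hc) (key x y ρ' ρ h h1' h3')
    · subst h
      rw [← h4, ← h4']
    · exact absurd (h4' ▸ hc') (key x y ρ ρ' h h1 h3)
  · intro c hc h hh p β hD X hX hconst hβ hb hmX γ hγ hγ2
    have hmany := many_unc2 t (k - h) k D p (t ^ k) Z β
      (fun i a b => nx0 (Cov t q nx i) a b < q) (Cov t q nx (k - h)) (by omega) hk hZ hD (by
        intro a b hab
        obtain ⟨i, hi, hlt⟩ := cov_elim _ a b hab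
        refine ⟨i, hi, ?_⟩
        simp only [nx] at hlt
        split_ifs at hlt with hne
        · exact ⟨hne, hlt⟩
        · omega) (fun i _ => hnx1 _) X hX (by omega) hconst hβ hb
    obtain ⟨a, ha, b, hb', hab, ⟨h4, h5⟩, h7, h6⟩ := hnx2 _ c hc X hX hmX hmany γ hγ
      fun u => (hγ2 u).trans hmX
    refine ⟨a, ha, b, hb', hab, h7, ?_⟩
    rintro x' y' rfl rfl
    refine ⟨hc, k - h, by omega, ?_⟩
    rw [show k - (k - h) = h by omega]
    refine ⟨h5, ?_⟩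
    simp only [nx, if_pos h4]
    exact h6

end Pool.Agent.P.MP_cf6cc5_co
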