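import Mathlib
import Pool.Agent.P.MP_cf6cc5_co.CStage

set_option autoImplicit false

namespace Pool.Agent.P.MP_cf6cc5_co

open Finset

/-- Growth of the largest fibre along the stages. -/
theorem fib_bound {t k r E b W B : ℕ} (ht : 2 ≤ t) (hb : 1 ≤ b) (hk : k ≤ W * E ^ r)
    {X : Finset ℕ} (hX : X ⊆ range (t ^ k))
    (H0 : ∀ u, (X.filter (fun x => x / t ^ W = u)).card ≤ B)
    (H : ∀ i < r, ∀ p β, W * E ^ i ≤ p → B ≤ β →
      (∀ u, (X.filter (fun x => x / t ^ p = u)).card ≤ β) →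
      ∀ u, (X.filter (fun x => x / t ^ (p + W * E ^ i) = u)).card ≤ b * β) :
    X.card ≤ B * b ^ (E * r) := by
  have step : ∀ i < r, ∀ p β, W * E ^ i ≤ p → B ≤ β →
      (∀ u, (X.filter (fun x => x / t ^ p = u)).card ≤ β) → ∀ e : ℕ,
      ∀ u, (X.filter (fun x => x / t ^ (p + e * (W * E ^ i)) = u)).card ≤ β * b ^ e := by
    intro i hi p β hp hβ h e
    induction e with
    | zero => simpa using h
    | succ e ih =>
      have h1 : β * 1 ≤ β * b ^ e := Nat.mul_le_mul_left _ (Nat.one_le_pow _ _ hb)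
      have := H i hi (p + e * (W * E ^ i)) (β * b ^ e) (by omega) (by omega) ih
      rw [show p + (e + 1) * (W * E ^ i) = p + e * (W * E ^ i) + W * E ^ i by ring,
        show β * b ^ (e + 1) = b * (β * b ^ e) by ring]
      exact this
  have main : ∀ i ≤ r, ∃ p, W * E ^ i ≤ p ∧
      ∀ u, (X.filter (fun x => x / t ^ p = u)).card ≤ B * b ^ (E * i) := by
    intro i hi
    induction i with
    | zero => exact ⟨W, by simp, by simpa using H0⟩
    | succ i ih =>
      obtain ⟨p, hp1, hp2⟩ := ih (by omega)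
      have h1 : B * 1 ≤ B * b ^ (E * i) := Nat.mul_le_mul_left _ (Nat.one_le_pow _ _ hb)
      refine ⟨p + E * (W * E ^ i), ?_, ?_⟩
      · have : W * E ^ (i + 1) = E * (W * E ^ i) := by ring
        omega
      · rw [show B * b ^ (E * (i + 1)) = B * b ^ (E * i) * b ^ E by ring]
        exact step i (by omega) p _ hp1 (by omega) hp2 E
  obtain ⟨p, hp1, hp2⟩ := main r le_rfl
  have := hp2 0
  rwa [filter_true_of_mem] at this
  intro x hx
  exact Nat.div_eq_of_lt (lt_of_lt_of_le (mem_range.1 (hX hx))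
    (Nat.pow_le_pow_right (by omega) (by omega)))

/-- The core construction for grouped blocks. -/
theorem core3 (r t E W s k G L : ℕ) (ht : 2 ≤ t) (hk1 : 1 ≤ k) (hk : k ≤ W * E ^ r) (hs : 1 ≤ s)
    (Fa : ℕ → ℕ → ℕ → Prop) (hA1 : ∀ x y c c', Fa x y c → Fa x y c' → c = c')
    (hA2 : ∀ h x y c, Fa (x / t ^ h) (y / t ^ h) c → Fa x y c)
    (hA3 : ∀ c < r + 2, ∀ X : Finset ℕ, (∀ x ∈ X, ∀ y ∈ X, x / t ^ W = y / t ^ W) →
      16 * s * 64 ^ W < X.card → ∀ γ : ℕ → ℕ, MonotoneOn γ X →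
      (∀ u, (X.filter (fun x => γ x = u)).card * 16 ≤ 16 * s) →
      ∃ x ∈ X, ∃ y ∈ X, x < y ∧ γ x ≠ γ y ∧ Fa x y c)
    (Fb : ℕ → ℕ → ℕ → ℕ → Prop) (hB1 : ∀ i x y c c', Fb i x y c → Fb i x y c' → c = c')
    (hB2 : ∀ i, ∀ c < r + 2, ∀ h ≤ k, ∀ p β : ℕ, W * E ^ i ≤ p → ∀ X ⊆ range (t ^ k),
        (∀ x ∈ X, ∀ y ∈ X, x / t ^ (p + W * E ^ i) = y / t ^ (p + W * E ^ i)) →
        (∀ u, (X.filter (fun x => x / t ^ p = u)).card ≤ β) → 100 * k ^ 2 * β ≤ X.card →
        16 * s ≤ X.card → ∀ γ : ℕ → ℕ, MonotoneOn γ X →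
        (∀ u, (X.filter (fun x => γ x = u)).card * 16 ≤ 16 * s) →
        ∃ x ∈ X, ∃ y ∈ X, x < y ∧ γ x ≠ γ y ∧
          ∀ x' y', x' / t ^ h = x → y' / t ^ h = y → Fb i x' y' c)
    (hG : k * (16 * 64 ^ W * (100 * k ^ 2) ^ (E * r)) < G) (hL : k * (t * s) < L) :
    ∃ col : ℕ → ℕ → Fin (r + 2), ∀ a z : Fin G → Fin L → ℕ,
      (∀ g i, a g i < z g i ∧ z g i < t ^ k) → (∀ g i i', i < i' → z g i ≤ a g i') →
      (∀ g g' i i', g < g' → z g i ≤ a g' i') →
      ∀ c : Fin (r + 2), ¬ ∀ g g' i i', g < g' → ∃ x y, a g i ≤ x ∧ x ≤ z g i ∧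
        a g' i' ≤ y ∧ y ≤ z g' i' ∧ col x y = c := by
  classical
  have hcol : ∀ x y : ℕ, ∃ c : Fin (r + 2), ¬ Fa x y c ∧ ∀ i < r, ¬ Fb i x y c := by
    intro x y
    have h0 : (univ.filter fun c : Fin (r + 2) => Fa x y c).card ≤ 1 := by
      rw [card_le_one]
      intro a ha b hb
      exact Fin.ext (hA1 x y _ _ (mem_filter.1 ha).2 (mem_filter.1 hb).2)
    have h2 : ((range r).biUnion fun i =>
        univ.filter fun c : Fin (r + 2) => Fb i x y c).card ≤ r := by
      refine (card_biUnion_le_card_mul _ _ 1 fun i _ => ?_).trans (by simp)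
      rw [card_le_one]
      intro a ha b hb
      exact Fin.ext (hB1 i x y _ _ (mem_filter.1 ha).2 (mem_filter.1 hb).2)
    have h1 : ((univ.filter fun c : Fin (r + 2) => Fa x y c) ∪ (range r).biUnion fun i =>
        univ.filter fun c : Fin (r + 2) => Fb i x y c).card
        < (univ : Finset (Fin (r + 2))).card := by
      refine lt_of_le_of_lt (card_union_le _ _) ?_
      rw [card_univ, Fintype.card_fin]
      omega
    obtain ⟨c, _, hc⟩ := exists_mem_notMem_of_card_lt_card h1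
    refine ⟨c, fun e => hc (mem_union_left _ (mem_filter.2 ⟨mem_univ _, e⟩)), fun i hi e => hc ?_⟩
    exact mem_union_right _ (mem_biUnion.2 ⟨i, mem_range.2 hi, mem_filter.2 ⟨mem_univ _, e⟩⟩)
  choose col hcol0 hcol using hcol
  refine ⟨col, ?_⟩
  intro a z haz h1 h2 c hc
  have hmaps : ∀ g, ∀ i ∈ (univ : Finset (Fin L)), sp t (a g i) (z g i) ∈ Icc 1 k := by
    intro g i _
    rw [mem_Icc]
    constructor
    · by_contra hc
      have := (sp_le_iff ht (a g i) (z g i) 0).1 (by omega)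
      simp only [pow_zero, Nat.div_one] at this
      exact absurd this (haz g i).1.ne
    · rw [sp_le_iff ht, Nat.div_eq_of_lt ((haz g i).1.trans (haz g i).2),
        Nat.div_eq_of_lt (haz g i).2]
  have hg := fun g => exists_lt_card_fiber_of_mul_lt_card_of_maps_to (hmaps g)
    (n := t * s) (by simpa using hL)
  choose H hH1 hH2 using hg
  obtain ⟨h, hh, hΓ⟩ := exists_lt_card_fiber_of_mul_lt_card_of_maps_to
    (s := (univ : Finset (Fin G))) (fun g _ => hH1 g)
    (n := 16 * 64 ^ W * (100 * k ^ 2) ^ (E * r)) (by simpa using hG)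
  rw [mem_Icc] at hh
  set Γ := (univ : Finset (Fin G)).filter (fun g => H g = h) with hΓdef
  let I : Fin G → Finset (Fin L) := fun g => univ.filter (fun i => sp t (a g i) (z g i) = h)
  let N : Fin G → Finset ℕ := fun g => (I g).image fun i => a g i / t ^ h
  have hN : ∀ g ∈ Γ, s < (N g).card := by
    intro g hg
    have e0 := hH2 g
    rw [(mem_filter.1 hg).2] at e0
    have hsep : ∀ i ∈ I g, ∀ i', i < i' → a g i / t ^ (h - 1) < a g i' / t ^ (h - 1) := by
      intro i hi i' hii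
      have e : a g i / t ^ (h - 1) ≠ z g i / t ^ (h - 1) := by
        intro e
        have := (sp_le_iff ht (a g i) (z g i) (h - 1)).2 e
        rw [(mem_filter.1 hi).2] at this
        omega
      have e1 : a g i / t ^ (h - 1) ≤ z g i / t ^ (h - 1) := Nat.div_le_div_right (haz g i).1.le
      have e2 : z g i / t ^ (h - 1) ≤ a g i' / t ^ (h - 1) := Nat.div_le_div_right (h1 g i i' hii)
      omega
    have hYcard : (I g).card = anc t ((I g).image (a g)) (h - 1) := by
      rw [anc, image_image, card_image_of_injOn]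
      intro i hi i' hi' e
      rcases lt_trichotomy i i' with hlt | heq | hgt
      · exact absurd e (hsep i hi i' hlt).ne
      · exact heq
      · exact absurd e (hsep i' hi' i hgt).ne'
    have e3 := anc_succ_le ht ((I g).image (a g)) (h - 1)
    rw [Nat.sub_add_cancel hh.1, ← hYcard, anc, image_image] at e3
    exact lt_of_mul_lt_mul_left (lt_of_lt_of_le e0 e3) (Nat.zero_le _)
  have hN' : ∀ g ∈ Γ, ∃ S ⊆ (N g).erase ((N g).sup id), S.card = s := by
    intro g hg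
    refine exists_subset_card_eq ?_
    have := pred_card_le_card_erase (s := N g) (a := (N g).sup id)
    have := hN g hg
    omega
  choose! S hS1 hS2 using hN'
  have hlt : ∀ g ∈ Γ, ∀ g' ∈ Γ, g < g' → ∀ u ∈ S g, ∀ v ∈ S g', u < v := by
    intro g hg g' hg' hgg u hu v hv
    obtain ⟨e1, e2⟩ := mem_erase.1 (hS1 g hg hu)
    have e3 : u ≤ (N g).sup id := le_sup (f := id) e2
    have e4 : (N g).sup id ≤ v := by
      refine Finset.sup_le fun w hw => ?_
      obtain ⟨i, -, rfl⟩ := mem_image.1 hw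
      obtain ⟨i', -, rfl⟩ := mem_image.1 (mem_erase.1 (hS1 g' hg' hv)).2
      exact Nat.div_le_div_right ((haz g i).1.le.trans (h2 g g' i i' hgg))
    omega
  set X := Γ.biUnion S with hX
  have hXc : X.card = Γ.card * s := by
    rw [hX, card_biUnion, sum_congr rfl hS2, sum_const, smul_eq_mul]
    intro g hg g' hg' hne
    rw [Function.onFun, disjoint_left]
    intro u hu hu'
    rcases lt_or_gt_of_ne hne with e | e
    · exact (hlt g hg g' hg' e u hu u hu').ne rfl
    · exact (hlt g' hg' g hg e u hu' u hu).ne rfl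
  have hne : Nonempty (Fin G) := ⟨⟨0, by omega⟩⟩
  have hγ0 : ∀ u ∈ X, ∃ g ∈ Γ, u ∈ S g := fun u hu => mem_biUnion.1 hu
  choose! γ hγ1 hγ2 using hγ0
  have hmono : ∀ u ∈ X, ∀ v ∈ X, u ≤ v → γ u ≤ γ v := by
    intro u hu v hv huv
    by_contra hc
    have := hlt _ (hγ1 v hv) _ (hγ1 u hu) (not_le.1 hc) v (hγ2 v hv) u (hγ2 u hu)
    omega
  have hmono' : ∀ Y ⊆ X, MonotoneOn (fun u => (γ u : ℕ)) Y :=
    fun Y hY u hu v hv huv => hmono u (hY hu) v (hY hv) huv
  have hfib : ∀ Y ⊆ X, ∀ w : ℕ, (Y.filter (fun x => (γ x : ℕ) = w)).card * 16 ≤ 16 * s := by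
    intro Y hY w
    rcases (Y.filter (fun x => (γ x : ℕ) = w)).eq_empty_or_nonempty with e | ⟨u, hu⟩
    · rw [e]; simp
    have hu' := mem_filter.1 hu
    have : (Y.filter (fun x => (γ x : ℕ) = w)).card ≤ (S (γ u)).card := by
      refine card_le_card fun v hv => ?_
      have hv' := mem_filter.1 hv
      rw [← (Fin.ext (hv'.2.trans hu'.2.symm) : γ v = γ u)]
      exact hγ2 v (hY hv'.1)
    rw [hS2 _ (hγ1 u (hY hu'.1))] at this
    omega
  have hnode : ∀ u ∈ X, ∃ i, u = a (γ u) i / t ^ h ∧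
      ∀ x, a (γ u) i ≤ x → x ≤ z (γ u) i → x / t ^ h = u := by
    intro u hu
    obtain ⟨i, hi, e⟩ := mem_image.1 (mem_erase.1 (hS1 _ (hγ1 u hu) (hγ2 u hu))).2
    refine ⟨i, e.symm, fun x hx1 hx2 => ?_⟩
    have e1 := (sp_le_iff ht _ _ h).1 (mem_filter.1 hi).2.le
    have e2 : a (γ u) i / t ^ h ≤ x / t ^ h := Nat.div_le_div_right hx1
    have e3 : x / t ^ h ≤ z (γ u) i / t ^ h := Nat.div_le_div_right hx2
    omega
  have hedge : ∀ u ∈ X, ∀ v ∈ X, u < v → (γ u : ℕ) ≠ γ v →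
      ∃ x y, x / t ^ h = u ∧ y / t ^ h = v ∧ col x y = c := by
    intro u hu v hv huv hne
    obtain ⟨i, -, e1⟩ := hnode u hu
    obtain ⟨i', -, e2⟩ := hnode v hv
    obtain ⟨x, y, f1, f2, f3, f4, f5⟩ := hc (γ u) (γ v) i i'
      (lt_of_le_of_ne (hmono u hu v hv huv.le) fun e => hne (congrArg Fin.val e))
    exact ⟨x, y, e1 x f1 f2, e2 y f3 f4, f5⟩
  have hXr : X ⊆ range (t ^ k) := by
    intro u hu
    obtain ⟨i, e, -⟩ := hnode u hu
    rw [mem_range, e]
    exact lt_of_le_of_lt (Nat.div_le_self _ _) ((haz _ i).1.trans (haz _ i).2)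
  have hk2 : 1 ≤ 100 * k ^ 2 := by
    have : 1 ≤ k ^ 2 := Nat.one_le_pow _ _ hk1
    omega
  have hbound := fib_bound (B := 16 * s * 64 ^ W) ht hk2 hk hXr (by
    intro w
    by_contra hc'
    obtain ⟨u, hu, v, hv, huv, e1, e2⟩ := hA3 c c.2 (X.filter (fun x => x / t ^ W = w))
      (fun x hx y hy => (mem_filter.1 hx).2.trans (mem_filter.1 hy).2.symm) (not_le.1 hc') _
      (hmono' _ (filter_subset _ _)) (hfib _ (filter_subset _ _))
    obtain ⟨x, y, rfl, rfl, e3⟩ := hedge u (mem_filter.1 hu).1 v (mem_filter.1 hv).1 huv e1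
    exact hcol0 x y (by rw [e3]; exact hA2 h _ _ _ e2)) (by
    intro i hi p β hp hβ hf w
    by_contra hc'
    have f1 : 16 * s * 1 ≤ 16 * s * 64 ^ W :=
      Nat.mul_le_mul_left _ (Nat.one_le_pow _ _ (by norm_num))
    have f2 : 1 * β ≤ 100 * k ^ 2 * β := Nat.mul_le_mul_right _ hk2
    obtain ⟨u, hu, v, hv, huv, e1, e2⟩ := hB2 i c c.2 h hh.2 p β hp
      (X.filter (fun x => x / t ^ (p + W * E ^ i) = w)) ((filter_subset _ _).trans hXr)
      (fun x hx y hy => (mem_filter.1 hx).2.trans (mem_filter.1 hy).2.symm)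
      (fun w' => (card_le_card (filter_subset_filter _ (filter_subset _ _))).trans (hf w'))
      (by omega) (by omega) _ (hmono' _ (filter_subset _ _)) (hfib _ (filter_subset _ _))
    obtain ⟨x, y, e4, e5, e3⟩ := hedge u (mem_filter.1 hu).1 v (mem_filter.1 hv).1 huv e1
    exact hcol x y i hi (by rw [e3]; exact e2 x y e4 e5))
  rw [hXc, show 16 * s * 64 ^ W * (100 * k ^ 2) ^ (E * r) =
    16 * 64 ^ W * (100 * k ^ 2) ^ (E * r) * s by ring] at hbound
  have := Nat.le_of_mul_le_mul_right hbound hs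
  omega

end Pool.Agent.P.MP_cf6cc5_co
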