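import Mathlib

set_option autoImplicit false

namespace Pool.Agent.P.MP_cf6cc5_co

open Finset

/-- Among any `n` ordered blocks two are completely related. -/
def Hyp (n : ℕ) (G : ℕ → ℕ → Prop) : Prop :=
  ∀ B : ℕ → Set ℕ, (∀ i j, i < j → j < n → ∀ x ∈ B i, ∀ y ∈ B j, x < y) →
    ∃ i j, i < j ∧ j < n ∧ ∀ x ∈ B i, ∀ y ∈ B j, G x y

/-- Cliques for the first `j` relations. -/
def Cl (F : ℕ → ℕ → ℕ → Prop) (j : ℕ) (K : Finset ℕ) : Prop :=
  ∀ x ∈ K, ∀ y ∈ K, x < y → ∀ c < j, F c x y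

def PP (n j b T : ℕ) : Prop :=
  ∀ F : ℕ → ℕ → ℕ → Prop, (∀ c < j, Hyp n (F c)) → ∀ W : Finset ℕ, T ≤ W.card →
    ∃ K ⊆ W, b ≤ K.card ∧ Cl F j K

def QQ (n j a R : ℕ) : Prop :=
  ∀ F : ℕ → ℕ → ℕ → Prop, (∀ c < j, Hyp n (F c)) → ∀ (W : Finset ℕ) (l : ℕ), R * l ≤ W.card →
    ∃ A : ℕ → Finset ℕ, (∀ i < a, A i ⊆ W ∧ l ≤ (A i).card) ∧
      ∀ i i', i < i' → i' < a → ∀ x ∈ A i, ∀ y ∈ A i', x < y ∧ ∀ c < j, F c x y

theorem exists_enum (W : Finset ℕ) : ∃ f : ℕ → ℕ, (∀ i < W.card, f i ∈ W) ∧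
    ∀ i j, i < j → j < W.card → f i < f j := by
  refine ⟨fun i => if h : i < W.card then W.orderEmbOfFin rfl ⟨i, h⟩ else 0, ?_, ?_⟩
  · intro i hi
    simp only [dif_pos hi]
    exact W.orderEmbOfFin_mem rfl _
  · intro i j hij hj
    simp only [dif_pos hj, dif_pos (hij.trans hj)]
    exact (W.orderEmbOfFin rfl).strictMono hij

theorem PP.mono {n j b T T' : ℕ} (h : PP n j b T) (hT : T ≤ T') : PP n j b T' :=
  fun F hF W hW => h F hF W (hT.trans hW)

theorem Hyp.pair {n : ℕ} {G : ℕ → ℕ → Prop} (h : Hyp n G) {Y : Finset ℕ} (hY : n ≤ Y.card) :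
    ∃ x ∈ Y, ∃ y ∈ Y, x < y ∧ G x y := by
  obtain ⟨f, hf1, hf2⟩ := exists_enum Y
  obtain ⟨i, j, hij, hj, hG⟩ := h (fun i => {f i}) (by
    intro i j hij hj x hx y hy
    rw [Set.mem_singleton_iff] at hx hy
    rw [hx, hy]
    exact hf2 i j hij (by omega))
  exact ⟨f i, hf1 i (by omega), f j, hf1 j (by omega), hf2 i j hij (by omega), hG _ rfl _ rfl⟩

theorem PP_one (n : ℕ) : PP n 1 2 n := by
  intro F hF W hW
  obtain ⟨x, hx, y, hy, hxy, hG⟩ := (hF 0 one_pos).pair hW
  refine ⟨{x, y}, ?_, by rw [card_pair hxy.ne], ?_⟩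
  · intro z hz
    rcases mem_insert.1 hz with rfl | hz
    · exact hx
    · rw [mem_singleton.1 hz]; exact hy
  · intro u hu v hv huv c hc
    obtain rfl : c = 0 := by omega
    simp only [mem_insert, mem_singleton] at hu hv
    rcases hu with rfl | rfl <;> rcases hv with rfl | rfl
    · omega
    · exact hG
    · omega
    · omega

theorem PP.toQ {n j a R : ℕ} (h : PP n j a R) : QQ n j a R := by
  intro F hF W l hW
  obtain ⟨f, hf1, hf2⟩ := exists_enum W
  let blk : ℕ → Finset ℕ := fun u => if u < R then (Ico (u * l) (u * l + l)).image f else ∅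
  have hmem : ∀ u x, x ∈ blk u → u < R ∧ ∃ i, u * l ≤ i ∧ i < u * l + l ∧ i < W.card ∧ f i = x := by
    intro u x hx
    by_cases hu : u < R
    · simp only [blk, if_pos hu, mem_image, mem_Ico] at hx
      obtain ⟨i, ⟨h1, h2⟩, rfl⟩ := hx
      have : (u + 1) * l ≤ R * l := Nat.mul_le_mul_right _ hu
      exact ⟨hu, i, h1, h2, by nlinarith, rfl⟩
    · simp [blk, hu] at hx
  have hlt : ∀ u v, u < v → ∀ x ∈ blk u, ∀ y ∈ blk v, x < y := by
    intro u v huv x hx y hy
    obtain ⟨-, i, -, h2, -, rfl⟩ := hmem u x hx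
    obtain ⟨-, i', h3, -, h4, rfl⟩ := hmem v y hy
    have : (u + 1) * l ≤ v * l := Nat.mul_le_mul_right _ huv
    exact hf2 i i' (by nlinarith) h4
  obtain ⟨K, hKW, hK, hcl⟩ := h (fun c u v => ∀ x ∈ blk u, ∀ y ∈ blk v, F c x y) (by
    intro c hc B hB
    obtain ⟨i, i', hii, hi', hG⟩ := hF c hc (fun i => {x | ∃ u ∈ B i, x ∈ blk u}) (by
      rintro i i' hii hi' x ⟨u, hu, hx⟩ y ⟨v, hv, hy⟩
      exact hlt u v (hB i i' hii hi' u hu v hv) x hx y hy)
    exact ⟨i, i', hii, hi', fun u hu v hv x hx y hy => hG x ⟨u, hu, hx⟩ y ⟨v, hv, hy⟩⟩)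
    (range R) (by simp)
  obtain ⟨g, hg1, hg2⟩ := exists_enum K
  refine ⟨fun i => blk (g i), fun i hi => ⟨?_, ?_⟩, ?_⟩
  · intro x hx
    obtain ⟨-, i, -, -, h, rfl⟩ := hmem _ x hx
    exact hf1 i h
  · have hu : g i < R := mem_range.1 (hKW (hg1 i (by omega)))
    have h1 : (g i + 1) * l ≤ R * l := Nat.mul_le_mul_right _ hu
    simp only [blk, if_pos hu]
    rw [card_image_of_injOn, Nat.card_Ico]
    · omega
    · intro a ha b hb e
      simp only [coe_Ico, Set.mem_Ico] at ha hb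
      rcases lt_trichotomy a b with hlt | heq | hgt
      · exact absurd e (hf2 a b hlt (by nlinarith)).ne
      · exact heq
      · exact absurd e (hf2 b a hgt (by nlinarith)).ne'
  · intro i i' hii hi' x hx y hy
    have h1 := hg2 i i' hii (by omega)
    exact ⟨hlt _ _ h1 x hx y hy,
      fun c hc => hcl _ (hg1 i (by omega)) _ (hg1 i' (by omega)) h1 c hc x hx y hy⟩

/-- The additive step. -/
theorem additive {n j a R I : ℕ} (ha : 1 ≤ a) (hR : 1 ≤ R) (h : QQ n j a R)
    (F : ℕ → ℕ → ℕ → Prop) (hF : ∀ c < j, Hyp n (F c)) :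
    ∀ β i : ℕ, i ≤ I → ∀ W : Finset ℕ, (2 * a ^ I * R) ^ (β + i) ≤ W.card →
      (∃ K ⊆ W, β ≤ K.card ∧ Cl F (j + 1) K) ∨
      ∃ Y ⊆ W, Y.card = a ^ i ∧ ∀ x ∈ Y, ∀ y ∈ Y, x < y → ¬ F j x y := by
  classical
  intro β
  induction β with
  | zero =>
    intro i _ W _
    exact Or.inl ⟨∅, empty_subset _, le_rfl, fun x hx => absurd hx (notMem_empty x)⟩
  | succ β ihβ =>
    intro i
    induction i with
    | zero =>
      intro _ W hW
      have : 0 < W.card := lt_of_lt_of_le (by positivity) hW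
      obtain ⟨x, hx⟩ := card_pos.1 this
      refine Or.inr ⟨{x}, singleton_subset_iff.2 hx, by simp, ?_⟩
      intro u hu v hv huv
      rw [mem_singleton] at hu hv
      omega
    | succ i ihi =>
      intro hi W hW
      set D := (2 * a ^ I * R) ^ (β + (i + 1)) with hD
      obtain ⟨A, hA1, hA2⟩ := h F hF W (2 * a ^ I * D) (by
        refine le_trans (le_of_eq ?_) hW
        rw [show β + 1 + (i + 1) = β + (i + 1) + 1 by ring, pow_succ, ← hD]
        ring)
      by_cases hc : ∃ u u', u < u' ∧ u' < a ∧ ∃ w ∈ A u, D ≤ ((A u').filter (F j w)).card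
      · obtain ⟨u, u', huu, hu', w, hw, hN⟩ := hc
        have hsub : (A u').filter (F j w) ⊆ W := (filter_subset _ _).trans (hA1 u' hu').1
        rcases ihβ (i + 1) hi _ hN with ⟨K, hK1, hK2, hK3⟩ | ⟨Y, hY1, hY2⟩
        · have hwK : ∀ y ∈ K, w < y ∧ ∀ c < j + 1, F c w y := by
            intro y hy
            have h1 := mem_filter.1 (hK1 hy)
            have h2 := hA2 u u' huu hu' w hw y h1.1
            refine ⟨h2.1, fun c hc => ?_⟩
            rcases Nat.lt_succ_iff_lt_or_eq.1 hc with hc | rfl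
            · exact h2.2 c hc
            · exact h1.2
          refine Or.inl ⟨insert w K, insert_subset ((hA1 u (by omega)).1 hw) (hK1.trans hsub), ?_, ?_⟩
          · rw [card_insert_of_notMem fun hh => (hwK w hh).1.ne rfl]
            omega
          · intro x hx y hy hxy
            rcases mem_insert.1 hx with hx | hx <;> rcases mem_insert.1 hy with hy | hy
            · omega
            · rw [hx]; exact (hwK y hy).2
            · have := (hwK x hx).1
              omega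
            · exact hK3 x hx y hy hxy
        · exact Or.inr ⟨Y, hY1.trans hsub, hY2⟩
      · push Not at hc
        have key : ∀ u ≤ a, (∃ K ⊆ W, β + 1 ≤ K.card ∧ Cl F (j + 1) K) ∨
            ∃ Y : Finset ℕ, (∀ x ∈ Y, ∃ u' < u, x ∈ A u') ∧ Y.card = u * a ^ i ∧
              ∀ x ∈ Y, ∀ y ∈ Y, x < y → ¬ F j x y := by
          intro u
          induction u with
          | zero =>
            intro _
            exact Or.inr ⟨∅, by simp, by simp, by simp⟩
          | succ u ihu =>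
            intro hu
            rcases ihu (by omega) with hK | ⟨Y, hY1, hY2, hY3⟩
            · exact Or.inl hK
            let W' := A u \ Y.biUnion fun w => (A u).filter (F j w)
            have hY4 : Y.card ≤ a ^ I := by
              rw [hY2]
              calc u * a ^ i ≤ a * a ^ i := Nat.mul_le_mul_right _ (by omega)
                _ = a ^ (i + 1) := by ring
                _ ≤ a ^ I := Nat.pow_le_pow_right ha hi
            have hb : (Y.biUnion fun w => (A u).filter (F j w)).card ≤ a ^ I * D := by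
              refine (card_biUnion_le_card_mul _ _ D ?_).trans (Nat.mul_le_mul_right _ hY4)
              intro w hw
              obtain ⟨u', hu', hw'⟩ := hY1 w hw
              exact (hc u' u hu' (by omega) w hw').le
            have hW' : D ≤ W'.card := by
              have h1 := le_card_sdiff (Y.biUnion fun w => (A u).filter (F j w)) (A u)
              have h2 := (hA1 u (by omega)).2
              have h3 : 1 * D ≤ a ^ I * D := Nat.mul_le_mul_right _ (Nat.one_le_pow _ _ ha)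
              have h4 : 2 * a ^ I * D = a ^ I * D + a ^ I * D := by ring
              simp only [W']
              omega
            have hsub : W' ⊆ A u := sdiff_subset
            rcases ihi (by omega) W' (by
              rw [show β + 1 + i = β + (i + 1) by ring]; exact hW') with
              ⟨K, hK1, hK2⟩ | ⟨Z, hZ1, hZ2, hZ3⟩
            · exact Or.inl ⟨K, hK1.trans (hsub.trans (hA1 u (by omega)).1), hK2⟩
            have hYZ : ∀ x ∈ Y, ∀ z ∈ Z, x < z ∧ ¬ F j x z := by
              intro x hx z hz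
              obtain ⟨u', hu', hx'⟩ := hY1 x hx
              have hz' := mem_sdiff.1 (hZ1 hz)
              refine ⟨(hA2 u' u hu' (by omega) x hx' z hz'.1).1, fun hh => hz'.2 ?_⟩
              exact mem_biUnion.2 ⟨x, hx, mem_filter.2 ⟨hz'.1, hh⟩⟩
            refine Or.inr ⟨Y ∪ Z, ?_, ?_, ?_⟩
            · intro x hx
              rcases mem_union.1 hx with hx | hx
              · obtain ⟨u', hu', hx'⟩ := hY1 x hx
                exact ⟨u', by omega, hx'⟩
              · exact ⟨u, by omega, hsub (hZ1 hx)⟩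
            · rw [card_union_of_disjoint, hY2, hZ2]
              · ring
              · exact disjoint_left.2 fun x hx hx' => (hYZ x hx x hx').1.ne rfl
            · intro x hx y hy hxy
              rcases mem_union.1 hx with hx | hx <;> rcases mem_union.1 hy with hy | hy
              · exact hY3 x hx y hy hxy
              · exact (hYZ x hx y hy).2
              · have := (hYZ y hy x hx).1
                omega
              · exact hZ3 x hx y hy hxy
        rcases key a le_rfl with hK | ⟨Y, hY1, hY2, hY3⟩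
        · exact Or.inl hK
        · refine Or.inr ⟨Y, fun x hx => ?_, by rw [hY2]; ring, hY3⟩
          obtain ⟨u', hu', hx'⟩ := hY1 x hx
          exact (hA1 u' hu').1 hx'

theorem PP.step {n j a R I : ℕ} (ha : 1 ≤ a) (hR : 1 ≤ R) (h : PP n j a R) (hn : n ≤ a ^ I)
    (β : ℕ) : PP n (j + 1) β ((2 * a ^ I * R) ^ (β + I)) := by
  intro F hF W hW
  rcases additive ha hR h.toQ F (fun c hc => hF c (by omega)) β I le_rfl W hW with
    hK | ⟨Y, -, hY2, hY3⟩
  · exact hK
  · obtain ⟨x, hx, y, hy, hxy, hG⟩ := (hF j (by omega)).pair (show n ≤ Y.card by omega)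
    exact absurd hG (hY3 x hx y hy hxy)

theorem PP_all {n L E : ℕ} (hn : 1 ≤ n) (hL : n ≤ 2 ^ L) (hE : n ≤ E ^ E) (hE1 : 1 ≤ E)
    (hEL : E ≤ L) (j : ℕ) : PP n (j + 2) E (2 ^ (6 * L ^ 2 * (4 * E) ^ j)) := by
  induction j with
  | zero =>
    refine ((PP_one n).step (by norm_num) hn hL E).mono ?_
    calc (2 * 2 ^ L * n) ^ (E + L) ≤ (2 * 2 ^ L * 2 ^ L) ^ (L + L) := by
          refine (Nat.pow_le_pow_left (by gcongr) _).trans (Nat.pow_le_pow_right (by positivity) ?_)
          omega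
      _ = 2 ^ ((1 + L + L) * (L + L)) := by
          rw [pow_mul]; congr 1; rw [pow_add, pow_add, pow_one]
      _ ≤ _ := Nat.pow_le_pow_right (by norm_num) (by nlinarith)
  | succ j ih =>
    refine (ih.step hE1 (Nat.one_le_pow _ _ (by norm_num)) hE E).mono ?_
    have h1 : E ^ E ≤ 2 ^ (L ^ 2) := by
      calc E ^ E ≤ (2 ^ E) ^ E := Nat.pow_le_pow_left Nat.lt_two_pow_self.le _
        _ = 2 ^ (E * E) := by rw [← pow_mul]
        _ ≤ _ := Nat.pow_le_pow_right (by norm_num) (by nlinarith)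
    set ρ := 6 * L ^ 2 * (4 * E) ^ j with hρ
    have h2 : 1 ≤ (4 * E) ^ j := Nat.one_le_pow _ _ (by omega)
    have h3 : 1 + L ^ 2 ≤ ρ := by
      have : 1 ≤ L ^ 2 := Nat.one_le_pow _ _ (by omega)
      nlinarith
    calc (2 * E ^ E * 2 ^ ρ) ^ (E + E) ≤ (2 * 2 ^ (L ^ 2) * 2 ^ ρ) ^ (E + E) := by gcongr
      _ = 2 ^ ((1 + L ^ 2 + ρ) * (E + E)) := by
          rw [pow_mul 2 (1 + L ^ 2 + ρ)]; congr 1; rw [pow_add, pow_add, pow_one]
      _ ≤ _ := by
          refine Nat.pow_le_pow_right (by norm_num) ?_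
          rw [pow_succ (4 * E), ← mul_assoc, ← hρ]
          nlinarith

/-- The upper bound in parametric form. -/
theorem upper_param {n L E r : ℕ} (hn : 2 ≤ n) (hL : n ≤ 2 ^ L) (hE : n ≤ E ^ E) (hE2 : 2 ≤ E)
    (hEL : E ≤ L) (M : SimpleGraph (Fin n)) (hM : ∀ v w w', M.Adj v w → M.Adj v w' → w = w')
    (N : ℕ) (hN : 2 ^ (6 * L ^ 2 * (4 * E) ^ r) ≤ N) (col : Sym2 (Fin N) → Fin (r + 2)) :
    ∃ f : Fin n → Fin N, StrictMono f ∧
      ∃ i : Fin (r + 2), ∀ a b : Fin n, M.Adj a b → col s(f a, f b) = i := by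
  classical
  by_contra hcon
  have hNe : Nonempty (Fin N) := ⟨⟨0, lt_of_lt_of_le (by positivity) hN⟩⟩
  let F : ℕ → ℕ → ℕ → Prop := fun c x y =>
    ∀ (hx : x < N) (hy : y < N), (col s(⟨x, hx⟩, ⟨y, hy⟩) : ℕ) ≠ c
  obtain ⟨K, hKW, hK, hcl⟩ := PP_all (by omega) hL hE (by omega) hEL r F (by
    intro c hc B hB
    by_contra hno
    push Not at hno
    have hno' : ∀ i j : Fin n, i < j → ∃ p : Fin N × Fin N, (p.1 : ℕ) ∈ B i ∧ (p.2 : ℕ) ∈ B j ∧
        col s(p.1, p.2) = ⟨c, hc⟩ := by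
      intro i j hij
      obtain ⟨x, hx, y, hy, h⟩ := hno i j hij j.2
      simp only [F, not_forall, not_not] at h
      obtain ⟨h1, h2, h3⟩ := h
      exact ⟨(⟨x, h1⟩, ⟨y, h2⟩), hx, hy, Fin.ext h3⟩
    choose! e he using fun p : Fin n × Fin n => hno' p.1 p.2
    have hpt : ∀ v : Fin n, ∃ z : Fin N, (z : ℕ) ∈ B v ∧
        (∀ w, M.Adj v w → v < w → z = (e (v, w)).1) ∧ ∀ w, M.Adj v w → w < v → z = (e (w, v)).2 := by
      intro v
      by_cases hv : ∃ w, M.Adj v w
      · obtain ⟨w, hw⟩ := hv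
        rcases lt_or_gt_of_ne hw.ne with hlt | hgt
        · refine ⟨(e (v, w)).1, (he (v, w) hlt).1, fun w' hw' _ => ?_, fun w' hw' h => ?_⟩
          · rw [hM v w w' hw hw']
          · rw [← hM v w w' hw hw'] at h
            exact absurd h hlt.not_gt
        · refine ⟨(e (w, v)).2, (he (w, v) hgt).2.1, fun w' hw' h => ?_, fun w' hw' _ => ?_⟩
          · rw [← hM v w w' hw hw'] at h
            exact absurd h hgt.not_gt
          · rw [hM v w w' hw hw']
      · have : Nontrivial (Fin n) := Fin.nontrivial_iff_two_le.2 hn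
        obtain ⟨w, hw⟩ := exists_ne v
        have hz : ∃ z : Fin N, (z : ℕ) ∈ B v := by
          rcases lt_or_gt_of_ne hw with hlt | hgt
          · exact ⟨_, (he (w, v) hlt).2.1⟩
          · exact ⟨_, (he (v, w) hgt).1⟩
        obtain ⟨z, hz⟩ := hz
        exact ⟨z, hz, fun w hw => absurd ⟨w, hw⟩ hv, fun w hw => absurd ⟨w, hw⟩ hv⟩
    choose f hf1 hf2 hf3 using hpt
    refine hcon ⟨f, fun a b hab => hB a b hab b.2 _ (hf1 a) _ (hf1 b), ⟨c, hc⟩, ?_⟩
    have key : ∀ a b, a < b → M.Adj a b → col s(f a, f b) = ⟨c, hc⟩ := by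
      intro a b hab h
      rw [hf2 a b h hab, hf3 b a h.symm hab]
      exact (he (a, b) hab).2.2
    intro a b h
    rcases lt_or_gt_of_ne h.ne with hlt | hgt
    · exact key a b hlt h
    · rw [Sym2.eq_swap]
      exact key b a hgt h.symm) (range N) (by rw [card_range]; exact hN)
  obtain ⟨g, hg1, hg2⟩ := exists_enum K
  have h0 := hg1 0 (by omega)
  have h1 := hg1 1 (by omega)
  have hx := mem_range.1 (hKW h0)
  have hy := mem_range.1 (hKW h1)
  exact hcl _ h0 _ h1 (hg2 0 1 one_pos (by omega)) _ (col s(⟨_, hx⟩, ⟨_, hy⟩)).2 hx hy rfl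

end Pool.Agent.P.MP_cf6cc5_co
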