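import Mathlib
import Pool.Agent.P.MP_cf6cc5_co.Param
import Pool.Agent.P.MP_cf6cc5_co.TCore
import Pool.Agent.P.MP_cf6cc5_co.TUp

set_option autoImplicit false

namespace Pool.Agent.P.MP_cf6cc5_co

open Finset

theorem sq_le_two_pow {W : ℕ} (hW : 17 ≤ W) : 400 * W ^ 2 ≤ 2 ^ W := by
  induction W, hW using Nat.le_induction with
  | base => norm_num
  | succ W hW ih => rw [pow_succ 2 W]; nlinarith

theorem count_param2 {r W X : ℕ} (hW : 4 * (r + 1) ≤ W) (hX : X ≤ 2 ^ W ^ (r + 2)) :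
    (r + 1 + 1) * X ^ (W ^ (r + 3) + 1) * (r + 1) ^ ((W ^ (r + 3) + 1).choose 2)
      < (r + 1 + 1) ^ ((W ^ (r + 3) + 1).choose 2) := by
  set b := W ^ (r + 3) with hb
  set u := W ^ (r + 2) with hu
  have hu1 : 1 ≤ u := Nat.one_le_pow _ _ (by omega)
  have hbu : b = u * W := by rw [hb, hu, pow_succ]
  have hb1 : 2 * (r + 1) * (u + 1) ≤ b := by rw [hbu]; nlinarith
  apply count_aux (e := (b + 1) * (u + 1)) (by omega)
  · rw [Nat.choose_two_right, Nat.add_sub_cancel, Nat.le_div_iff_mul_le (by norm_num)]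
    calc (r + 1) * ((b + 1) * (u + 1)) * 2 = (b + 1) * (2 * (r + 1) * (u + 1)) := by ring
      _ ≤ (b + 1) * b := Nat.mul_le_mul_left _ hb1
  · have h2 : r + 1 + 1 < 2 ^ (b + 1) := by
      have : b + 1 < 2 ^ (b + 1) := Nat.lt_two_pow_self
      nlinarith
    have h3 : X ^ (b + 1) ≤ (2 ^ u) ^ (b + 1) := Nat.pow_le_pow_left hX _
    calc (r + 1 + 1) * X ^ (b + 1) ≤ (r + 1 + 1) * (2 ^ u) ^ (b + 1) := Nat.mul_le_mul_left _ h3
      _ < 2 ^ (b + 1) * (2 ^ u) ^ (b + 1) := Nat.mul_lt_mul_of_pos_right h2 (by positivity)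
      _ = 2 ^ ((b + 1) * (u + 1)) := by
          rw [← pow_mul, ← pow_add]; congr 1; ring

theorem sp_param {q W : ℕ} (hq : 8 * q ≤ 2 ^ W) (ρ z : ℕ) (hz : z ≤ 2 ^ W) :
    ((z : ℝ) ^ 2 * (q / ((2 ^ (4 * W) : ℕ) : ℝ))) ^ (ρ * z + 1) ≤
      1 / 8 * (1 / (((2 ^ W) ^ ρ : ℕ) : ℝ)) ^ z := by
  set T : ℝ := 2 ^ W with hT
  have hT1 : 1 ≤ T := one_le_pow₀ (by norm_num)
  have hz' : (z : ℝ) ≤ T := by rw [hT]; exact_mod_cast hz
  have hq' : 8 * (q : ℝ) ≤ T := by rw [hT]; exact_mod_cast hq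
  have e1 : ((2 ^ (4 * W) : ℕ) : ℝ) = T ^ 4 := by rw [hT, ← pow_mul, mul_comm]; push_cast; rfl
  have e2 : (((2 ^ W) ^ ρ : ℕ) : ℝ) = T ^ ρ := by rw [hT]; push_cast; rfl
  rw [e1, e2]
  have h1 : (z : ℝ) ^ 2 * (q / T ^ 4) ≤ 1 / 8 * (1 / T) := by
    calc (z : ℝ) ^ 2 * (q / T ^ 4) ≤ T ^ 2 * ((T / 8) / T ^ 4) := by
          gcongr
          linarith
      _ = 1 / 8 * (1 / T) := by field_simp
  have h2 : 1 / T ≤ 1 := by rw [div_le_one (by linarith)]; exact hT1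
  have h3 : (0 : ℝ) ≤ 1 / T := by positivity
  calc _ ≤ (1 / 8 * (1 / T)) ^ (ρ * z + 1) := pow_le_pow_left₀ (by positivity) h1 _
    _ = (1 / 8 * (1 / T)) * (1 / 8 * (1 / T)) ^ (ρ * z) := by rw [pow_succ']
    _ ≤ (1 / 8) * (1 / T) ^ (ρ * z) := by
        gcongr
        · linarith
        · linarith
    _ = _ := by rw [pow_mul, one_div_pow]

theorem ip_param {q W : ℕ} (hq : 8 * q ≤ 2 ^ W) (hW : 17 ≤ W) (ρ : ℕ) (hρ : ρ ≤ W) (y e : ℕ)
    (hy : 2 ^ (5 * W) ≤ y) (he : y ^ 2 ≤ 8 * e) :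
    q * (1 - 1 / ((2 ^ (4 * W) : ℕ) : ℝ)) ^ e ≤ 1 / 8 * (1 / (((2 ^ W) ^ ρ : ℕ) : ℝ)) ^ y := by
  set P : ℕ := 2 ^ (4 * W) with hP
  have hP1 : 1 ≤ P := Nat.one_le_two_pow
  have hP' : (1 : ℝ) ≤ P := by exact_mod_cast hP1
  have h400 := sq_le_two_pow hW
  have hyP : 8 * P * (W ^ 2 + 1) ≤ y := by
    have h1 : 2 ^ (5 * W) = P * 2 ^ W := by rw [hP, ← pow_add]; congr 1; ring
    have h2 : 1 ≤ W ^ 2 := Nat.one_le_pow _ _ (by omega)
    have h3 : 8 * (W ^ 2 + 1) ≤ 2 ^ W := by omega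
    calc 8 * P * (W ^ 2 + 1) = P * (8 * (W ^ 2 + 1)) := by ring
      _ ≤ P * 2 ^ W := Nat.mul_le_mul_left _ h3
      _ ≤ y := by rw [← h1]; exact hy
  have heP : P * ((W ^ 2 + 1) * y) ≤ e := by nlinarith
  have hWy : W ≤ y := by nlinarith
  have h2e : (2 : ℝ) ≤ Real.exp 1 := by
    have := Real.add_one_le_exp 1
    linarith
  have h1 : (1 - 1 / (P : ℝ)) ^ e ≤ Real.exp (-(((W : ℝ) ^ 2 + 1) * y)) := by
    have h2 : (1 - 1 / (P : ℝ)) ≤ Real.exp (-(1 / P)) := by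
      have := Real.add_one_le_exp (-(1 / (P : ℝ)))
      linarith
    have h3 : 0 ≤ 1 - 1 / (P : ℝ) := by
      rw [sub_nonneg, div_le_one (by linarith)]; exact hP'
    refine (pow_le_pow_left₀ h3 h2 e).trans ?_
    rw [← Real.exp_nat_mul, Real.exp_le_exp, mul_neg, neg_le_neg_iff, mul_one_div,
      le_div_iff₀ (by linarith), mul_comm]
    exact_mod_cast heP
  have h4 : 8 * (q : ℝ) ≤ Real.exp y := by
    have h5 : 8 * (q : ℝ) ≤ 2 ^ y := by
      exact_mod_cast hq.trans (Nat.pow_le_pow_right (by norm_num) hWy)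
    refine h5.trans ?_
    rw [← Real.exp_one_pow]
    gcongr
  have h6 : (((2 ^ W) ^ ρ : ℕ) : ℝ) ^ y ≤ Real.exp ((W : ℝ) ^ 2 * y) := by
    have : ((W : ℝ) ^ 2 * y) = ((W * W * y : ℕ) : ℝ) := by push_cast; ring
    rw [this, ← Real.exp_one_pow]
    push_cast
    rw [← pow_mul, ← pow_mul]
    refine (pow_le_pow_right₀ (by norm_num) ?_).trans (pow_le_pow_left₀ (by norm_num) h2e _)
    rw [mul_assoc]
    gcongr
  have h7 : (0 : ℝ) < (((2 ^ W) ^ ρ : ℕ) : ℝ) ^ y := by positivity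
  rw [one_div_pow]
  calc (q : ℝ) * (1 - 1 / (P : ℝ)) ^ e ≤ (Real.exp y / 8) * Real.exp (-(((W : ℝ) ^ 2 + 1) * y)) := by
        have h3 : 0 ≤ 1 - 1 / (P : ℝ) := by
          rw [sub_nonneg, div_le_one (by linarith)]; exact hP'
        gcongr
        linarith
    _ = 1 / 8 * (1 / Real.exp ((W : ℝ) ^ 2 * y)) := by
        rw [one_div (Real.exp _), ← Real.exp_neg, div_mul_eq_mul_div, ← Real.exp_add,
          show (y : ℝ) + -(((W : ℝ) ^ 2 + 1) * y) = -((W : ℝ) ^ 2 * y) by ring]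
        ring
    _ ≤ _ := by gcongr

/-- Parametric form of the lower bound. -/
theorem param2 (r W E n : ℕ) (hW : 4 * (r + 1) ≤ W) (hW' : 17 ≤ W) (hE : 1 ≤ E) (hEW : E ≤ W)
    (hWE : W ^ E ≤ 2 ^ W) (hn : Even n) (hnW : 2 ^ ((2 * (r ^ 2 + 4 * r + 13) + 2) * W) ≤ n) :
    ∃ M : SimpleGraph (Fin n), (∀ v, ∃! w, M.Adj v w) ∧
      ∀ N : ℕ, N ≤ 2 ^ (W ^ 2 * E ^ r) →
        ∃ col : Fin N → Fin N → Fin (r + 2), ¬ ∃ f : Fin n → Fin N, StrictMono f ∧
          ∃ c : Fin (r + 2), ∀ a b : Fin n, a < b → M.Adj a b → col (f a) (f b) = c := by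
  set A := r ^ 2 + 4 * r + 13 with hA
  set x := 2 ^ (A * W) with hx
  have hx1 : 1 ≤ x := Nat.one_le_two_pow
  obtain ⟨l, hl⟩ : ∃ l, 2 * x = l + 2 := ⟨2 * x - 2, by omega⟩
  have hsq : (l + 2) * (l + 2) ≤ n := by
    refine le_trans ?_ hnW
    rw [← hl, hx]
    calc 2 * 2 ^ (A * W) * (2 * 2 ^ (A * W)) = 2 ^ (2 * (A * W) + 2) := by ring
      _ ≤ _ := Nat.pow_le_pow_right (by norm_num) (by nlinarith)
  have hev : Even (l + 2) := by rw [← hl]; exact even_two_mul _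
  obtain ⟨p, rfl⟩ : ∃ p, n = (l + 2) * (l + 2) + 2 * p := by
    obtain ⟨d, rfl⟩ := Nat.exists_eq_add_of_le hsq
    have hd : Even d := (Nat.even_add.1 hn).1 (hev.mul_right _)
    obtain ⟨p, rfl⟩ := hd
    exact ⟨p, by ring⟩
  obtain ⟨M, hM, emb, he1, he2, he3⟩ := exists_matching (l + 2) p hev
  have h400 := sq_le_two_pow hW'
  have hq : 8 * (r + 2) ≤ 2 ^ W := by nlinarith
  have ht : 2 ≤ 2 ^ W := by omega
  obtain ⟨Fb, hF1, hF2, hF3⟩ := stage0 (2 ^ W) (r + 2) (2 ^ (4 * W)) (2 ^ W) (2 ^ (5 * W)) W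
    (by omega) (by omega)
    (le_trans (by omega) (Nat.pow_le_pow_right (by norm_num) (by omega : W ≤ 4 * W)))
    (by omega) h400 (Nat.pow_le_pow_right (by norm_num) (by omega))
    (fun ρ _ z hz => sp_param hq ρ z hz) (fun ρ hρ y e hy he => ip_param hq hW' ρ hρ y e hy he)
  have hEr : E ^ r ≤ W ^ r := Nat.pow_le_pow_left hEW r
  obtain ⟨col, hcol⟩ := core2 r (2 ^ W) E W (2 ^ (5 * W) * 64 ^ W) (W ^ (r + 3)) l (W * E ^ r)
    ht hE (by omega) le_rfl Fb hF1 hF2 hF3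
    (count_param2 hW (by
      rw [← pow_mul]
      refine Nat.pow_le_pow_right (by norm_num) ?_
      calc W * (W * E ^ r) ≤ W * (W * W ^ r) := by gcongr
        _ = W ^ (r + 2) := by ring)) (by
      have h1 : W * E ^ r ≤ 2 ^ (W * (r + 1)) := by
        calc W * E ^ r ≤ W * W ^ r := by gcongr
          _ = W ^ (r + 1) := by ring
          _ ≤ (2 ^ W) ^ (r + 1) := Nat.pow_le_pow_left Nat.lt_two_pow_self.le _
          _ = _ := by rw [← pow_mul]
      have h2 : (W ^ (r + 3)) ^ (E * r) ≤ 2 ^ (W * ((r + 3) * r)) := by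
        calc (W ^ (r + 3)) ^ (E * r) = (W ^ E) ^ ((r + 3) * r) := by
              rw [← pow_mul, ← pow_mul]; congr 1; ring
          _ ≤ (2 ^ W) ^ ((r + 3) * r) := Nat.pow_le_pow_left hWE _
          _ = _ := by rw [← pow_mul]
      have h3 : W * E ^ r * (2 ^ W * (2 ^ (5 * W) * 64 ^ W * (W ^ (r + 3)) ^ (E * r))) ≤ x := by
        calc _ ≤ 2 ^ (W * (r + 1)) * (2 ^ W * (2 ^ (5 * W) * 64 ^ W * 2 ^ (W * ((r + 3) * r)))) := by
              gcongr
          _ = x := by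
              rw [hx, show (64 : ℕ) = 2 ^ 6 by norm_num, ← pow_mul, ← pow_add, ← pow_add,
                ← pow_add, ← pow_add, hA]
              congr 1; ring
      omega)
  refine ⟨M, hM, fun N hN => ⟨fun a b => col a b, ?_⟩⟩
  rintro ⟨f, hf, c, hc⟩
  refine hcol (fun i j => f (emb i j)) ?_ ?_ ?_ c ?_
  · intro i j
    rw [← pow_mul, ← mul_assoc, ← sq]
    exact lt_of_lt_of_le (f _).2 hN
  · intro i j j' h
    exact hf (he1 i h)
  · intro i i' j j' h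
    exact hf (he2 i i' j j' h)
  · intro i j h
    exact hc _ _ (he2 i j j i h) (he3 i j h.ne)

theorem log_nat_le {n : ℕ} (hn : 3 ≤ n) : ((Nat.log 2 n + 1 : ℕ) : ℝ) ≤ 3 * Real.log n := by
  have hn' : (3 : ℝ) ≤ n := by exact_mod_cast hn
  have h1 : (2 : ℝ) ^ Nat.log 2 n ≤ n := by exact_mod_cast Nat.pow_log_le_self 2 (by omega)
  have h2 := Real.log_le_log (by positivity) h1
  rw [Real.log_pow] at h2
  have h3 := Real.log_two_gt_d9
  have h4 : 1 ≤ Real.log n := by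
    rw [Real.le_log_iff_exp_le (by linarith)]
    have := Real.exp_one_lt_d9
    linarith
  have h5 : (0 : ℝ) ≤ Nat.log 2 n := Nat.cast_nonneg _
  push_cast
  nlinarith

theorem lower_asym (r : ℕ) :
    ∃ c : ℝ, 0 < c ∧ ∃ n₀ : ℕ, ∀ n : ℕ, n₀ ≤ n → Even n →
      ∃ M : SimpleGraph (Fin n), (∀ v, ∃! w, M.Adj v w) ∧
        ∀ N : ℕ, (N : ℝ) ≤ (n : ℝ) ^ (c * (Real.log n ^ (r + 1) / Real.log (Real.log n) ^ r)) →
          ∃ col : Fin N → Fin N → Fin (r + 2), ¬ ∃ f : Fin n → Fin N, StrictMono f ∧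
            ∃ i : Fin (r + 2), ∀ a b : Fin n, a < b → M.Adj a b → col (f a) (f b) = i := by
  set A := 2 * (r ^ 2 + 4 * r + 13) + 2 with hA
  have hA2 : 2 ≤ A := by omega
  have hA' : (2 : ℝ) ≤ A := by exact_mod_cast hA2
  refine ⟨1 / (8 * (A : ℝ) ^ 2 * (12 * A) ^ r), by positivity, 2 ^ (A * (4 * r + 17)), ?_⟩
  intro n hn hev
  have hn0 : n ≠ 0 := by
    have : 1 ≤ 2 ^ (A * (4 * r + 17)) := Nat.one_le_two_pow
    omega
  set W := Nat.log 2 n / A with hW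
  have hW1 : 4 * r + 17 ≤ W := by
    rw [hW, Nat.le_div_iff_mul_le (by omega), mul_comm]
    exact Nat.le_log_of_pow_le (by norm_num) hn
  have hnW : 2 ^ (A * W) ≤ n :=
    (Nat.pow_le_pow_right (by norm_num) (Nat.mul_div_le _ _)).trans (Nat.pow_log_le_self 2 hn0)
  have hnW2 : n ≤ 2 ^ (2 * A * W) := by
    refine (Nat.lt_pow_succ_log_self (by norm_num : 1 < 2) n).le.trans
      (Nat.pow_le_pow_right (by norm_num) ?_)
    have : Nat.log 2 n < A * (W + 1) := Nat.lt_mul_div_succ _ (by omega)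
    nlinarith
  set G := Nat.log 2 W + 1 with hG
  have hGW : G ≤ W := Nat.log_lt_self 2 (by omega)
  set E := W / G with hE
  have hE1 : 1 ≤ E := (Nat.one_le_div_iff (Nat.succ_pos _)).2 hGW
  have hWE : W ^ E ≤ 2 ^ W := by
    calc W ^ E ≤ (2 ^ G) ^ E :=
          Nat.pow_le_pow_left (Nat.lt_pow_succ_log_self (by norm_num : 1 < 2) W).le _
      _ = 2 ^ (G * E) := by rw [← pow_mul]
      _ ≤ 2 ^ W := Nat.pow_le_pow_right (by norm_num) (Nat.mul_div_le _ _)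
  obtain ⟨M, hM, hcol⟩ := param2 r W E n (by omega) (by omega) hE1 (Nat.div_le_self _ _) hWE hev hnW
  refine ⟨M, hM, fun N hN => hcol N ?_⟩
  have hnpos : (0 : ℝ) < n := by exact_mod_cast Nat.pos_of_ne_zero hn0
  have hW' : (17 : ℝ) ≤ W := by exact_mod_cast (by omega : 17 ≤ W)
  have hl2 := Real.log_two_gt_d9
  have hl2' := Real.log_two_lt_d9
  set x := Real.log n with hx
  have hxlow : (W : ℝ) ≤ x := by
    have h1 : (2 : ℝ) ^ (A * W) ≤ n := by exact_mod_cast hnW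
    have h2 := Real.log_le_log (by positivity) h1
    rw [Real.log_pow] at h2
    push_cast at h2
    have h3 : 2 * (W : ℝ) ≤ A * W := by nlinarith
    nlinarith
  have hxup : x ≤ 2 * A * W := by
    have h1 : (n : ℝ) ≤ 2 ^ (2 * A * W) := by exact_mod_cast hnW2
    have h2 := Real.log_le_log hnpos h1
    rw [Real.log_pow] at h2
    push_cast at h2
    have h3 : (0 : ℝ) ≤ 2 * A * W := by positivity
    nlinarith
  have hlW : 0 < Real.log W := Real.log_pos (by linarith)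
  have hlx : Real.log W ≤ Real.log x := Real.log_le_log (by linarith) hxlow
  have hratio : x / Real.log x ≤ 12 * A * E := by
    have h1 : W < G * (E + 1) := Nat.lt_mul_div_succ _ (Nat.succ_pos _)
    have h2 : (W : ℝ) ≤ G * (2 * E) := by exact_mod_cast (by nlinarith : W ≤ G * (2 * E))
    have h3 : (G : ℝ) ≤ 3 * Real.log x := (log_nat_le (by omega : 3 ≤ W)).trans (by linarith)
    rw [div_le_iff₀ (by linarith)]
    calc x ≤ 2 * A * W := hxup
      _ ≤ 2 * A * (3 * Real.log x * (2 * E)) := by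
          gcongr
          exact h2.trans (by gcongr)
      _ = _ := by ring
  have hr0 : 0 ≤ x / Real.log x := div_nonneg (by linarith) (by linarith)
  have key : (n : ℝ) ^ (1 / (8 * (A : ℝ) ^ 2 * (12 * A) ^ r) * (x ^ (r + 1) / Real.log x ^ r)) ≤
      ((2 ^ (W ^ 2 * E ^ r) : ℕ) : ℝ) := by
    rw [Real.rpow_def_of_pos hnpos, ← hx]
    have : ((2 ^ (W ^ 2 * E ^ r) : ℕ) : ℝ) = Real.exp ((W : ℝ) ^ 2 * E ^ r * Real.log 2) := by
      rw [mul_comm _ (Real.log 2), Real.exp_mul, Real.exp_log (by norm_num)]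
      rw [← Nat.cast_pow, ← Nat.cast_pow, ← Nat.cast_mul, Real.rpow_natCast]
      push_cast; rfl
    rw [this, Real.exp_le_exp]
    calc x * (1 / (8 * (A : ℝ) ^ 2 * (12 * A) ^ r) * (x ^ (r + 1) / Real.log x ^ r))
        = 1 / (8 * (A : ℝ) ^ 2 * (12 * A) ^ r) * (x ^ 2 * (x / Real.log x) ^ r) := by
          rw [div_pow]; ring
      _ ≤ 1 / (8 * (A : ℝ) ^ 2 * (12 * A) ^ r) * ((2 * A * W) ^ 2 * (12 * A * E) ^ r) := by
          gcongr
      _ = (W : ℝ) ^ 2 * E ^ r * (1 / 2) := by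
          rw [mul_pow (12 * (A : ℝ))]
          field_simp
          ring
      _ ≤ _ := by
          gcongr
          linarith
  exact_mod_cast hN.trans key

theorem upper_asym (r : ℕ) :
    ∃ C : ℝ, 0 < C ∧ ∃ n₀ : ℕ, ∀ n : ℕ, n₀ ≤ n → ∃ N₀ : ℕ,
      (N₀ : ℝ) ≤ (n : ℝ) ^ (C * (Real.log n ^ (r + 1) / Real.log (Real.log n) ^ r)) ∧
      ∀ M : SimpleGraph (Fin n), (∀ v w w', M.Adj v w → M.Adj v w' → w = w') →
        ∀ N : ℕ, N₀ ≤ N → ∀ col : Sym2 (Fin N) → Fin (r + 2), ∃ f : Fin n → Fin N, StrictMono f ∧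
          ∃ i : Fin (r + 2), ∀ a b : Fin n, M.Adj a b → col s(f a, f b) = i := by
  have ht : Filter.Tendsto (fun n : ℕ => Real.log (Real.log n)) Filter.atTop Filter.atTop :=
    Real.tendsto_log_atTop.comp (Real.tendsto_log_atTop.comp tendsto_natCast_atTop_atTop)
  obtain ⟨n₀, hn₀⟩ := Filter.eventually_atTop.1
    ((ht.eventually_ge_atTop 3).and (Filter.eventually_ge_atTop 3))
  refine ⟨54 * 12 ^ r, by positivity, n₀, fun n hn => ?_⟩
  obtain ⟨h3, hn3⟩ := hn₀ n hn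
  have hnpos : (0 : ℝ) < n := by exact_mod_cast (by omega : 0 < n)
  set x := Real.log n with hx
  have hx0 : 0 < x := Real.log_pos (by exact_mod_cast (by omega : 1 < n))
  set z := Real.log x with hz
  have hzx : z ≤ x := by
    have := Real.log_le_sub_one_of_pos hx0
    linarith
  set L := Nat.log 2 n + 1 with hL
  set E := ⌈2 * x / z⌉₊ with hE
  have hw1 : 1 ≤ x / z := by rw [le_div_iff₀ (by linarith)]; linarith
  have hE1 : 2 * (x / z) ≤ E := by rw [← mul_div_assoc]; exact Nat.le_ceil _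
  have hE2 : (E : ℝ) ≤ 3 * (x / z) := by
    have := Nat.ceil_lt_add_one (show 0 ≤ 2 * x / z by positivity)
    rw [mul_div_assoc] at this
    rw [hE, mul_div_assoc]
    linarith
  have hnL : n ≤ 2 ^ L := (Nat.lt_pow_succ_log_self (by norm_num : 1 < 2) n).le
  have hl2' := Real.log_two_lt_d9
  have hxL : x ≤ L := by
    have h1 : (n : ℝ) ≤ 2 ^ L := by exact_mod_cast hnL
    have h2 := Real.log_le_log hnpos h1
    rw [Real.log_pow] at h2
    have : (0 : ℝ) ≤ L := Nat.cast_nonneg _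
    nlinarith
  have hEL : E ≤ L := by
    have : 3 * (x / z) ≤ x := by
      rw [← mul_div_assoc, div_le_iff₀ (by linarith)]
      nlinarith
    exact_mod_cast (hE2.trans this).trans hxL
  have hnE : n ≤ E ^ E := by
    have h1 : Real.log (2 * (x / z)) ≤ Real.log E := Real.log_le_log (by linarith) hE1
    have h2 : Real.log (2 * (x / z)) = z - Real.log (z / 2) := by
      rw [show 2 * (x / z) = x / (z / 2) by field_simp, Real.log_div hx0.ne' (by linarith)]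
    have h4 := Real.log_le_sub_one_of_pos (show 0 < z / 2 by linarith)
    have h5 : z / 2 ≤ Real.log E := by linarith
    have h6 : x ≤ E * Real.log E := by
      calc x = 2 * (x / z) * (z / 2) := by field_simp
        _ ≤ _ := mul_le_mul hE1 h5 (by linarith) (Nat.cast_nonneg _)
    have hEpos : (0 : ℝ) < E := by linarith
    rw [← Real.log_pow, hx, Real.log_le_log_iff hnpos (by positivity)] at h6
    exact_mod_cast h6
  refine ⟨2 ^ (6 * L ^ 2 * (4 * E) ^ r), ?_, fun M hM N hN col =>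
    upper_param (by omega) hnL hnE (by exact_mod_cast (by linarith : (2 : ℝ) ≤ E)) hEL M hM N hN col⟩
  have hL3 : (L : ℝ) ≤ 3 * x := log_nat_le hn3
  rw [Real.rpow_def_of_pos hnpos, ← hx]
  have h2e : (2 : ℝ) ≤ Real.exp 1 := by
    have := Real.add_one_le_exp 1
    linarith
  push_cast
  refine (pow_le_pow_left₀ (by norm_num) h2e _).trans ?_
  rw [Real.exp_one_pow, Real.exp_le_exp]
  push_cast
  calc 6 * (L : ℝ) ^ 2 * (4 * E) ^ r ≤ 6 * (3 * x) ^ 2 * (4 * (3 * (x / z))) ^ r := by gcongr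
    _ = _ := by
        rw [← mul_assoc 4, mul_pow (4 * 3 : ℝ), div_pow]
        norm_num
        ring

end Pool.Agent.P.MP_cf6cc5_co
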