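import Mathlib
import Pool.Agent.P.MP_cf6cc5_co.TParam
import Pool.Agent.P.MP_cf6cc5_co.CCore

set_option autoImplicit false

namespace Pool.Agent.P.MP_cf6cc5_co

open Finset

theorem ip_param2 {q V K : ℕ} (hq : 8 * q ≤ 2 ^ V) (hK : 16 * (K * V + 2) ≤ 2 ^ V) (ρ : ℕ)
    (hρ : ρ ≤ K) (y e : ℕ) (hy : 2 ^ (5 * V) ≤ y) (he : y ^ 2 ≤ 16 * e) :
    q * (1 - 1 / ((2 ^ (4 * V) : ℕ) : ℝ)) ^ e ≤
      1 / 8 * (1 / (2 * (((2 ^ V) ^ ρ : ℕ) : ℝ))) ^ y := by
  set P : ℕ := 2 ^ (4 * V) with hP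
  have hP1 : 1 ≤ P := Nat.one_le_two_pow
  have hP' : (1 : ℝ) ≤ P := by exact_mod_cast hP1
  have h51 : 2 ^ (5 * V) = P * 2 ^ V := by rw [hP, ← pow_add]; congr 1; ring
  have hyP : 16 * P * (K * V + 2) ≤ y := by
    calc 16 * P * (K * V + 2) = P * (16 * (K * V + 2)) := by ring
      _ ≤ P * 2 ^ V := Nat.mul_le_mul_left _ hK
      _ ≤ y := by rw [← h51]; exact hy
  have heP : P * ((K * V + 2) * y) ≤ e := by nlinarith
  have hWy : V ≤ y := by
    have h1 : V < 2 ^ V := Nat.lt_two_pow_self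
    have h2 : 1 * 2 ^ V ≤ P * 2 ^ V := Nat.mul_le_mul_right _ hP1
    omega
  have h2e : (2 : ℝ) ≤ Real.exp 1 := by
    have := Real.add_one_le_exp 1
    linarith
  have h3 : 0 ≤ 1 - 1 / (P : ℝ) := by
    rw [sub_nonneg, div_le_one (by linarith)]; exact hP'
  have h1 : (1 - 1 / (P : ℝ)) ^ e ≤ Real.exp (-(((K : ℝ) * V + 2) * y)) := by
    have h2 : (1 - 1 / (P : ℝ)) ≤ Real.exp (-(1 / P)) := by
      have := Real.add_one_le_exp (-(1 / (P : ℝ)))
      linarith
    refine (pow_le_pow_left₀ h3 h2 e).trans ?_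
    rw [← Real.exp_nat_mul, Real.exp_le_exp, mul_neg, neg_le_neg_iff, mul_one_div,
      le_div_iff₀ (by linarith), mul_comm]
    exact_mod_cast heP
  have h4 : 8 * (q : ℝ) ≤ Real.exp y := by
    have h5 : 8 * (q : ℝ) ≤ 2 ^ y := by
      exact_mod_cast hq.trans (Nat.pow_le_pow_right (by norm_num) hWy)
    refine h5.trans ?_
    rw [← Real.exp_one_pow]
    gcongr
  have h6 : (2 * (((2 ^ V) ^ ρ : ℕ) : ℝ)) ^ y ≤ Real.exp (((K : ℝ) * V + 1) * y) := by
    have : (((K : ℝ) * V + 1) * y) = (((K * V + 1) * y : ℕ) : ℝ) := by push_cast; ring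
    rw [this, ← Real.exp_one_pow]
    push_cast
    rw [← pow_mul, ← pow_succ', ← pow_mul]
    refine (pow_le_pow_right₀ (by norm_num) ?_).trans (pow_le_pow_left₀ (by norm_num) h2e _)
    refine Nat.mul_le_mul_right _ (Nat.succ_le_succ ?_)
    rw [mul_comm K V]
    exact Nat.mul_le_mul_left _ hρ
  have h7 : (0 : ℝ) < (2 * (((2 ^ V) ^ ρ : ℕ) : ℝ)) ^ y := by positivity
  rw [one_div_pow]
  calc (q : ℝ) * (1 - 1 / (P : ℝ)) ^ e
      ≤ (Real.exp y / 8) * Real.exp (-(((K : ℝ) * V + 2) * y)) := by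
        gcongr
        linarith
    _ = 1 / 8 * (1 / Real.exp (((K : ℝ) * V + 1) * y)) := by
        rw [one_div (Real.exp _), ← Real.exp_neg, div_mul_eq_mul_div, ← Real.exp_add,
          show (y : ℝ) + -(((K : ℝ) * V + 2) * y) = -(((K : ℝ) * V + 1) * y) by ring]
        ring
    _ ≤ _ := by gcongr

/-- Parametric form of the lower bound for graphs with grouped blocks. -/
theorem param3 (r W V E G L : ℕ) (hW : 10 ≤ W) (hr : r ≤ W) (hWV : W ≤ V) (hE : 1 ≤ E)
    (hEW : E ≤ W) (hWE : W ^ E ≤ 2 ^ W) (hV : 400 * V ^ (2 * r + 2) ≤ 2 ^ V)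
    (hG : 2 ^ ((2 * r ^ 2 + 5 * r + 8) * W) < G) (hL : 2 ^ (7 * V) < L)
    {n : ℕ} (M : SimpleGraph (Fin n)) (lo hi : Fin G → Fin L → Fin n)
    (h1 : ∀ g i, lo g i < hi g i) (h2 : ∀ g i i', i < i' → hi g i ≤ lo g i')
    (h3 : ∀ g g' i i', g < g' → hi g i ≤ lo g' i')
    (h4 : ∀ g g' i i', g < g' → ∃ x y, lo g i ≤ x ∧ x ≤ hi g i ∧ lo g' i' ≤ y ∧ y ≤ hi g' i' ∧
      M.Adj x y) (N : ℕ) (hN : N ≤ 2 ^ (V * W * E ^ r)) :
    ∃ col : Sym2 (Fin N) → Fin (r + 2), ¬ ∃ f : Fin n → Fin N, StrictMono f ∧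
      ∃ c : Fin (r + 2), ∀ a b : Fin n, M.Adj a b → col s(f a, f b) = c := by
  set k := W * E ^ r with hk
  have hk1 : W ≤ k := Nat.le_mul_of_pos_right _ (Nat.one_le_pow _ _ hE)
  have hkW : k ≤ W ^ (r + 1) := by
    calc k ≤ W * W ^ r := Nat.mul_le_mul_left _ (Nat.pow_le_pow_left hEW r)
      _ = _ := by ring
  have hkV : k ≤ V ^ (r + 1) := hkW.trans (Nat.pow_le_pow_left hWV _)
  have hk2 : k ^ 2 ≤ V ^ (2 * r + 2) := by
    calc k ^ 2 ≤ (V ^ (r + 1)) ^ 2 := Nat.pow_le_pow_left hkV _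
      _ = _ := by rw [← pow_mul]; congr 1; ring
  have hk3 : k * V ≤ V ^ (2 * r + 2) := by
    calc k * V ≤ V ^ (r + 1) * V := Nat.mul_le_mul_right _ hkV
      _ = V ^ (r + 2) := by ring
      _ ≤ _ := Nat.pow_le_pow_right (by omega) (by omega)
  have hk4 : 400 * k ^ 2 ≤ 2 ^ V := by omega
  have hk5 : k ≤ k ^ 2 := by nlinarith
  have hk6 : 16 * (k * V + 2) ≤ 2 ^ V := by omega
  have hq : 8 * (r + 2) ≤ 2 ^ V := by omega
  have ht : 2 ≤ 2 ^ V := by omega
  have hW2 : W ^ 2 ≤ k ^ 2 := Nat.pow_le_pow_left hk1 _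
  have hP : r + 2 ≤ 2 ^ (4 * V) :=
    le_trans (by omega) (Nat.pow_le_pow_right (by norm_num) (by omega : V ≤ 4 * V))
  have hm : 2 ^ V ≤ 2 ^ (5 * V) := Nat.pow_le_pow_right (by norm_num) (by omega)
  obtain ⟨Fa, hA1, hA2, hA3⟩ := stageA (2 ^ V) (r + 2) (2 ^ (4 * V)) (2 ^ V) (16 * 2 ^ (5 * V)) W
    (by omega) (by omega) hP (by omega) (by omega) (by omega)
    (fun ρ _ z hz => sp_param hq ρ z hz)
    (fun ρ hρ y e hy he => ip_param2 hq hk6 ρ (by omega) y e (by omega) he)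
  have hB := fun i : ℕ => stageB (2 ^ V) (r + 2) (2 ^ (4 * V)) (2 ^ V) (16 * 2 ^ (5 * V)) k
    (W * E ^ i) (by omega) (by omega) hP (by omega) hk4 (by omega)
    (fun z hz => sp_param hq k z hz)
    (fun y e hy he => ip_param2 hq hk6 k le_rfl y e (by omega) he)
  choose Fb hB1 hB2 using hB
  obtain ⟨col, hcol⟩ := core3 r (2 ^ V) E W (2 ^ (5 * V)) k G L ht (by omega) le_rfl
    Nat.one_le_two_pow Fa hA1 hA2 hA3 Fb hB1 hB2 (by
      refine lt_of_le_of_lt ?_ hG
      have e1 : k ≤ 2 ^ (W * (r + 1)) := by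
        calc k ≤ W ^ (r + 1) := hkW
          _ ≤ (2 ^ W) ^ (r + 1) := Nat.pow_le_pow_left Nat.lt_two_pow_self.le _
          _ = _ := by rw [← pow_mul]
      have e2 : 100 * k ^ 2 ≤ W ^ (2 * r + 4) := by
        calc 100 * k ^ 2 ≤ W ^ 2 * (W ^ (r + 1)) ^ 2 :=
              Nat.mul_le_mul (by nlinarith) (Nat.pow_le_pow_left hkW _)
          _ = _ := by ring
      have e3 : (100 * k ^ 2) ^ (E * r) ≤ 2 ^ (W * ((2 * r + 4) * r)) := by
        calc (100 * k ^ 2) ^ (E * r) ≤ (W ^ (2 * r + 4)) ^ (E * r) := Nat.pow_le_pow_left e2 _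
          _ = (W ^ E) ^ ((2 * r + 4) * r) := by
              rw [← pow_mul, ← pow_mul]; congr 1; ring
          _ ≤ (2 ^ W) ^ ((2 * r + 4) * r) := Nat.pow_le_pow_left hWE _
          _ = _ := by rw [← pow_mul]
      have e4 : 16 ≤ 2 ^ W :=
        le_trans (by norm_num) (Nat.pow_le_pow_right (by norm_num) (by omega : 4 ≤ W))
      calc _ ≤ 2 ^ (W * (r + 1)) * (2 ^ W * 64 ^ W * 2 ^ (W * ((2 * r + 4) * r))) := by gcongr
        _ = _ := by
            rw [show (64 : ℕ) = 2 ^ 6 by norm_num, ← pow_mul, ← pow_add, ← pow_add, ← pow_add]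
            congr 1; ring) (by
      refine lt_of_le_of_lt ?_ hL
      calc k * (2 ^ V * 2 ^ (5 * V)) ≤ 2 ^ V * (2 ^ V * 2 ^ (5 * V)) :=
            Nat.mul_le_mul_right _ (by omega)
        _ = _ := by rw [← pow_add, ← pow_add]; congr 1; ring)
  refine ⟨Sym2.lift ⟨fun x y => col (min x y : Fin N) (max x y : Fin N), fun x y => by
    simp only [min_comm, max_comm]⟩, ?_⟩
  rintro ⟨f, hf, c, hc⟩
  refine hcol (fun g i => f (lo g i)) (fun g i => f (hi g i)) ?_ ?_ ?_ c ?_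
  · intro g i
    refine ⟨hf (h1 g i), ?_⟩
    rw [← pow_mul, hk, ← mul_assoc]
    exact lt_of_lt_of_le (f _).2 hN
  · intro g i i' h
    exact hf.monotone (h2 g i i' h)
  · intro g g' i i' h
    exact hf.monotone (h3 g g' i i' h)
  · intro g g' i i' h
    obtain ⟨x, y, e1, e2, e3, e4, e5⟩ := h4 g g' i i' h
    refine ⟨f x, f y, hf.monotone e1, hf.monotone e2, hf.monotone e3, hf.monotone e4, ?_⟩
    have hle : f x ≤ f y := hf.monotone (e2.trans ((h3 g g' i i' h).trans e3))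
    have := hc x y e5
    simp only [Sym2.lift_mk, min_eq_left hle, max_eq_right hle] at this
    exact this

theorem rev_div {G L i : ℕ} (hi : i < G * L) : (G * L - (i + 1)) / L + i / L + 1 = G := by
  have hL : 0 < L := Nat.pos_of_ne_zero fun h => by simp [h] at hi
  have h1 : i / L < G := (Nat.div_lt_iff_lt_mul hL).2 hi
  obtain ⟨d, rfl⟩ := Nat.exists_eq_add_of_lt h1
  have h2 := Nat.div_add_mod i L
  have h3 := Nat.mod_lt i hL
  have h4 : ((i / L + d + 1) * L - (i + 1)) / L = d := by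
    have h5 : (i / L + d + 1) * L = L * (i / L) + d * L + L := by ring
    refine Nat.div_eq_of_lt_le ?_ ?_
    · omega
    · rw [add_mul d 1 L]; omega
  omega

/-- A perfect matching with few intervals and an edge between blocks of different groups. -/
theorem exists_matchingI (G L p k : ℕ) (hG : Even G) (hGL : 2 ≤ G * L) (hk : G + 2 ≤ k) :
    ∃ M : SimpleGraph (Fin (G * L * (G * L) + 2 * p)), (∀ v, ∃! w, M.Adj v w) ∧
      (∃ ι : Fin (G * L * (G * L) + 2 * p) → Fin k, Monotone ι ∧ ∀ a b, M.Adj a b → ι a ≠ ι b) ∧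
      ∃ lo hi : Fin G → Fin L → Fin (G * L * (G * L) + 2 * p), (∀ g i, lo g i < hi g i) ∧
        (∀ g i i', i < i' → hi g i ≤ lo g i') ∧ (∀ g g' i i', g < g' → hi g i ≤ lo g' i') ∧
        ∀ g g' i i', g < g' → ∃ x y, lo g i ≤ x ∧ x ≤ hi g i ∧ lo g' i' ≤ y ∧ y ≤ hi g' i' ∧
          M.Adj x y := by
  set m := G * L with hm
  have hL : 0 < L := Nat.pos_of_ne_zero fun h => by simp [h] at hm; omega
  let e : (Fin m × Fin m) ⊕ Fin (2 * p) ≃ Fin (m * m + 2 * p) :=
    (Equiv.sumCongr finProdFinEquiv (Equiv.refl _)).trans finSumFinEquiv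
  let τ : (Fin m × Fin m) ⊕ Fin (2 * p) → (Fin m × Fin m) ⊕ Fin (2 * p) := fun s =>
    match s with
    | Sum.inl (i, j) => if (i : ℕ) / L = j / L then Sum.inl (i.rev, j.rev) else Sum.inl (j, i)
    | Sum.inr u => Sum.inr u.rev
  have hrev : ∀ i : Fin m, (i.rev : ℕ) / L + i / L + 1 = G := fun i => by
    rw [Fin.val_rev]; exact rev_div i.2
  have hτ : ∀ s, τ (τ s) = s := by
    rintro (⟨i, j⟩ | u)
    · by_cases h : (i : ℕ) / L = j / L
      · have h' : (i.rev : ℕ) / L = j.rev / L := by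
          have := hrev i
          have := hrev j
          omega
        simp only [τ, if_pos h, if_pos h', Fin.rev_rev]
      · simp only [τ, if_neg h, if_neg (Ne.symm h)]
    · simp [τ]
  let ι0 : ℕ → ℕ := fun v => if v < m * m then v / m / L else if v < m * m + p then G else G + 1
  have hlow : ∀ v, v < m * m → v / m / L < G := fun v hv =>
    (Nat.div_lt_iff_lt_mul hL).2 ((Nat.div_lt_iff_lt_mul (by omega)).2 hv)
  have hι0 : ∀ v, ι0 v < k := by
    intro v
    simp only [ι0]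
    split_ifs with h1 h2
    · have := hlow v h1
      omega
    · omega
    · omega
  have hval : ∀ i j : Fin m, (e (Sum.inl (i, j)) : ℕ) = j + m * i := by
    intro i j
    simp [e]
  have hval2 : ∀ u : Fin (2 * p), (e (Sum.inr u) : ℕ) = m * m + u := by
    intro u
    simp [e]
  have hιl : ∀ i j : Fin m, ι0 (e (Sum.inl (i, j))) = i / L := by
    intro i j
    have h1 : (j : ℕ) + m * i < m * m := by
      have h2 : m * ((i : ℕ) + 1) ≤ m * m := Nat.mul_le_mul_left _ i.2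
      have := j.2
      rw [mul_add, mul_one] at h2
      omega
    simp only [ι0, hval, if_pos h1]
    rw [Nat.add_mul_div_left _ _ (by omega), Nat.div_eq_of_lt j.2, zero_add]
  have hτ' : ∀ s, ι0 (e s) ≠ ι0 (e (τ s)) := by
    rintro (⟨i, j⟩ | u)
    · by_cases h : (i : ℕ) / L = j / L
      · simp only [τ, if_pos h, hιl]
        have := hrev i
        obtain ⟨a, ha⟩ := hG
        omega
      · simp only [τ, if_neg h, hιl]
        exact h
    · simp only [τ, ι0, hval2, Fin.val_rev]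
      have := u.2
      split_ifs <;> omega
  let M : SimpleGraph (Fin (m * m + 2 * p)) :=
    { Adj := fun v w => τ (e.symm v) = e.symm w
      symm := ⟨fun v w h => by rw [← h, hτ]⟩
      loopless := ⟨fun v h => hτ' (e.symm v) (by rw [h])⟩ }
  let blk : Fin G → Fin L → Fin m := fun g i => finProdFinEquiv (g, i)
  have hblk : ∀ g i, (blk g i : ℕ) = i + L * g := fun g i => by simp [blk]
  have hblk2 : ∀ g i, (blk g i : ℕ) / L = g := fun g i => by
    rw [hblk, Nat.add_mul_div_left _ _ hL, Nat.div_eq_of_lt i.2, zero_add]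
  have hord : ∀ b b' j j' : Fin m, (b : ℕ) < b' → e (Sum.inl (b, j)) ≤ e (Sum.inl (b', j')) := by
    intro b b' j j' h
    rw [Fin.le_def, hval, hval]
    have h2 := j.2
    have h3 : m * ((b : ℕ) + 1) ≤ m * b' := Nat.mul_le_mul_left _ h
    rw [mul_add, mul_one] at h3
    omega
  refine ⟨M, ?_, ⟨fun v => ⟨ι0 v, hι0 v⟩, ?_, ?_⟩,
    fun g i => e (Sum.inl (blk g i, ⟨0, by omega⟩)),
    fun g i => e (Sum.inl (blk g i, ⟨m - 1, by omega⟩)), ?_, ?_, ?_, ?_⟩
  · intro v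
    refine ⟨e (τ (e.symm v)), by simp [M], ?_⟩
    intro w hw
    simp only [M] at hw
    rw [hw]; simp
  · intro v w hvw
    rw [Fin.le_def] at hvw ⊢
    simp only [ι0]
    have h1 := hlow v
    have h2 : (v : ℕ) / m / L ≤ w / m / L := Nat.div_le_div_right (Nat.div_le_div_right hvw)
    split_ifs <;> omega
  · intro a b hab h
    simp only [M] at hab
    have h1 := hτ' (e.symm a)
    rw [hab, e.apply_symm_apply, e.apply_symm_apply] at h1
    exact h1 (congrArg Fin.val h)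
  · intro g i
    rw [Fin.lt_def, hval, hval]
    simp only
    omega
  · intro g i i' h
    refine hord _ _ _ _ ?_
    rw [hblk, hblk]
    have : (i : ℕ) < i' := h
    omega
  · intro g g' i i' h
    refine hord _ _ _ _ ?_
    rw [hblk, hblk]
    have h2 := i.2
    have h3 : L * ((g : ℕ) + 1) ≤ L * g' := Nat.mul_le_mul_left _ h
    rw [mul_add, mul_one] at h3
    omega
  · intro g g' i i' h
    refine ⟨e (Sum.inl (blk g i, blk g' i')), e (Sum.inl (blk g' i', blk g i)), ?_, ?_, ?_, ?_, ?_⟩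
    · rw [Fin.le_def, hval, hval]
      simp only
      omega
    · rw [Fin.le_def, hval, hval]
      have := (blk g' i').2
      simp only
      omega
    · rw [Fin.le_def, hval, hval]
      simp only
      omega
    · rw [Fin.le_def, hval, hval]
      have := (blk g i).2
      simp only
      omega
    · have h1 : ¬ (blk g i : ℕ) / L = blk g' i' / L := by
        rw [hblk2, hblk2]
        exact fun e' => h.ne (Fin.ext e')
      simp only [M, e.symm_apply_apply, τ, if_neg h1]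

end Pool.Agent.P.MP_cf6cc5_co
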