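import Mathlib
import Pool.Agent.P.MP_cf6cc5_co.TUp

set_option autoImplicit false

namespace Pool.Agent.P.MP_cf6cc5_co

open Finset

/-- Among any `n` ordered blocks two from different intervals are completely related. -/
def HypI (n : ℕ) (ι : ℕ → ℕ) (G : ℕ → ℕ → Prop) : Prop :=
  ∀ B : ℕ → Set ℕ, (∀ i j, i < j → j < n → ∀ x ∈ B i, ∀ y ∈ B j, x < y) →
    ∃ i j, i < j ∧ j < n ∧ ι i ≠ ι j ∧ ∀ x ∈ B i, ∀ y ∈ B j, G x y

def PI (n : ℕ) (ι : ℕ → ℕ) (j b T : ℕ) : Prop :=
  ∀ F : ℕ → ℕ → ℕ → Prop, (∀ c < j, HypI n ι (F c)) → ∀ W : Finset ℕ, T ≤ W.card →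
    ∃ K ⊆ W, b ≤ K.card ∧ Cl F j K

def QI (n : ℕ) (ι : ℕ → ℕ) (j a R : ℕ) : Prop :=
  ∀ F : ℕ → ℕ → ℕ → Prop, (∀ c < j, HypI n ι (F c)) → ∀ (W : Finset ℕ) (l : ℕ), R * l ≤ W.card →
    ∃ A : ℕ → Finset ℕ, (∀ i < a, A i ⊆ W ∧ l ≤ (A i).card) ∧
      ∀ i i', i < i' → i' < a → ∀ x ∈ A i, ∀ y ∈ A i', x < y ∧ ∀ c < j, F c x y

/-- `s` ordered groups of `n` points of `W` with no related pair across groups. -/
def Grp (n : ℕ) (G : ℕ → ℕ → Prop) (s : ℕ) (W : Finset ℕ) (Y : ℕ → Finset ℕ) : Prop :=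
  (∀ u < s, Y u ⊆ W ∧ (Y u).card = n) ∧
    ∀ u u', u < u' → u' < s → ∀ x ∈ Y u, ∀ y ∈ Y u', x < y ∧ ¬ G x y

theorem Grp.mono {n s : ℕ} {G : ℕ → ℕ → Prop} {W W' : Finset ℕ} {Y : ℕ → Finset ℕ}
    (h : Grp n G s W Y) (hW : W ⊆ W') : Grp n G s W' Y :=
  ⟨fun u hu => ⟨(h.1 u hu).1.trans hW, (h.1 u hu).2⟩, h.2⟩

theorem Grp.append {n s s' : ℕ} {G : ℕ → ℕ → Prop} {W W' : Finset ℕ} {Y Y' : ℕ → Finset ℕ}
    (h : Grp n G s W Y) (h' : Grp n G s' W' Y')
    (hc : ∀ u < s, ∀ x ∈ Y u, ∀ y ∈ W', x < y ∧ ¬ G x y) :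
    Grp n G (s + s') (W ∪ W') (fun u => if u < s then Y u else Y' (u - s)) := by
  constructor
  · intro u hu
    by_cases h1 : u < s
    · simp only [if_pos h1]
      exact ⟨(h.1 u h1).1.trans subset_union_left, (h.1 u h1).2⟩
    · simp only [if_neg h1]
      exact ⟨(h'.1 _ (by omega)).1.trans subset_union_right, (h'.1 _ (by omega)).2⟩
  · intro u u' huu hu' x hx y hy
    by_cases h1 : u < s <;> by_cases h2 : u' < s
    · simp only [if_pos h1, if_pos h2] at hx hy
      exact h.2 u u' huu h2 x hx y hy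
    · simp only [if_pos h1, if_neg h2] at hx hy
      exact hc u h1 x hx y ((h'.1 _ (by omega)).1 hy)
    · omega
    · simp only [if_neg h1, if_neg h2] at hx hy
      exact h'.2 _ _ (by omega) (by omega) x hx y hy

theorem HypI.not_grp {n s : ℕ} {ι : ℕ → ℕ} {G : ℕ → ℕ → Prop} (h : HypI n ι G)
    (hι : ∀ i j, i ≤ j → j < n → ι i ≤ ι j) (hs : ∀ i < n, ι i < s) {W : Finset ℕ}
    {Y : ℕ → Finset ℕ} (hY : Grp n G s W Y) : False := by
  choose f hf1 hf2 using fun u => exists_enum (Y u)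
  have hmem : ∀ i < n, f (ι i) i ∈ Y (ι i) := fun i hi =>
    hf1 _ _ (by rw [(hY.1 _ (hs i hi)).2]; exact hi)
  obtain ⟨i, j, hij, hj, hne, hG⟩ := h (fun i => {f (ι i) i}) (by
    intro i j hij hj x hx y hy
    rw [Set.mem_singleton_iff] at hx hy
    rw [hx, hy]
    rcases (hι i j hij.le hj).lt_or_eq with e | e
    · exact (hY.2 _ _ e (hs j hj) _ (hmem i (by omega)) _ (hmem j hj)).1
    · rw [e]
      exact hf2 _ i j hij (by rw [(hY.1 _ (hs j hj)).2]; exact hj))
  exact (hY.2 _ _ (lt_of_le_of_ne (hι i j hij.le hj) hne) (hs j hj) _ (hmem i (by omega)) _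
    (hmem j hj)).2 (hG _ rfl _ rfl)

theorem PI.mono {n j b T T' : ℕ} {ι : ℕ → ℕ} (h : PI n ι j b T) (hT : T ≤ T') : PI n ι j b T' :=
  fun F hF W hW => h F hF W (hT.trans hW)

theorem PI_one (n : ℕ) (ι : ℕ → ℕ) : PI n ι 1 2 n := by
  intro F hF W hW
  refine PP_one n F (fun c hc B hB => ?_) W hW
  obtain ⟨i, j, h1, h2, -, h3⟩ := hF c hc B hB
  exact ⟨i, j, h1, h2, h3⟩

theorem PI.toQ {n j a R : ℕ} {ι : ℕ → ℕ} (h : PI n ι j a R) : QI n ι j a R := by
  intro F hF W l hW
  obtain ⟨f, hf1, hf2⟩ := exists_enum W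
  let blk : ℕ → Finset ℕ := fun u => if u < R then (Ico (u * l) (u * l + l)).image f else ∅
  have hmem : ∀ u x, x ∈ blk u → u < R ∧ ∃ i, u * l ≤ i ∧ i < u * l + l ∧ i < W.card ∧ f i = x := by
    intro u x hx
    by_cases hu : u < R
    · simp only [blk, if_pos hu, mem_image, mem_Ico] at hx
      obtain ⟨i, ⟨h1, h2⟩, rfl⟩ := hx
      have : (u + 1) * l ≤ R * l := Nat.mul_le_mul_right _ hu
      exact ⟨hu, i, h1, h2, by nlinarith, rfl⟩
    · simp [blk, hu] at hx
  have hlt : ∀ u v, u < v → ∀ x ∈ blk u, ∀ y ∈ blk v, x < y := by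
    intro u v huv x hx y hy
    obtain ⟨-, i, -, h2, -, rfl⟩ := hmem u x hx
    obtain ⟨-, i', h3, -, h4, rfl⟩ := hmem v y hy
    have : (u + 1) * l ≤ v * l := Nat.mul_le_mul_right _ huv
    exact hf2 i i' (by nlinarith) h4
  obtain ⟨K, hKW, hK, hcl⟩ := h (fun c u v => ∀ x ∈ blk u, ∀ y ∈ blk v, F c x y) (by
    intro c hc B hB
    obtain ⟨i, i', hii, hi', hne, hG⟩ := hF c hc (fun i => {x | ∃ u ∈ B i, x ∈ blk u}) (by
      rintro i i' hii hi' x ⟨u, hu, hx⟩ y ⟨v, hv, hy⟩
      exact hlt u v (hB i i' hii hi' u hu v hv) x hx y hy)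
    exact ⟨i, i', hii, hi', hne, fun u hu v hv x hx y hy => hG x ⟨u, hu, hx⟩ y ⟨v, hv, hy⟩⟩)
    (range R) (by simp)
  obtain ⟨g, hg1, hg2⟩ := exists_enum K
  refine ⟨fun i => blk (g i), fun i hi => ⟨?_, ?_⟩, ?_⟩
  · intro x hx
    obtain ⟨-, i, -, -, h, rfl⟩ := hmem _ x hx
    exact hf1 i h
  · have hu : g i < R := mem_range.1 (hKW (hg1 i (by omega)))
    have h1 : (g i + 1) * l ≤ R * l := Nat.mul_le_mul_right _ hu
    simp only [blk, if_pos hu]
    rw [card_image_of_injOn, Nat.card_Ico]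
    · omega
    · intro a ha b hb e
      simp only [coe_Ico, Set.mem_Ico] at ha hb
      rcases lt_trichotomy a b with hlt | heq | hgt
      · exact absurd e (hf2 a b hlt (by nlinarith)).ne
      · exact heq
      · exact absurd e (hf2 b a hgt (by nlinarith)).ne'
  · intro i i' hii hi' x hx y hy
    have h1 := hg2 i i' hii (by omega)
    exact ⟨hlt _ _ h1 x hx y hy,
      fun c hc => hcl _ (hg1 i (by omega)) _ (hg1 i' (by omega)) h1 c hc x hx y hy⟩

/-- The additive step with groups. -/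
theorem additiveI {n j a R I : ℕ} {ι : ℕ → ℕ} (hn : 1 ≤ n) (ha : 1 ≤ a) (hR : 1 ≤ R)
    (h : QI n ι j a R) (F : ℕ → ℕ → ℕ → Prop) (hF : ∀ c < j, HypI n ι (F c)) :
    ∀ β i : ℕ, i ≤ I → ∀ W : Finset ℕ, (2 * (a ^ I * n) * R) ^ (β + i) ≤ W.card →
      (∃ K ⊆ W, β ≤ K.card ∧ Cl F (j + 1) K) ∨ ∃ Y, Grp n (F j) (a ^ i) W Y := by
  classical
  have haI : 1 ≤ a ^ I := Nat.one_le_pow _ _ ha
  have hnI : n ≤ a ^ I * n := Nat.le_mul_of_pos_left _ haI
  intro β
  induction β with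
  | zero =>
    intro i _ W _
    exact Or.inl ⟨∅, empty_subset _, le_rfl, fun x hx => absurd hx (notMem_empty x)⟩
  | succ β ihβ =>
    intro i
    induction i with
    | zero =>
      intro _ W hW
      have h1 : n ≤ 2 * (a ^ I * n) * R := by nlinarith
      have h2 : n ≤ W.card := by
        refine le_trans (h1.trans ?_) hW
        exact Nat.le_self_pow (by omega) _
      obtain ⟨S, hS1, hS2⟩ := exists_subset_card_eq h2
      refine Or.inr ⟨fun _ => S, fun _ _ => ⟨hS1, hS2⟩, fun u u' h3 h4 => ?_⟩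
      rw [pow_zero] at h4
      omega
    | succ i ihi =>
      intro hi W hW
      set D := (2 * (a ^ I * n) * R) ^ (β + (i + 1)) with hD
      obtain ⟨A, hA1, hA2⟩ := h F hF W (2 * (a ^ I * n) * D) (by
        refine le_trans (le_of_eq ?_) hW
        rw [show β + 1 + (i + 1) = β + (i + 1) + 1 by ring, pow_succ, ← hD]
        ring)
      by_cases hc : ∃ u u', u < u' ∧ u' < a ∧ ∃ w ∈ A u, D ≤ ((A u').filter (F j w)).card
      · obtain ⟨u, u', huu, hu', w, hw, hN⟩ := hc
        have hsub : (A u').filter (F j w) ⊆ W := (filter_subset _ _).trans (hA1 u' hu').1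
        rcases ihβ (i + 1) hi _ hN with ⟨K, hK1, hK2, hK3⟩ | ⟨Y, hY⟩
        · have hwK : ∀ y ∈ K, w < y ∧ ∀ c < j + 1, F c w y := by
            intro y hy
            have h1 := mem_filter.1 (hK1 hy)
            have h2 := hA2 u u' huu hu' w hw y h1.1
            refine ⟨h2.1, fun c hc => ?_⟩
            rcases Nat.lt_succ_iff_lt_or_eq.1 hc with hc | rfl
            · exact h2.2 c hc
            · exact h1.2
          refine Or.inl ⟨insert w K, insert_subset ((hA1 u (by omega)).1 hw) (hK1.trans hsub), ?_, ?_⟩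
          · rw [card_insert_of_notMem fun hh => (hwK w hh).1.ne rfl]
            omega
          · intro x hx y hy hxy
            rcases mem_insert.1 hx with hx | hx <;> rcases mem_insert.1 hy with hy | hy
            · omega
            · rw [hx]; exact (hwK y hy).2
            · have := (hwK x hx).1
              omega
            · exact hK3 x hx y hy hxy
        · exact Or.inr ⟨Y, hY.mono hsub⟩
      · push Not at hc
        have key : ∀ u ≤ a, (∃ K ⊆ W, β + 1 ≤ K.card ∧ Cl F (j + 1) K) ∨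
            ∃ Y, Grp n (F j) (u * a ^ i) ((range u).biUnion A) Y := by
          intro u
          induction u with
          | zero =>
            intro _
            exact Or.inr ⟨fun _ => ∅, fun u hu => by omega, fun u u' _ hu => by omega⟩
          | succ u ihu =>
            intro hu
            rcases ihu (by omega) with hK | ⟨Y, hY⟩
            · exact Or.inl hK
            let Y0 := (range (u * a ^ i)).biUnion Y
            have hY1 : ∀ x ∈ Y0, ∃ u' < u, x ∈ A u' := by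
              intro x hx
              obtain ⟨v, hv, hx'⟩ := mem_biUnion.1 hx
              obtain ⟨u', hu', hx''⟩ := mem_biUnion.1 ((hY.1 v (mem_range.1 hv)).1 hx')
              exact ⟨u', mem_range.1 hu', hx''⟩
            let W' := A u \ Y0.biUnion fun w => (A u).filter (F j w)
            have hY4 : Y0.card ≤ a ^ I * n := by
              refine (card_biUnion_le_card_mul _ _ n fun v hv =>
                (hY.1 v (mem_range.1 hv)).2.le).trans (Nat.mul_le_mul_right _ ?_)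
              rw [card_range]
              calc u * a ^ i ≤ a * a ^ i := Nat.mul_le_mul_right _ (by omega)
                _ = a ^ (i + 1) := by ring
                _ ≤ a ^ I := Nat.pow_le_pow_right ha hi
            have hb : (Y0.biUnion fun w => (A u).filter (F j w)).card ≤ a ^ I * n * D := by
              refine (card_biUnion_le_card_mul _ _ D ?_).trans (Nat.mul_le_mul_right _ hY4)
              intro w hw
              obtain ⟨u', hu', hw'⟩ := hY1 w hw
              exact (hc u' u hu' (by omega) w hw').le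
            have hW' : D ≤ W'.card := by
              have h1 := le_card_sdiff (Y0.biUnion fun w => (A u).filter (F j w)) (A u)
              have h2 := (hA1 u (by omega)).2
              have h3 : 1 * D ≤ a ^ I * n * D := Nat.mul_le_mul_right _ (by omega)
              have h4 : 2 * (a ^ I * n) * D = a ^ I * n * D + a ^ I * n * D := by ring
              simp only [W']
              omega
            have hsub : W' ⊆ A u := sdiff_subset
            rcases ihi (by omega) W' (by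
              rw [show β + 1 + i = β + (i + 1) by ring]; exact hW') with
              ⟨K, hK1, hK2⟩ | ⟨Z, hZ⟩
            · exact Or.inl ⟨K, hK1.trans (hsub.trans (hA1 u (by omega)).1), hK2⟩
            have happ := hY.append hZ (by
              intro v hv x hx z hz
              have hx0 : x ∈ Y0 := mem_biUnion.2 ⟨v, mem_range.2 hv, hx⟩
              obtain ⟨u', hu', hx'⟩ := hY1 x hx0
              have hz' := mem_sdiff.1 hz
              refine ⟨(hA2 u' u hu' (by omega) x hx' z hz'.1).1, fun hh => hz'.2 ?_⟩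
              exact mem_biUnion.2 ⟨x, hx0, mem_filter.2 ⟨hz'.1, hh⟩⟩)
            rw [show u * a ^ i + a ^ i = (u + 1) * a ^ i by ring] at happ
            refine Or.inr ⟨_, happ.mono (union_subset ?_ ?_)⟩
            · exact biUnion_subset_biUnion_of_subset_left _ (range_subset_range.2 (by omega))
            · exact hsub.trans (subset_biUnion_of_mem A (mem_range.2 (by omega)))
        rcases key a le_rfl with hK | ⟨Y, hY⟩
        · exact Or.inl hK
        · rw [show a * a ^ i = a ^ (i + 1) by ring] at hY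
          exact Or.inr ⟨Y, hY.mono (biUnion_subset.2 fun u hu => (hA1 u (mem_range.1 hu)).1)⟩

theorem PI.step {n j a R I : ℕ} {ι : ℕ → ℕ} (hn : 1 ≤ n) (ha : 1 ≤ a) (hR : 1 ≤ R)
    (h : PI n ι j a R) (hι : ∀ i j, i ≤ j → j < n → ι i ≤ ι j) (hs : ∀ i < n, ι i < a ^ I)
    (β : ℕ) : PI n ι (j + 1) β ((2 * (a ^ I * n) * R) ^ (β + I)) := by
  intro F hF W hW
  rcases additiveI hn ha hR h.toQ F (fun c hc => hF c (by omega)) β I le_rfl W hW with
    hK | ⟨Y, hY⟩
  · exact hK
  · exact ((hF j (by omega)).not_grp hι hs hY).elim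

theorem PI_all {n k L K E : ℕ} {ι : ℕ → ℕ} (hn : 1 ≤ n) (hL : n ≤ 2 ^ L) (hK : k ≤ 2 ^ K)
    (hE : k ≤ E ^ E) (hE1 : 1 ≤ E) (hEK : E ≤ K) (hKL : K ≤ L)
    (hι : ∀ i j, i ≤ j → j < n → ι i ≤ ι j) (hs : ∀ i < n, ι i < k) (j : ℕ) :
    PI n ι (j + 2) E (2 ^ (8 * (L * K) * (4 * E) ^ j)) := by
  induction j with
  | zero =>
    refine ((PI_one n ι).step hn (by norm_num) hn hι (fun i hi => (hs i hi).trans_le hK) E).mono ?_
    calc (2 * (2 ^ K * n) * n) ^ (E + K) ≤ (2 * (2 ^ L * 2 ^ L) * 2 ^ L) ^ (K + K) := by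
          refine (Nat.pow_le_pow_left (by gcongr; norm_num) _).trans
            (Nat.pow_le_pow_right (by positivity) ?_)
          omega
      _ = 2 ^ ((1 + (L + L) + L) * (K + K)) := by
          rw [pow_mul]; congr 1; rw [pow_add, pow_add, pow_add, pow_one]
      _ ≤ _ := Nat.pow_le_pow_right (by norm_num) (by nlinarith)
  | succ j ih =>
    refine (ih.step hn hE1 (Nat.one_le_pow _ _ (by norm_num)) hι
      (fun i hi => (hs i hi).trans_le hE) E).mono ?_
    have h1 : E ^ E ≤ 2 ^ (L * K) := by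
      calc E ^ E ≤ (2 ^ E) ^ E := Nat.pow_le_pow_left Nat.lt_two_pow_self.le _
        _ = 2 ^ (E * E) := by rw [← pow_mul]
        _ ≤ _ := Nat.pow_le_pow_right (by norm_num) (Nat.mul_le_mul (by omega) hEK)
    set ρ := 8 * (L * K) * (4 * E) ^ j with hρ
    have h2 : 1 ≤ (4 * E) ^ j := Nat.one_le_pow _ _ (by omega)
    have h3 : 1 + (L * K + L) ≤ ρ := by
      have h4 : L * 1 ≤ L * K := Nat.mul_le_mul_left _ (by omega)
      have h5 : 8 * (L * K) * 1 ≤ ρ := Nat.mul_le_mul_left _ h2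
      omega
    calc (2 * (E ^ E * n) * 2 ^ ρ) ^ (E + E) ≤ (2 * (2 ^ (L * K) * 2 ^ L) * 2 ^ ρ) ^ (E + E) := by
          gcongr
      _ = 2 ^ ((1 + (L * K + L) + ρ) * (E + E)) := by
          rw [pow_mul 2 (1 + (L * K + L) + ρ)]; congr 1; rw [pow_add, pow_add, pow_add, pow_one]
      _ ≤ _ := by
          refine Nat.pow_le_pow_right (by norm_num) ?_
          rw [pow_succ (4 * E), ← mul_assoc, ← hρ]
          nlinarith

/-- The upper bound in parametric form. -/
theorem upper_paramI {n k L K E r : ℕ} (hn : 1 ≤ n) (hL : n ≤ 2 ^ L) (hK : k ≤ 2 ^ K)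
    (hE : k ≤ E ^ E) (hE2 : 2 ≤ E) (hEK : E ≤ K) (hKL : K ≤ L)
    (M : SimpleGraph (Fin n)) (hM : ∀ v, ∃! w, M.Adj v w) (ι : Fin n → Fin k) (hι : Monotone ι)
    (hι2 : ∀ a b, M.Adj a b → ι a ≠ ι b)
    (N : ℕ) (hN : 2 ^ (8 * (L * K) * (4 * E) ^ r) ≤ N) (col : Sym2 (Fin N) → Fin (r + 2)) :
    ∃ f : Fin n → Fin N, StrictMono f ∧
      ∃ i : Fin (r + 2), ∀ a b : Fin n, M.Adj a b → col s(f a, f b) = i := by
  classical
  by_contra hcon
  have hNe : Nonempty (Fin N) := ⟨⟨0, lt_of_lt_of_le (by positivity) hN⟩⟩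
  let F : ℕ → ℕ → ℕ → Prop := fun c x y =>
    ∀ (hx : x < N) (hy : y < N), (col s(⟨x, hx⟩, ⟨y, hy⟩) : ℕ) ≠ c
  let ι' : ℕ → ℕ := fun i => if h : i < n then ι ⟨i, h⟩ else 0
  obtain ⟨K', hKW, hK', hcl⟩ := PI_all (ι := ι') hn hL hK hE (by omega) hEK hKL (by
    intro i j hij hj
    simp only [ι', dif_pos hj, dif_pos (lt_of_le_of_lt hij hj)]
    exact hι (show (⟨i, _⟩ : Fin n) ≤ ⟨j, hj⟩ from hij)) (by
    intro i hi
    simp only [ι', dif_pos hi]
    exact (ι _).2) r F (by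
    intro c hc B hB
    by_contra hno
    push Not at hno
    have hno' : ∀ p : Fin n × Fin n, p.1 < p.2 → M.Adj p.1 p.2 → ∃ e : Fin N × Fin N,
        (e.1 : ℕ) ∈ B p.1 ∧ (e.2 : ℕ) ∈ B p.2 ∧ col s(e.1, e.2) = ⟨c, hc⟩ := by
      rintro ⟨i, j⟩ hij hadj
      obtain ⟨x, hx, y, hy, h⟩ := hno i j hij j.2 (by
        simp only [ι', dif_pos i.2, dif_pos j.2]
        exact fun e => hι2 i j hadj (Fin.ext e))
      simp only [F, not_forall, not_not] at h
      obtain ⟨h1, h2, h3⟩ := h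
      exact ⟨(⟨x, h1⟩, ⟨y, h2⟩), hx, hy, Fin.ext h3⟩
    choose! e he using hno'
    have hpt : ∀ v : Fin n, ∃ z : Fin N, (z : ℕ) ∈ B v ∧
        (∀ w, M.Adj v w → v < w → z = (e (v, w)).1) ∧ ∀ w, M.Adj v w → w < v → z = (e (w, v)).2 := by
      intro v
      obtain ⟨w, hw, huniq⟩ := hM v
      rcases lt_or_gt_of_ne hw.ne with hlt | hgt
      · refine ⟨(e (v, w)).1, (he (v, w) hlt hw).1, fun w' hw' _ => ?_, fun w' hw' h => ?_⟩
        · rw [huniq w' hw']
        · rw [huniq w' hw'] at h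
          exact absurd h hlt.not_gt
      · refine ⟨(e (w, v)).2, (he (w, v) hgt hw.symm).2.1, fun w' hw' h => ?_, fun w' hw' _ => ?_⟩
        · rw [huniq w' hw'] at h
          exact absurd h hgt.not_gt
        · rw [huniq w' hw']
    choose f hf1 hf2 hf3 using hpt
    refine hcon ⟨f, fun a b hab => hB a b hab b.2 _ (hf1 a) _ (hf1 b), ⟨c, hc⟩, ?_⟩
    have key : ∀ a b, a < b → M.Adj a b → col s(f a, f b) = ⟨c, hc⟩ := by
      intro a b hab h
      rw [hf2 a b h hab, hf3 b a h.symm hab]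
      exact (he (a, b) hab h).2.2
    intro a b h
    rcases lt_or_gt_of_ne h.ne with hlt | hgt
    · exact key a b hlt h
    · rw [Sym2.eq_swap]
      exact key b a hgt h.symm) (range N) (by rw [card_range]; exact hN)
  obtain ⟨g, hg1, hg2⟩ := exists_enum K'
  have h0 := hg1 0 (by omega)
  have h1 := hg1 1 (by omega)
  have hx := mem_range.1 (hKW h0)
  have hy := mem_range.1 (hKW h1)
  exact hcl _ h0 _ h1 (hg2 0 1 one_pos (by omega)) _ (col s(⟨_, hx⟩, ⟨_, hy⟩)).2 hx hy rfl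

end Pool.Agent.P.MP_cf6cc5_co
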