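import Mathlib
import Pool.Agent.P.MP_cf6cc5_co.CParam
import Pool.Agent.P.MP_cf6cc5_co.CUp

set_option autoImplicit false

namespace Pool.Agent.P.MP_cf6cc5_co

open Finset

theorem poly_le_two_pow (d : ℕ) : ∃ V₀ : ℕ, ∀ V : ℕ, V₀ ≤ V → 400 * V ^ d ≤ 2 ^ V := by
  have h := (tendsto_pow_const_div_const_pow_of_one_lt d (r := 2) (by norm_num)).eventually
    (gt_mem_nhds (show (0 : ℝ) < 1 / 400 by norm_num))
  obtain ⟨V₀, hV⟩ := Filter.eventually_atTop.1 h
  refine ⟨V₀, fun V h => ?_⟩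
  have h1 := hV V h
  rw [div_lt_div_iff₀ (by positivity) (by norm_num)] at h1
  have h2 : (400 : ℝ) * V ^ d ≤ 2 ^ V := by linarith
  exact_mod_cast h2

theorem log_bounds {A n : ℕ} (hA : 2 ≤ A) (hn : n ≠ 0) (h1 : 1 ≤ Nat.log 2 n / A) :
    2 ^ (A * (Nat.log 2 n / A)) ≤ n ∧ ((Nat.log 2 n / A : ℕ) : ℝ) ≤ Real.log n ∧
      Real.log n ≤ 2 * A * (Nat.log 2 n / A : ℕ) := by
  set W := Nat.log 2 n / A with hW
  have hA' : (2 : ℝ) ≤ A := by exact_mod_cast hA
  have hnW : 2 ^ (A * W) ≤ n :=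
    (Nat.pow_le_pow_right (by norm_num) (Nat.mul_div_le _ _)).trans (Nat.pow_log_le_self 2 hn)
  have hnW2 : n ≤ 2 ^ (2 * A * W) := by
    refine (Nat.lt_pow_succ_log_self (by norm_num : 1 < 2) n).le.trans
      (Nat.pow_le_pow_right (by norm_num) ?_)
    have : Nat.log 2 n < A * (W + 1) := Nat.lt_mul_div_succ _ (by omega)
    nlinarith
  have hnpos : (0 : ℝ) < n := by exact_mod_cast Nat.pos_of_ne_zero hn
  have hW' : (1 : ℝ) ≤ W := by exact_mod_cast h1
  have hl2 := Real.log_two_gt_d9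
  have hl2' := Real.log_two_lt_d9
  refine ⟨hnW, ?_, ?_⟩
  · have h1 : (2 : ℝ) ^ (A * W) ≤ n := by exact_mod_cast hnW
    have h2 := Real.log_le_log (by positivity) h1
    rw [Real.log_pow] at h2
    push_cast at h2
    have h3 : 2 * (W : ℝ) ≤ A * W := by nlinarith
    nlinarith
  · have h1 : (n : ℝ) ≤ 2 ^ (2 * A * W) := by exact_mod_cast hnW2
    have h2 := Real.log_le_log hnpos h1
    rw [Real.log_pow] at h2
    push_cast at h2
    have h3 : (0 : ℝ) ≤ 2 * A * W := by positivity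
    nlinarith

theorem lower_asymI (r : ℕ) :
    ∃ c : ℝ, 0 < c ∧ ∃ k₀ : ℕ, ∀ n k : ℕ, k₀ ≤ k → k ≤ n → ∃ G L : ℕ, Even G ∧ 2 ≤ G * L ∧
      G + 2 ≤ k ∧ (G * L) ^ 8 ≤ n ∧
      ∀ (M : SimpleGraph (Fin n)) (lo hi : Fin G → Fin L → Fin n), (∀ g i, lo g i < hi g i) →
        (∀ g i i', i < i' → hi g i ≤ lo g i') → (∀ g g' i i', g < g' → hi g i ≤ lo g' i') →
        (∀ g g' i i', g < g' → ∃ x y, lo g i ≤ x ∧ x ≤ hi g i ∧ lo g' i' ≤ y ∧ y ≤ hi g' i' ∧
          M.Adj x y) →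
        ∀ N : ℕ, (N : ℝ) ≤ (n : ℝ) ^ (c * (Real.log k ^ (r + 1) / Real.log (Real.log k) ^ r)) →
          ∃ col : Sym2 (Fin N) → Fin (r + 2), ¬ ∃ f : Fin n → Fin N, StrictMono f ∧
            ∃ i : Fin (r + 2), ∀ a b : Fin n, M.Adj a b → col s(f a, f b) = i := by
  obtain ⟨V₀, hV₀⟩ := poly_le_two_pow (2 * r + 2)
  set A₀ := 2 * r ^ 2 + 5 * r + 8 with hA₀
  set A := 8 * (A₀ + 9) with hA
  have hA2 : 2 ≤ A := by omega
  have hA' : (2 : ℝ) ≤ A := by exact_mod_cast hA2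
  refine ⟨1 / (8 * (A : ℝ) ^ 2 * (12 * A) ^ r), by positivity, 2 ^ (A * (r + 17 + V₀)), ?_⟩
  intro n k hk hkn
  have hk0 : k ≠ 0 := by
    have : 1 ≤ 2 ^ (A * (r + 17 + V₀)) := Nat.one_le_two_pow
    omega
  set W := Nat.log 2 k / A with hW
  set V := Nat.log 2 n / A with hV
  have hW1 : r + 17 + V₀ ≤ W := by
    rw [hW, Nat.le_div_iff_mul_le (by omega), mul_comm]
    exact Nat.le_log_of_pow_le (by norm_num) hk
  have hWV : W ≤ V := Nat.div_le_div_right (Nat.log_mono_right hkn)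
  obtain ⟨hkW, hwlow, hwup⟩ := log_bounds hA2 hk0 (by omega)
  obtain ⟨hnV, -, hxup⟩ := log_bounds (n := n) hA2 (by omega) (by omega)
  rw [← hW] at hkW hwlow hwup
  rw [← hV] at hnV hxup
  set D := Nat.log 2 W + 1 with hD
  have hGW : D ≤ W := Nat.log_lt_self 2 (by omega)
  set E := W / D with hE
  have hE1 : 1 ≤ E := (Nat.one_le_div_iff (Nat.succ_pos _)).2 hGW
  have hWE : W ^ E ≤ 2 ^ W := by
    calc W ^ E ≤ (2 ^ D) ^ E :=
          Nat.pow_le_pow_left (Nat.lt_pow_succ_log_self (by norm_num : 1 < 2) W).le _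
      _ = 2 ^ (D * E) := by rw [← pow_mul]
      _ ≤ 2 ^ W := Nat.pow_le_pow_right (by norm_num) (Nat.mul_div_le _ _)
  have hp1 : 1 ≤ 2 ^ (A₀ * W) := Nat.one_le_two_pow
  have hp2 : 1 ≤ 2 ^ (7 * V) := Nat.one_le_two_pow
  refine ⟨2 * 2 ^ (A₀ * W), 2 * 2 ^ (7 * V), even_two_mul _,
    le_trans (by norm_num) (Nat.mul_le_mul (Nat.mul_le_mul_left 2 hp1) (Nat.mul_le_mul_left 2 hp2)),
    ?_, ?_, ?_⟩
  · refine le_trans ?_ hkW
    calc 2 * 2 ^ (A₀ * W) + 2 ≤ 2 ^ (A₀ * W + 2) := by rw [pow_add]; omega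
      _ ≤ _ := Nat.pow_le_pow_right (by norm_num) (by
          have : A * W = 8 * (A₀ * W) + 72 * W := by rw [hA]; ring
          omega)
  · refine le_trans ?_ hnV
    rw [← pow_succ', ← pow_succ', ← pow_add, ← pow_mul]
    refine Nat.pow_le_pow_right (by norm_num) ?_
    have h1 : A₀ * W ≤ A₀ * V := Nat.mul_le_mul_left _ hWV
    have h2 : A * V = 8 * (A₀ * V) + 72 * V := by rw [hA]; ring
    omega
  intro M lo hi h1 h2 h3 h4 N hN
  refine param3 r W V E _ _ (by omega) (by omega) hWV hE1 (Nat.div_le_self _ _) hWE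
    (hV₀ V (by omega)) (by rw [← hA₀]; omega) (by omega) M lo hi h1 h2 h3 h4 N ?_
  have hnpos : (0 : ℝ) < n := by exact_mod_cast (by omega : 0 < n)
  have hW' : (17 : ℝ) ≤ W := by exact_mod_cast (by omega : 17 ≤ W)
  have hl2 := Real.log_two_gt_d9
  set x := Real.log n with hx
  set w := Real.log k with hw
  have hx0 : 0 ≤ x := Real.log_natCast_nonneg n
  have hlW : 0 < Real.log W := Real.log_pos (by linarith)
  have hlx : Real.log W ≤ Real.log w := Real.log_le_log (by linarith) hwlow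
  have hratio : w / Real.log w ≤ 12 * A * E := by
    have h1 : W < D * (E + 1) := Nat.lt_mul_div_succ _ (Nat.succ_pos _)
    have h2 : (W : ℝ) ≤ D * (2 * E) := by
      exact_mod_cast h1.le.trans (Nat.mul_le_mul_left D (by omega : E + 1 ≤ 2 * E))
    have h3 : (D : ℝ) ≤ 3 * Real.log w := (log_nat_le (by omega : 3 ≤ W)).trans (by linarith)
    rw [div_le_iff₀ (by linarith)]
    calc w ≤ 2 * A * W := hwup
      _ ≤ 2 * A * (3 * Real.log w * (2 * E)) := by
          gcongr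
          exact h2.trans (by gcongr)
      _ = _ := by ring
  have hr0 : 0 ≤ w / Real.log w := div_nonneg (by linarith) (by linarith)
  have hw0 : 0 ≤ w := by linarith
  have key : (n : ℝ) ^ (1 / (8 * (A : ℝ) ^ 2 * (12 * A) ^ r) * (w ^ (r + 1) / Real.log w ^ r)) ≤
      ((2 ^ (V * W * E ^ r) : ℕ) : ℝ) := by
    rw [Real.rpow_def_of_pos hnpos, ← hx]
    have : ((2 ^ (V * W * E ^ r) : ℕ) : ℝ) = Real.exp ((V : ℝ) * W * E ^ r * Real.log 2) := by
      rw [mul_comm _ (Real.log 2), Real.exp_mul, Real.exp_log (by norm_num)]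
      rw [← Nat.cast_pow, ← Nat.cast_mul, ← Nat.cast_mul, Real.rpow_natCast]
      push_cast; rfl
    rw [this, Real.exp_le_exp]
    calc x * (1 / (8 * (A : ℝ) ^ 2 * (12 * A) ^ r) * (w ^ (r + 1) / Real.log w ^ r))
        = 1 / (8 * (A : ℝ) ^ 2 * (12 * A) ^ r) * (x * w * (w / Real.log w) ^ r) := by
          rw [div_pow]; ring
      _ ≤ 1 / (8 * (A : ℝ) ^ 2 * (12 * A) ^ r) * (2 * A * V * (2 * A * W) * (12 * A * E) ^ r) := by
          gcongr
      _ = (V : ℝ) * W * E ^ r * (1 / 2) := by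
          rw [mul_pow (12 * (A : ℝ))]
          field_simp
          ring
      _ ≤ _ := by
          gcongr
          linarith
  exact_mod_cast hN.trans key

theorem upper_asymI (r : ℕ) :
    ∃ C : ℝ, 0 < C ∧ ∃ k₀ : ℕ, ∀ n k : ℕ, k₀ ≤ k → k ≤ n → ∃ N₀ : ℕ,
      (N₀ : ℝ) ≤ (n : ℝ) ^ (C * (Real.log k ^ (r + 1) / Real.log (Real.log k) ^ r)) ∧
      ∀ M : SimpleGraph (Fin n), (∀ v, ∃! w, M.Adj v w) →
        (∃ ι : Fin n → Fin k, Monotone ι ∧ ∀ a b, M.Adj a b → ι a ≠ ι b) →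
        ∀ col : Sym2 (Fin N₀) → Fin (r + 2), ∃ f : Fin n → Fin N₀, StrictMono f ∧
          ∃ i : Fin (r + 2), ∀ a b : Fin n, M.Adj a b → col s(f a, f b) = i := by
  have ht : Filter.Tendsto (fun n : ℕ => Real.log (Real.log n)) Filter.atTop Filter.atTop :=
    Real.tendsto_log_atTop.comp (Real.tendsto_log_atTop.comp tendsto_natCast_atTop_atTop)
  obtain ⟨k₀, hk₀⟩ := Filter.eventually_atTop.1
    ((ht.eventually_ge_atTop 3).and (Filter.eventually_ge_atTop 3))
  refine ⟨72 * 12 ^ r, by positivity, k₀, fun n k hk hkn => ?_⟩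
  obtain ⟨h3, hk3⟩ := hk₀ k hk
  have hnpos : (0 : ℝ) < n := by exact_mod_cast (by omega : 0 < n)
  have hkpos : (0 : ℝ) < k := by exact_mod_cast (by omega : 0 < k)
  set x := Real.log k with hx
  have hx0 : 0 < x := Real.log_pos (by exact_mod_cast (by omega : 1 < k))
  set z := Real.log x with hz
  have hzx : z ≤ x := by
    have := Real.log_le_sub_one_of_pos hx0
    linarith
  set K := Nat.log 2 k + 1 with hK
  set L := Nat.log 2 n + 1 with hL
  set E := ⌈2 * x / z⌉₊ with hE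
  have hw1 : 1 ≤ x / z := by rw [le_div_iff₀ (by linarith)]; linarith
  have hE1 : 2 * (x / z) ≤ E := by rw [← mul_div_assoc]; exact Nat.le_ceil _
  have hE2 : (E : ℝ) ≤ 3 * (x / z) := by
    have := Nat.ceil_lt_add_one (show 0 ≤ 2 * x / z by positivity)
    rw [mul_div_assoc] at this
    rw [hE, mul_div_assoc]
    linarith
  have hnL : n ≤ 2 ^ L := (Nat.lt_pow_succ_log_self (by norm_num : 1 < 2) n).le
  have hkK : k ≤ 2 ^ K := (Nat.lt_pow_succ_log_self (by norm_num : 1 < 2) k).le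
  have hKL : K ≤ L := Nat.succ_le_succ (Nat.log_mono_right hkn)
  have hl2' := Real.log_two_lt_d9
  have hxL : x ≤ K := by
    have h1 : (k : ℝ) ≤ 2 ^ K := by exact_mod_cast hkK
    have h2 := Real.log_le_log hkpos h1
    rw [Real.log_pow] at h2
    have : (0 : ℝ) ≤ K := Nat.cast_nonneg _
    nlinarith
  have hEL : E ≤ K := by
    have : 3 * (x / z) ≤ x := by
      rw [← mul_div_assoc, div_le_iff₀ (by linarith)]
      nlinarith
    exact_mod_cast (hE2.trans this).trans hxL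
  have hnE : k ≤ E ^ E := by
    have h1 : Real.log (2 * (x / z)) ≤ Real.log E := Real.log_le_log (by linarith) hE1
    have h2 : Real.log (2 * (x / z)) = z - Real.log (z / 2) := by
      rw [show 2 * (x / z) = x / (z / 2) by field_simp, Real.log_div hx0.ne' (by linarith)]
    have h4 := Real.log_le_sub_one_of_pos (show 0 < z / 2 by linarith)
    have h5 : z / 2 ≤ Real.log E := by linarith
    have h6 : x ≤ E * Real.log E := by
      calc x = 2 * (x / z) * (z / 2) := by field_simp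
        _ ≤ _ := mul_le_mul hE1 h5 (by linarith) (Nat.cast_nonneg _)
    have hEpos : (0 : ℝ) < E := by linarith
    rw [← Real.log_pow, hx, Real.log_le_log_iff hkpos (by positivity)] at h6
    exact_mod_cast h6
  refine ⟨2 ^ (8 * (L * K) * (4 * E) ^ r), ?_, fun M hM ⟨ι, hι, hι2⟩ col =>
    upper_paramI (by omega) hnL hkK hnE (by exact_mod_cast (by linarith : (2 : ℝ) ≤ E)) hEL hKL
      M hM ι hι hι2 _ le_rfl col⟩
  have hL3 : (L : ℝ) ≤ 3 * Real.log n := log_nat_le (by omega)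
  have hK3 : (K : ℝ) ≤ 3 * x := log_nat_le hk3
  have hy0 : 0 ≤ Real.log n := Real.log_natCast_nonneg n
  rw [Real.rpow_def_of_pos hnpos]
  have h2e : (2 : ℝ) ≤ Real.exp 1 := by
    have := Real.add_one_le_exp 1
    linarith
  push_cast
  refine (pow_le_pow_left₀ (by norm_num) h2e _).trans ?_
  rw [Real.exp_one_pow, Real.exp_le_exp]
  push_cast
  calc 8 * ((L : ℝ) * K) * (4 * E) ^ r
      ≤ 8 * (3 * Real.log n * (3 * x)) * (4 * (3 * (x / z))) ^ r := by gcongr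
    _ = _ := by
        rw [← mul_assoc 4, mul_pow (4 * 3 : ℝ), div_pow]
        norm_num
        ring

end Pool.Agent.P.MP_cf6cc5_co
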