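import Mathlib
import Pool.Agent.P.MP_cf6cc5_co.CAsym

set_option autoImplicit false

namespace Pool.Agent.P.MP_cf6cc5_co

open Finset

theorem one_le_g (r : ℕ) {k : ℕ} (hk : 3 ≤ k) :
    1 ≤ Real.log k ^ (r + 1) / Real.log (Real.log k) ^ r := by
  have hk' : (3 : ℝ) ≤ k := by exact_mod_cast hk
  have h1 : 1 < Real.log k := by
    rw [Real.lt_log_iff_exp_lt (by linarith)]
    have := Real.exp_one_lt_d9
    linarith
  have h2 : 0 < Real.log (Real.log k) := Real.log_pos h1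
  have h3 := Real.log_le_sub_one_of_pos (show 0 < Real.log k by linarith)
  rw [one_le_div (by positivity)]
  calc Real.log (Real.log k) ^ r ≤ Real.log k ^ r := pow_le_pow_left₀ h2.le (by linarith) r
    _ ≤ _ := pow_le_pow_right₀ h1.le (by omega)

theorem exists_nested {n k : ℕ} (hn : Even n) (hk : 2 ≤ k) :
    ∃ M : SimpleGraph (Fin n), (∀ v, ∃! w, M.Adj v w) ∧
      ∃ ι : Fin n → Fin k, Monotone ι ∧ ∀ a b, M.Adj a b → ι a ≠ ι b := by
  obtain ⟨p, hp⟩ := hn
  let M : SimpleGraph (Fin n) :=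
    { Adj := fun v w => v.rev = w
      symm := ⟨fun v w h => by rw [← h, Fin.rev_rev]⟩
      loopless := ⟨fun v h => by
        have := congrArg Fin.val h
        rw [Fin.val_rev] at this
        have := v.2
        omega⟩ }
  refine ⟨M, fun v => ⟨v.rev, rfl, fun w hw => Eq.symm hw⟩,
    fun v => if (v : ℕ) < p then ⟨0, by omega⟩ else ⟨1, by omega⟩, ?_, ?_⟩
  · intro v w h
    rw [Fin.le_def] at h ⊢
    dsimp only
    split_ifs <;> simp only <;> omega
  · intro a b hab h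
    have h1 := congrArg Fin.val (show a.rev = b from hab)
    have h2 := congrArg Fin.val h
    rw [Fin.val_rev] at h1
    have := a.2
    dsimp only at h2
    split_ifs at h2 <;> simp only at h2 <;> omega

theorem lower_all (r : ℕ) :
    ∃ c : ℝ, 0 < c ∧ ∀ n k : ℕ, 3 ≤ k → k ≤ n → Even n →
      ∃ M : SimpleGraph (Fin n), (∀ v, ∃! w, M.Adj v w) ∧
        (∃ ι : Fin n → Fin k, Monotone ι ∧ ∀ a b, M.Adj a b → ι a ≠ ι b) ∧
        ∀ N : ℕ, (N : ℝ) ≤ (n : ℝ) ^ (c * (Real.log k ^ (r + 1) / Real.log (Real.log k) ^ r)) →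
          ∃ col : Sym2 (Fin N) → Fin (r + 2), ¬ ∃ f : Fin n → Fin N, StrictMono f ∧
            ∃ i : Fin (r + 2), ∀ a b : Fin n, M.Adj a b → col s(f a, f b) = i := by
  obtain ⟨c, hc, k₀, hk₀⟩ := lower_asymI r
  obtain ⟨B, hB⟩ := ((Icc 3 k₀).finite_toSet.image
    fun k : ℕ => Real.log k ^ (r + 1) / Real.log (Real.log k) ^ r).bddAbove
  refine ⟨min c (1 / (|B| + 1)), lt_min hc (by positivity), fun n k hk hkn hev => ?_⟩
  have hg := one_le_g r hk
  have hn1 : (1 : ℝ) < n := by exact_mod_cast (by omega : 1 < n)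
  by_cases h : k₀ ≤ k
  · obtain ⟨G, L, hG, hGL, hGk, hn, hcol⟩ := hk₀ n k h hkn
    obtain ⟨p, rfl⟩ : ∃ p, n = G * L * (G * L) + 2 * p := by
      have hsq : G * L * (G * L) ≤ n := by
        rw [← sq]
        exact (Nat.pow_le_pow_right (by omega) (by norm_num)).trans hn
      obtain ⟨d, rfl⟩ := Nat.exists_eq_add_of_le hsq
      have hd : Even d := (Nat.even_add.1 hev).1 ((hG.mul_right _).mul_right _)
      obtain ⟨p, rfl⟩ := hd
      exact ⟨p, by ring⟩
    obtain ⟨M, hM, hι, lo, hi, h1, h2, h3, h4⟩ := exists_matchingI G L p k hG hGL hGk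
    refine ⟨M, hM, hι, fun N hN => hcol M lo hi h1 h2 h3 h4 N (hN.trans ?_)⟩
    exact Real.rpow_le_rpow_of_exponent_le hn1.le
      (mul_le_mul_of_nonneg_right (min_le_left _ _) (by linarith))
  · obtain ⟨M, hM, hι⟩ := exists_nested hev (by omega : 2 ≤ k)
    refine ⟨M, hM, hι, fun N hN => ⟨fun _ => 0, ?_⟩⟩
    rintro ⟨f, hf, -⟩
    have h1 : n ≤ N := by simpa using Fintype.card_le_of_injective f hf.injective
    have h2 : Real.log k ^ (r + 1) / Real.log (Real.log k) ^ r ≤ |B| :=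
      (hB ⟨k, mem_coe.2 (mem_Icc.2 ⟨hk, by omega⟩), rfl⟩).trans (le_abs_self B)
    have h3 : min c (1 / (|B| + 1)) * (Real.log k ^ (r + 1) / Real.log (Real.log k) ^ r) < 1 := by
      calc _ ≤ 1 / (|B| + 1) * |B| :=
            mul_le_mul (min_le_right _ _) h2 (by linarith) (by positivity)
        _ < 1 := by
            rw [one_div_mul_eq_div, div_lt_one (by positivity)]
            linarith
    have h4 := Real.rpow_lt_rpow_of_exponent_lt hn1 h3
    rw [Real.rpow_one] at h4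
    have h5 : (n : ℝ) ≤ N := by exact_mod_cast h1
    linarith

theorem upper_all (r : ℕ) :
    ∃ C : ℝ, 0 < C ∧ ∀ n k : ℕ, 3 ≤ k → k ≤ n → ∃ N₀ : ℕ,
      (N₀ : ℝ) ≤ (n : ℝ) ^ (C * (Real.log k ^ (r + 1) / Real.log (Real.log k) ^ r)) ∧
      ∀ M : SimpleGraph (Fin n), (∀ v, ∃! w, M.Adj v w) →
        (∃ ι : Fin n → Fin k, Monotone ι ∧ ∀ a b, M.Adj a b → ι a ≠ ι b) →
        ∀ col : Sym2 (Fin N₀) → Fin (r + 2), ∃ f : Fin n → Fin N₀, StrictMono f ∧
          ∃ i : Fin (r + 2), ∀ a b : Fin n, M.Adj a b → col s(f a, f b) = i := by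
  obtain ⟨C, hC, k₀, hk₀⟩ := upper_asymI r
  refine ⟨max C (24 * k₀ * (4 * k₀) ^ r), lt_max_of_lt_left hC, fun n k hk hkn => ?_⟩
  have hg := one_le_g r hk
  have hn1 : (1 : ℝ) < n := by exact_mod_cast (by omega : 1 < n)
  by_cases h : k₀ ≤ k
  · obtain ⟨N₀, h1, h2⟩ := hk₀ n k h hkn
    exact ⟨N₀, h1.trans (Real.rpow_le_rpow_of_exponent_le hn1.le
      (mul_le_mul_of_nonneg_right (le_max_left _ _) (by linarith))), h2⟩
  · set K := Nat.log 2 k + 1 with hK
    set L := Nat.log 2 n + 1 with hL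
    have hnL : n ≤ 2 ^ L := (Nat.lt_pow_succ_log_self (by norm_num : 1 < 2) n).le
    have hkK : k ≤ 2 ^ K := (Nat.lt_pow_succ_log_self (by norm_num : 1 < 2) k).le
    have hKL : K ≤ L := Nat.succ_le_succ (Nat.log_mono_right hkn)
    have hK2 : 2 ≤ K := Nat.succ_le_succ (Nat.le_log_of_pow_le (by norm_num) (by omega))
    have hKk : K ≤ k := Nat.log_lt_self 2 (by omega)
    refine ⟨2 ^ (8 * (L * K) * (4 * K) ^ r), ?_, fun M hM ⟨ι, hι, hι2⟩ col =>
      upper_paramI (by omega) hnL hkK (hkK.trans (Nat.pow_le_pow_left hK2 _)) hK2 le_rfl hKL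
        M hM ι hι hι2 _ le_rfl col⟩
    have hL3 : (L : ℝ) ≤ 3 * Real.log n := log_nat_le (by omega)
    have hK3 : (K : ℝ) ≤ k₀ := by exact_mod_cast (by omega : K ≤ k₀)
    have hy0 : 0 ≤ Real.log n := Real.log_natCast_nonneg n
    rw [Real.rpow_def_of_pos (by linarith)]
    have h2e : (2 : ℝ) ≤ Real.exp 1 := by
      have := Real.add_one_le_exp 1
      linarith
    push_cast
    refine (pow_le_pow_left₀ (by norm_num) h2e _).trans ?_
    rw [Real.exp_one_pow, Real.exp_le_exp]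
    push_cast
    calc 8 * ((L : ℝ) * K) * (4 * K) ^ r ≤ 8 * (3 * Real.log n * k₀) * (4 * k₀) ^ r := by gcongr
      _ = Real.log n * (24 * k₀ * (4 * k₀) ^ r * 1) := by ring
      _ ≤ _ := by
          gcongr
          exact le_max_right _ _

end Pool.Agent.P.MP_cf6cc5_co
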