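import Mathlib
import Pool.Agent.P.MP_cf6cc5_co.CAsym

set_option autoImplicit false

namespace Pool.Agent.P.MP_cf6cc5_co

open Finset

open Classical in
/-- Perfect matchings on `Fin n`. -/
noncomputable def pms (n : ℕ) : Finset (SimpleGraph (Fin n)) :=
  univ.filter fun M => ∀ v, ∃! w, M.Adj v w

theorem mem_pms {n : ℕ} {M : SimpleGraph (Fin n)} : M ∈ pms n ↔ ∀ v, ∃! w, M.Adj v w := by
  simp [pms]

open Classical in
/-- One switching bounds the share of perfect matchings without an edge between two sets. -/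
theorem switching {n : ℕ} (A B : Finset (Fin n)) (hAB : Disjoint A B) :
    ((pms n).filter fun M => ∀ a ∈ A, ∀ b ∈ B, ¬ M.Adj a b).card * (A.card * B.card) ≤
      (pms n).card * n := by
  have hp : ∀ M : SimpleGraph (Fin n), M ∈ pms n → ∀ v, ∃ w, M.Adj v w :=
    fun M hM v => (mem_pms.1 hM v).exists
  rcases Nat.eq_zero_or_pos n with rfl | hn
  · have : A = ∅ := eq_empty_of_isEmpty A
    simp [this]
  have : Nonempty (Fin n) := ⟨⟨0, hn⟩⟩
  choose! p hp using hp
  have huniq : ∀ M ∈ pms n, ∀ v w w', M.Adj v w → M.Adj v w' → w = w' :=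
    fun M hM v w w' h h' => (mem_pms.1 hM v).unique h h'
  have hne : ∀ a ∈ A, ∀ b ∈ B, a ≠ b := fun a ha b hb e => disjoint_left.1 hAB ha (e ▸ hb)
  have hmaps : ∀ M ∈ pms n, ∀ s : Equiv.Perm (Fin n), M.comap s ∈ pms n := by
    intro M hM s
    refine mem_pms.2 fun v => ⟨s.symm (p M (s v)), by simpa using hp M hM (s v), fun w hw => ?_⟩
    rw [Equiv.eq_symm_apply]
    exact huniq M hM _ _ _ hw (hp M hM (s v))
  have hadj : ∀ M ∈ pms n, ∀ a ∈ A, ∀ b ∈ B, (M.comap (Equiv.swap (p M a) b)).Adj a b := by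
    intro M hM a ha b hb
    rw [SimpleGraph.comap_adj, Equiv.swap_apply_right,
      Equiv.swap_apply_of_ne_of_ne (hp M hM a).ne (hne a ha b hb)]
    exact hp M hM a
  have key := card_le_card_of_injOn
    (s := ((pms n).filter fun M => ∀ a ∈ A, ∀ b ∈ B, ¬ M.Adj a b) ×ˢ A ×ˢ B)
    (t := pms n ×ˢ (univ : Finset (Fin n)))
    (fun x => (x.1.comap (Equiv.swap (p x.1 x.2.1) x.2.2), p x.1 x.2.1)) (by
      rintro ⟨M, a, b⟩ hx
      simp only [coe_product, Set.mem_prod, mem_coe, mem_filter] at hx ⊢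
      exact ⟨hmaps M hx.1.1 _, mem_univ _⟩) (by
      rintro ⟨M, a, b⟩ hx ⟨M', a', b'⟩ hx' e
      simp only [coe_product, Set.mem_prod, mem_coe, mem_filter] at hx hx'
      obtain ⟨⟨hM, hno⟩, ha, hb⟩ := hx
      obtain ⟨⟨hM', -⟩, ha', hb'⟩ := hx'
      simp only [Prod.mk.injEq] at e
      obtain ⟨e1, e2⟩ := e
      have h1 := hadj M hM a ha b hb
      have h2 := hadj M' hM' a' ha' b' hb'
      rw [← e1] at h2
      have haa : a = a' := by
        have h3 := h2
        rw [SimpleGraph.comap_adj, Equiv.swap_apply_of_ne_of_ne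
          (by rw [e2]; exact (hp M' hM' a').ne) (hne a' ha' b hb)] at h3
        by_cases c1 : b' = b
        · rw [c1, Equiv.swap_apply_right] at h3
          exact huniq M hM _ _ _ (hp M hM a).symm h3.symm
        by_cases c2 : b' = p M a
        · exact absurd (c2 ▸ hp M hM a) (hno a ha b' hb')
        · rw [Equiv.swap_apply_of_ne_of_ne c2 c1] at h3
          exact absurd h3 (hno a' ha' b' hb')
      subst haa
      obtain rfl : b = b' := huniq _ (hmaps M hM _) _ _ _ h1 h2
      rw [← e2] at e1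
      have h4 : M = M' := by
        ext x y
        have := congrArg (fun H : SimpleGraph (Fin n) =>
          H.Adj (Equiv.swap (p M a) b x) (Equiv.swap (p M a) b y)) e1
        simpa using this
      rw [h4])
  simpa [card_product] using key

open Classical in
/-- Most perfect matchings have an edge between any two of `s` consecutive blocks. -/
theorem jumbled {n s l : ℕ} (hn : s * l ≤ n) :
    ((pms n).filter fun M => ¬ ∀ u u', u < u' → u' < s → ∃ x y : Fin n, u * l ≤ x ∧
      (x : ℕ) < u * l + l ∧ u' * l ≤ y ∧ (y : ℕ) < u' * l + l ∧ M.Adj x y).card * l ^ 2 ≤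
      s ^ 2 * ((pms n).card * n) := by
  let Bl : ℕ → Finset (Fin n) := fun u => univ.filter fun x => u * l ≤ x ∧ (x : ℕ) < u * l + l
  have hBl : ∀ u < s, l ≤ (Bl u).card := by
    intro u hu
    have h1 : (u + 1) * l ≤ s * l := Nat.mul_le_mul_right _ hu
    have h2 : Ico (u * l) (u * l + l) ⊆ (Bl u).image Fin.val := by
      intro x hx
      rw [mem_Ico] at hx
      exact mem_image.2 ⟨⟨x, by nlinarith⟩, mem_filter.2 ⟨mem_univ _, hx⟩, rfl⟩
    have h3 := (card_le_card h2).trans card_image_le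
    rwa [Nat.card_Ico, Nat.add_sub_cancel_left] at h3
  let T := (range s ×ˢ range s).filter fun e => e.1 < e.2
  let bad : ℕ × ℕ → Finset (SimpleGraph (Fin n)) := fun e =>
    (pms n).filter fun M => ∀ a ∈ Bl e.1, ∀ b ∈ Bl e.2, ¬ M.Adj a b
  have hsub : ((pms n).filter fun M => ¬ ∀ u u', u < u' → u' < s → ∃ x y : Fin n, u * l ≤ x ∧
      (x : ℕ) < u * l + l ∧ u' * l ≤ y ∧ (y : ℕ) < u' * l + l ∧ M.Adj x y) ⊆ T.biUnion bad := by
    intro M hM
    obtain ⟨h1, h2⟩ := mem_filter.1 hM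
    push Not at h2
    obtain ⟨u, u', h3, h4, h5⟩ := h2
    refine mem_biUnion.2 ⟨(u, u'), mem_filter.2 ⟨mem_product.2
      ⟨mem_range.2 (by omega), mem_range.2 h4⟩, h3⟩, mem_filter.2 ⟨h1, fun a ha b hb => ?_⟩⟩
    exact h5 a b (mem_filter.1 ha).2.1 (mem_filter.1 ha).2.2 (mem_filter.1 hb).2.1
      (mem_filter.1 hb).2.2
  have hbad : ∀ e ∈ T, (bad e).card * l ^ 2 ≤ (pms n).card * n := by
    intro e he
    obtain ⟨h1, h2⟩ := mem_filter.1 he
    obtain ⟨h3, h4⟩ := mem_product.1 h1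
    refine le_trans (Nat.mul_le_mul_left _ ?_) (switching (Bl e.1) (Bl e.2) ?_)
    · rw [sq]
      exact Nat.mul_le_mul (hBl _ (mem_range.1 h3)) (hBl _ (mem_range.1 h4))
    · rw [disjoint_left]
      intro x hx hx'
      have h5 := (mem_filter.1 hx).2.2
      have h6 := (mem_filter.1 hx').2.1
      have h7 : (e.1 + 1) * l ≤ e.2 * l := Nat.mul_le_mul_right _ h2
      nlinarith
  calc _ ≤ (∑ e ∈ T, (bad e).card) * l ^ 2 :=
        Nat.mul_le_mul_right _ ((card_le_card hsub).trans card_biUnion_le)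
    _ = ∑ e ∈ T, (bad e).card * l ^ 2 := sum_mul _ _ _
    _ ≤ T.card * ((pms n).card * n) := sum_le_card_nsmul _ _ _ hbad
    _ ≤ _ := by
        refine Nat.mul_le_mul_right _ ((card_filter_le _ _).trans ?_)
        rw [card_product, card_range, sq]

open Classical in
theorem lower_typ (r : ℕ) :
    ∃ c : ℝ, 0 < c ∧ ∃ n₀ : ℕ, ∀ n : ℕ, n₀ ≤ n → ∃ S ⊆ pms n,
      (1 - 4 / Real.sqrt n) * (pms n).card ≤ S.card ∧ ∀ M ∈ S,
        ∀ N : ℕ, (N : ℝ) ≤ (n : ℝ) ^ (c * (Real.log n ^ (r + 1) / Real.log (Real.log n) ^ r)) →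
          ∃ col : Sym2 (Fin N) → Fin (r + 2), ¬ ∃ f : Fin n → Fin N, StrictMono f ∧
            ∃ i : Fin (r + 2), ∀ a b : Fin n, M.Adj a b → col s(f a, f b) = i := by
  obtain ⟨c, hc, k₀, hk₀⟩ := lower_asymI r
  refine ⟨c, hc, k₀, fun n hn => ?_⟩
  obtain ⟨G, L, -, hGL, -, hs, hcol⟩ := hk₀ n n hn le_rfl
  set s := G * L with hsdef
  set l := n / s with hl
  have hsl : s * l ≤ n := Nat.mul_div_le _ _
  have hl2 : 2 ≤ l := by
    rw [hl, Nat.le_div_iff_mul_le (by omega)]
    refine le_trans ?_ ((Nat.pow_le_pow_right (by omega) (by norm_num : 2 ≤ 8)).trans hs)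
    rw [sq]
    exact Nat.mul_le_mul_right _ hGL
  have hn2 : n ≤ 2 * (s * l) := by
    have h1 : n < s * (l + 1) := Nat.lt_mul_div_succ _ (by omega)
    have h2 : s * (l + 1) ≤ s * (2 * l) := Nat.mul_le_mul_left _ (by omega)
    nlinarith
  have hj := jumbled hsl
  have hsplit := card_filter_add_card_filter_not (s := pms n) fun M => ∀ u u', u < u' → u' < s →
    ∃ x y : Fin n, u * l ≤ x ∧ (x : ℕ) < u * l + l ∧ u' * l ≤ y ∧ (y : ℕ) < u' * l + l ∧ M.Adj x y
  refine ⟨(pms n).filter fun M => ∀ u u', u < u' → u' < s →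
    ∃ x y : Fin n, u * l ≤ x ∧ (x : ℕ) < u * l + l ∧ u' * l ≤ y ∧ (y : ℕ) < u' * l + l ∧ M.Adj x y,
    filter_subset _ _, ?_, ?_⟩
  · set b := ((pms n).filter fun M => ¬ ∀ u u', u < u' → u' < s → ∃ x y : Fin n, u * l ≤ x ∧
      (x : ℕ) < u * l + l ∧ u' * l ≤ y ∧ (y : ℕ) < u' * l + l ∧ M.Adj x y).card with hb
    have hnpos : 0 < n := lt_of_lt_of_le (by positivity) hs
    have h1 : b * n ≤ 4 * s ^ 4 * (pms n).card := by
      refine Nat.le_of_mul_le_mul_right ?_ hnpos
      calc b * n * n ≤ b * (2 * (s * l)) * (2 * (s * l)) := by gcongr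
        _ = 4 * s ^ 2 * (b * l ^ 2) := by ring
        _ ≤ 4 * s ^ 2 * (s ^ 2 * ((pms n).card * n)) := Nat.mul_le_mul_left _ hj
        _ = _ := by ring
    have hnr : (0 : ℝ) < n := by exact_mod_cast hnpos
    have h2 : (s : ℝ) ^ 4 ≤ Real.sqrt n := by
      refine Real.le_sqrt_of_sq_le ?_
      rw [← pow_mul]
      exact_mod_cast hs
    have h3 : (0 : ℝ) < Real.sqrt n := Real.sqrt_pos.2 hnr
    have h4 : (b : ℝ) ≤ 4 / Real.sqrt n * (pms n).card := by
      have h5 : (b : ℝ) * n ≤ 4 * s ^ 4 * (pms n).card := by exact_mod_cast h1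
      rw [div_mul_eq_mul_div, le_div_iff₀ h3]
      refine le_of_mul_le_mul_right ?_ h3
      calc (b : ℝ) * Real.sqrt n * Real.sqrt n = b * n := by
            rw [mul_assoc, Real.mul_self_sqrt hnr.le]
        _ ≤ 4 * Real.sqrt n * (pms n).card := h5.trans (by gcongr)
        _ = _ := by ring
    have h6 := congrArg (Nat.cast : ℕ → ℝ) hsplit
    push_cast at h6
    linarith
  · intro M hM
    have hM2 := (mem_filter.1 hM).2
    have hidx : ∀ (g : Fin G) (i : Fin L), (g : ℕ) * L + i < s := by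
      intro g i
      have h1 : ((g : ℕ) + 1) * L ≤ G * L := Nat.mul_le_mul_right _ g.2
      have := i.2
      rw [add_mul, one_mul] at h1
      omega
    have hidx2 : ∀ (g g' : Fin G) (i i' : Fin L), g < g' → (g : ℕ) * L + i < g' * L + i' := by
      intro g g' i i' h
      have h1 : ((g : ℕ) + 1) * L ≤ g' * L := Nat.mul_le_mul_right _ h
      have := i.2
      rw [add_mul, one_mul] at h1
      omega
    have hlt : ∀ u u', u < u' → u * l + l ≤ u' * l := by
      intro u u' h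
      have h1 : (u + 1) * l ≤ u' * l := Nat.mul_le_mul_right _ h
      rwa [add_mul, one_mul] at h1
    refine hcol M (fun g i => ⟨(g * L + i) * l, by have := hlt _ _ (hidx g i); omega⟩)
      (fun g i => ⟨(g * L + i) * l + l - 1, by have := hlt _ _ (hidx g i); omega⟩) ?_ ?_ ?_ ?_
    · intro g i
      rw [Fin.lt_def]
      simp only
      omega
    · intro g i i' h
      have := hlt (g * L + i) (g * L + i') (Nat.add_lt_add_left h _)
      rw [Fin.le_def]
      simp only
      omega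
    · intro g g' i i' h
      have := hlt _ _ (hidx2 g g' i i' h)
      rw [Fin.le_def]
      simp only
      omega
    · intro g g' i i' h
      obtain ⟨x, y, h1, h2, h3, h4, h5⟩ := hM2 _ _ (hidx2 g g' i i' h) (hidx g' i')
      exact ⟨x, y, h1, Fin.le_def.2 (by simp only; omega), h3,
        Fin.le_def.2 (by simp only; omega), h5⟩

end Pool.Agent.P.MP_cf6cc5_co
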